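import Pool.Agent.Lib.MP_b83a82_al.LP.Stm3

set_option autoImplicit false

/-!
# [LP ADX] conjugation by exponentials (helper98)
-/

namespace MP_b83a82_al.LP

universe u

theorem ADX_left (p : ℕ) [Fact p.Prime] {R : Type u} [Ring R] [Algebra (ZMod p) R] (x y : R) :
    tex p (LinearMap.mulLeft (ZMod p) x : Module.End (ZMod p) R) y = tex p x * y := by
  unfold tex
  rw [LinearMap.sum_apply, Finset.sum_mul]
  refine Finset.sum_congr rfl (fun j _ => ?_)
  rw [LinearMap.smul_apply, LinearMap.pow_mulLeft, LinearMap.mulLeft_apply, smul_mul_assoc]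

theorem ADX_right (p : ℕ) [Fact p.Prime] {R : Type u} [Ring R] [Algebra (ZMod p) R] (x y : R) :
    tex p (LinearMap.mulRight (ZMod p) x : Module.End (ZMod p) R) y = y * tex p x := by
  unfold tex
  rw [LinearMap.sum_apply, Finset.mul_sum]
  refine Finset.sum_congr rfl (fun j _ => ?_)
  rw [LinearMap.smul_apply, LinearMap.pow_mulRight, LinearMap.mulRight_apply, mul_smul_comm]

theorem p_ADX : S_ADX.{u} := by
  intro hEXA p m _ R _ _ J M x hJ hx hM y hy
  have hxm : x ^ m = 0 := by
    have h1 := Submodule.pow_mem_pow J hx m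
    rw [hJ.nil] at h1
    exact (Submodule.mem_bot _).mp h1
  have hnm : (-x) ^ m = 0 := by rw [neg_pow, hxm, mul_zero]
  have h2 : 2 * m ≤ p := by
    have h3 := hJ.large
    have h4 := hJ.two
    nlinarith
  obtain ⟨L, hL⟩ : ∃ L : Module.End (ZMod p) R, L = LinearMap.mulLeft (ZMod p) x := ⟨_, rfl⟩
  obtain ⟨T, hT⟩ : ∃ T : Module.End (ZMod p) R, T = LinearMap.mulRight (ZMod p) (-x) := ⟨_, rfl⟩
  have hcom : Commute L T := by
    rw [hL, hT]
    exact LinearMap.commute_mulLeft_right _ _
  have hLm : L ^ m = 0 := by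
    rw [hL, LinearMap.pow_mulLeft, hxm]
    ext z
    simp
  have hTm : T ^ m = 0 := by
    rw [hT, LinearMap.pow_mulRight, hnm]
    ext z
    simp
  have hexp := hEXA p (Module.End (ZMod p) R) L T m m hcom hLm hTm (by omega)
  have hD : ∀ z, (L + T) z = x * z - z * x := by
    intro z
    rw [hL, hT, LinearMap.add_apply, LinearMap.mulLeft_apply, LinearMap.mulRight_apply,
      mul_neg, sub_eq_add_neg]
  have hpow : ∀ j : ℕ, ((L + T) ^ (j + 1)) y ∈ M := by
    intro j
    induction j with
    | zero =>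
      rw [zero_add, pow_one, hD]
      exact hy
    | succ j ih =>
      rw [pow_succ', Module.End.mul_apply, hD]
      exact hM _ ih
  have hval : tex p (L + T) y = tex p x * y * tex p (-x) := by
    rw [hexp, Module.End.mul_apply, hL, hT, ADX_right, ADX_left, mul_assoc]
  have hsum : tex p (L + T) y - y ∈ M := by
    obtain ⟨q, hq⟩ : ∃ q, p = q + 1 := ⟨p - 1, by have := (Fact.out : p.Prime).pos; omega⟩
    unfold tex
    have h5 : Finset.range p = Finset.range (q + 1) := by rw [← hq]
    rw [h5, Finset.sum_range_succ', LinearMap.add_apply, LinearMap.sum_apply]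
    have h6 : ((((0 : ℕ).factorial : ZMod p)⁻¹) • (L + T) ^ 0) y = y := by
      rw [LinearMap.smul_apply, pow_zero, Nat.factorial_zero, Nat.cast_one, inv_one, one_smul,
        Module.End.one_apply]
    rw [h6, add_sub_cancel_right]
    refine Submodule.sum_mem _ (fun j _ => ?_)
    rw [LinearMap.smul_apply]
    exact Submodule.smul_mem _ _ (hpow j)
  rw [hval] at hsum
  exact hsum

end MP_b83a82_al.LP
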