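import Pool.Agent.Lib.MP_b83a82_al.LP.Stm2

set_option autoImplicit false

/-!
# Piece AFL (helper35): admissible weights and filtrations
-/

open Matrix Module

namespace MP_b83a82_al.LP

/-- the bracket of two columns of `g` -/
theorem AFL_br_col {k : Type} [Field k] {n : ℕ} (c : SC n k)
    (g h : Matrix (Fin n) (Fin n) k) (hgh : g * h = 1) (i j : Fin n) :
    br c (fun r => g r i) (fun r => g r j) = ∑ l, bc c g h i j l • (fun r => g r l) := by
  funext r
  have hδ : ∀ s, ∑ l, g r l * h l s = if r = s then 1 else 0 := by
    intro s
    have h1 := congrFun (congrFun hgh r) s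
    rw [Matrix.mul_apply, Matrix.one_apply] at h1
    exact h1
  rw [Finset.sum_apply]
  simp only [br, bc, Pi.smul_apply, smul_eq_mul, Finset.sum_mul]
  symm
  rw [Finset.sum_comm]
  refine Finset.sum_congr rfl fun a _ => ?_
  rw [Finset.sum_comm]
  refine Finset.sum_congr rfl fun b _ => ?_
  rw [Finset.sum_comm]
  have h2 : ∀ s, ∑ l, g a i * g b j * c a b s * h l s * g r l
      = g a i * g b j * c a b s * (if r = s then 1 else 0) := by
    intro s
    rw [← hδ s, Finset.mul_sum]
    exact Finset.sum_congr rfl fun l _ => by ring
  simp only [h2, mul_ite, mul_one, mul_zero, Finset.sum_ite_eq, Finset.mem_univ, if_true]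

/-- the coordinates of a column -/
theorem AFL_coord {k : Type} [Field k] {n : ℕ} (g h : Matrix (Fin n) (Fin n) k)
    (hgh : g * h = 1) (i l : Fin n) :
    ∑ r, h l r * g r i = if l = i then 1 else 0 := by
  have h1 : h * g = 1 := mul_eq_one_comm.mp hgh
  have h2 := congrFun (congrFun h1 l) i
  rw [Matrix.mul_apply, Matrix.one_apply] at h2
  exact h2

/-- the coordinates of weight less than `a` of the elements of `fil g w a` are zero -/
theorem AFL_zero {k : Type} [Field k] {n : ℕ} (g h : Matrix (Fin n) (Fin n) k)
    (hgh : g * h = 1) (w : Fin n → ℝ) (a : ℝ) (x : Fin n → k) (hx : x ∈ fil g w a) (l : Fin n)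
    (hl : w l < a) : ∑ r, h l r * x r = 0 := by
  induction hx using Submodule.span_induction with
  | mem v hv =>
    obtain ⟨i, hi, rfl⟩ := hv
    rw [AFL_coord g h hgh i l, if_neg]
    rintro rfl
    exact absurd hl (not_lt.mpr hi)
  | zero => simp
  | add y z _ _ hy hz =>
    simp only [Pi.add_apply, mul_add, Finset.sum_add_distrib, hy, hz, add_zero]
  | smul t y _ hy =>
    have h1 : ∀ r, h l r * (t • y) r = t * (h l r * y r) := fun r => by
      rw [Pi.smul_apply, smul_eq_mul]; ring
    simp only [h1, ← Finset.mul_sum, hy, mul_zero]

theorem AFL_add_left {k : Type} [Field k] {n : ℕ} (c : SC n k) (x x' y : Fin n → k) :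
    br c (x + x') y = br c x y + br c x' y := by
  funext l
  simp only [br, Pi.add_apply, add_mul, Finset.sum_add_distrib]

theorem AFL_add_right {k : Type} [Field k] {n : ℕ} (c : SC n k) (x y y' : Fin n → k) :
    br c x (y + y') = br c x y + br c x y' := by
  funext l
  simp only [br, Pi.add_apply, mul_add, add_mul, Finset.sum_add_distrib]

theorem AFL_smul_left {k : Type} [Field k] {n : ℕ} (c : SC n k) (t : k) (x y : Fin n → k) :
    br c (t • x) y = t • br c x y := by
  funext l
  simp only [br, Pi.smul_apply, smul_eq_mul, Finset.mul_sum, mul_assoc]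

theorem AFL_smul_right {k : Type} [Field k] {n : ℕ} (c : SC n k) (t : k) (x y : Fin n → k) :
    br c x (t • y) = t • br c x y := by
  funext l
  simp only [br, Pi.smul_apply, smul_eq_mul, Finset.mul_sum]
  exact Finset.sum_congr rfl fun i _ => Finset.sum_congr rfl fun j _ => by ring

theorem p_AFL : S_AFL := by
  intro k _ n c g h w hgh
  constructor
  · intro hadm a b x hx y hy
    induction hx using Submodule.span_induction with
    | mem v hv =>
      obtain ⟨i, hi, rfl⟩ := hv
      induction hy using Submodule.span_induction with
      | mem u hu =>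
        obtain ⟨j, hj, rfl⟩ := hu
        rw [AFL_br_col c g h hgh i j]
        refine Submodule.sum_mem _ fun l _ => ?_
        by_cases h0 : bc c g h i j l = 0
        · rw [h0, zero_smul]
          exact Submodule.zero_mem _
        · refine Submodule.smul_mem _ _ (Submodule.subset_span ⟨l, ?_, rfl⟩)
          have := hadm i j l h0
          linarith
      | zero =>
        have : br c (fun r => g r i) 0 = 0 := by
          have := AFL_smul_right c 0 (fun r => g r i) 0
          simpa using this
        rw [this]
        exact Submodule.zero_mem _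
      | add u v _ _ hu hv =>
        rw [AFL_add_right]
        exact Submodule.add_mem _ hu hv
      | smul t u _ hu =>
        rw [AFL_smul_right]
        exact Submodule.smul_mem _ _ hu
    | zero =>
      have : br c 0 y = 0 := by
        have := AFL_smul_left c 0 0 y
        simpa using this
      rw [this]
      exact Submodule.zero_mem _
    | add u v _ _ hu hv =>
      rw [AFL_add_left]
      exact Submodule.add_mem _ hu hv
    | smul t u _ hu =>
      rw [AFL_smul_left]
      exact Submodule.smul_mem _ _ hu
  · intro hcl i j l h0
    by_contra hlt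
    have hlt' : w l < w i + w j := not_le.mp hlt
    have hi : (fun r => g r i) ∈ fil g w (w i) := Submodule.subset_span ⟨i, le_rfl, rfl⟩
    have hj : (fun r => g r j) ∈ fil g w (w j) := Submodule.subset_span ⟨j, le_rfl, rfl⟩
    have h1 := AFL_zero g h hgh w _ _ (hcl _ _ _ hi _ hj) l hlt'
    rw [AFL_br_col c g h hgh i j] at h1
    apply h0
    have h2 : ∀ r, h l r * (∑ m, bc c g h i j m • (fun r => g r m)) r
        = ∑ m, bc c g h i j m * (h l r * g r m) := by
      intro r
      rw [Finset.sum_apply, Finset.mul_sum]
      exact Finset.sum_congr rfl fun m _ => by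
        rw [Pi.smul_apply, smul_eq_mul]; ring
    simp only [h2] at h1
    rw [Finset.sum_comm] at h1
    simp only [← Finset.mul_sum, AFL_coord g h hgh, mul_ite, mul_one, mul_zero,
      Finset.sum_ite_eq, Finset.mem_univ, if_true] at h1
    exact h1

end MP_b83a82_al.LP
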