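import Pool.Agent.Lib.MP_b83a82_al.LP.Stm1

set_option autoImplicit false

open Matrix

namespace MP_b83a82_al.LP

theorem p_ALG : S_ALG := by
  intro hI hU n K c κ d hn hc hN hd hQ
  obtain ⟨hA, hB, -⟩ := hU n c
  set N := nrm c with hNdef
  set A := mA c with hAdef
  have hAH : Aᴴ = A := by
    rw [hAdef]
    unfold mA
    rw [Matrix.conjTranspose_sum]
    refine Finset.sum_congr rfl fun i _ => ?_
    rw [Matrix.conjTranspose_mul, Matrix.conjTranspose_conjTranspose]
  have hAs : ∀ x y, A y x = star (A x y) := by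
    intro x y
    have := congrFun (congrFun hAH y) x
    rw [Matrix.conjTranspose_apply] at this
    exact this.symm
  set a : Fin n → ℝ := fun x => (A x x).re with ha
  have hsum : ∑ x, a x = N := by
    have h1 := congrArg Complex.re hA
    rw [Complex.ofReal_re, Matrix.trace, Complex.re_sum] at h1
    exact h1.symm
  set t : Fin n → ℝ := fun x => κ * N * d x with ht
  have htsum : ∑ x, t x = 0 := by
    rw [ht, ← Finset.mul_sum, hd, mul_zero]
  have hn' : (0 : ℝ) < n := by exact_mod_cast hn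
  -- `B - A = Q + A`
  have hBA : mB c - A = mQ c + A := by
    unfold mQ
    rw [← hAdef]
    have : (2 : ℂ) • A = A + A := two_smul ℂ A
    rw [this]
    abel
  have hre2 : (trace ((mB c - A) * mQ c)).re = ∑ x, (-N / n + t x) ^ 2 +
      ∑ x, a x * (-N / n + t x) := by
    rw [hBA, Matrix.add_mul, Matrix.trace_add, Complex.add_re, hQ]
    congr 1
    · rw [Matrix.diagonal_mul_diagonal, Matrix.trace_diagonal, Complex.re_sum]
      refine Finset.sum_congr rfl fun x _ => ?_
      rw [← Complex.ofReal_mul, Complex.ofReal_re, ht, sq]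
    · rw [Matrix.trace, Complex.re_sum]
      refine Finset.sum_congr rfl fun x _ => ?_
      rw [Matrix.diag, Matrix.mul_diagonal, Complex.re_mul_ofReal]
  have hre1 : ∑ x, a x ^ 2 ≤ (trace (A * A)).re := by
    rw [Matrix.trace, Complex.re_sum]
    refine Finset.sum_le_sum fun x _ => ?_
    rw [Matrix.diag, Matrix.mul_apply, Complex.re_sum]
    have h1 : ∀ y, (A x y * A y x).re = ‖A x y‖ ^ 2 := by
      intro y
      rw [hAs x y, Complex.star_def, Complex.mul_conj, Complex.ofReal_re,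
        Complex.normSq_eq_norm_sq]
    simp only [h1]
    refine le_trans ?_ (Finset.single_le_sum (f := fun y => ‖A x y‖ ^ 2)
      (fun y _ => sq_nonneg _) (Finset.mem_univ x))
    have h2 : |a x| ≤ ‖A x x‖ := Complex.abs_re_le_norm _
    rw [← sq_abs (a x)]
    exact pow_le_pow_left₀ (abs_nonneg _) h2 2
  have hINE := hI n K c hc
  rw [← hAdef, hre2] at hINE
  -- expand
  have h3 : ∑ x, (-N / n + t x) ^ 2 + ∑ x, a x * (-N / n + t x) =
      ∑ x, t x ^ 2 + ∑ x, a x * t x := by
    have e1 : ∑ x, (-N / n + t x) ^ 2 = n * (-N / n) ^ 2 + 2 * (-N / n) * ∑ x, t x +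
        ∑ x, t x ^ 2 := by
      have e0 : (n : ℝ) * (-N / n) ^ 2 = ∑ _x : Fin n, (-N / n) ^ 2 := by
        rw [Finset.sum_const, Finset.card_univ, Fintype.card_fin, nsmul_eq_mul]
      rw [e0, Finset.mul_sum, ← Finset.sum_add_distrib, ← Finset.sum_add_distrib]
      refine Finset.sum_congr rfl fun x _ => ?_
      ring
    have e2 : ∑ x, a x * (-N / n + t x) = (-N / n) * N + ∑ x, a x * t x := by
      rw [← hsum, Finset.mul_sum, ← Finset.sum_add_distrib]
      refine Finset.sum_congr rfl fun x _ => ?_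
      ring
    rw [e1, e2, htsum]
    field_simp
    ring
  rw [h3] at hINE
  have h4 : ∑ x, a x * t x ≤ (1 / 4) * ∑ x, a x ^ 2 + ∑ x, t x ^ 2 := by
    rw [Finset.mul_sum, ← Finset.sum_add_distrib]
    refine Finset.sum_le_sum fun x _ => ?_
    nlinarith [sq_nonneg (a x / 2 - t x)]
  have h5 : ∑ x, a x ^ 2 ≤ 8 * ∑ x, t x ^ 2 := by linarith
  have h6 : N ^ 2 ≤ n * ∑ x, a x ^ 2 := by
    rw [← hsum]
    have := sq_sum_le_card_mul_sum_sq (s := (Finset.univ : Finset (Fin n))) (f := a)
    simpa using this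
  have h7 : ∑ x, t x ^ 2 = κ ^ 2 * N ^ 2 * ∑ x, d x ^ 2 := by
    rw [Finset.mul_sum]
    refine Finset.sum_congr rfl fun x _ => ?_
    rw [ht]
    ring
  have h8 : N ^ 2 * 1 ≤ N ^ 2 * (8 * n * κ ^ 2 * ∑ x, d x ^ 2) := by
    calc N ^ 2 * 1 ≤ n * ∑ x, a x ^ 2 := by rw [mul_one]; exact h6
      _ ≤ n * (8 * ∑ x, t x ^ 2) := mul_le_mul_of_nonneg_left h5 hn'.le
      _ = N ^ 2 * (8 * n * κ ^ 2 * ∑ x, d x ^ 2) := by
          rw [h7]
          ring
  exact le_of_mul_le_mul_left h8 (by positivity)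

end MP_b83a82_al.LP
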