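import Pool.Agent.Lib.MP_b83a82_al.LP.Stm1

set_option autoImplicit false

open Matrix

namespace MP_b83a82_al.LP

theorem p_ASA : S_ASA := by
  intro hBCL hALG hSLO hMIN hBND hDDC hROT hOFF n K c hn hc
  by_contra hG
  obtain ⟨ε, hε, hlow⟩ := hSLO n c hn hG
  have hn' : (0 : ℝ) < n := Nat.cast_pos.mpr hn
  obtain ⟨σ, hσd⟩ : ∃ σ : ℝ, σ = 2 / Real.sqrt (33 * n) := ⟨_, rfl⟩
  have hsq : 0 < Real.sqrt (33 * n) := Real.sqrt_pos.mpr (by positivity)
  have hσ : 0 < σ := by rw [hσd]; positivity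
  have hσ2 : σ ^ 2 = 4 / (33 * n) := by
    rw [hσd, div_pow, Real.sq_sqrt (by positivity)]
    norm_num
  rw [← hσd] at hlow
  obtain ⟨M, hM, hM1⟩ : ∃ M : ℝ, 0 < M ∧ Real.log (nrm c) - Real.log ε ≤ σ * M := by
    refine ⟨max 1 ((Real.log (nrm c) - Real.log ε) / σ), lt_max_of_lt_left one_pos, ?_⟩
    calc Real.log (nrm c) - Real.log ε
        = σ * ((Real.log (nrm c) - Real.log ε) / σ) := by field_simp
      _ ≤ _ := mul_le_mul_of_nonneg_left (le_max_right _ _) hσ.le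
  have hκ : 0 < σ / M := div_pos hσ hM
  obtain ⟨u, d, hmin⟩ := hMIN n c ε σ (σ / M) hε hσ hκ hlow
  have hd2 := hBND n c ε σ M hε hσ hM hlow hM1 u d hmin
  obtain ⟨hu, hd0, hPh⟩ := hmin
  have hpos : ∀ u' : Matrix (Fin n) (Fin n) ℂ, Un u' → 0 < nrm (ud c u' d) := by
    intro u' hu'
    exact lt_of_lt_of_le (mul_pos hε (Real.exp_pos _)) (hlow u' d hu' hd0)
  have hL1 : LieC K (bc c u uᴴ) := (hBCL ℂ n c u uᴴ).2.2.1 K hu.2 hc
  have hscd : ud c u d = bc (bc c u uᴴ) (diagonal fun i => (Real.exp (d i) : ℂ))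
      (diagonal fun i => (Real.exp (-d i) : ℂ)) := by
    rw [(hBCL ℂ n (bc c u uᴴ) u uᴴ).2.2.2.2]
    funext i j l
    simp only [ud, sc]
    rw [show d i + d j - d l = d i + d j + -d l by ring, Real.exp_add, Real.exp_add]
    push_cast
    ring
  have hL2 : LieC K (ud c u d) := by
    rw [hscd]
    refine (hBCL ℂ n (bc c u uᴴ) _ _).2.2.1 K ?_ hL1
    rw [diagonal_mul_diagonal, ← diagonal_one]
    congr 1
    funext i
    rw [← Complex.ofReal_mul, ← Real.exp_add]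
    simp
  have hQ : mQ (ud c u d) = diagonal
      (fun x => ((-(nrm (ud c u d)) / n + (σ / M) * nrm (ud c u d) * d x : ℝ) : ℂ)) := by
    ext x y
    rcases eq_or_ne x y with rfl | hxy
    · rw [diagonal_apply_eq]
      exact hDDC n (bc c u uᴴ) (σ / M) d hn hL1.alt (hpos u hu) hd0
        (fun d' hd' => hPh u d' hu hd') x
    · rw [diagonal_apply_ne _ hxy]
      by_cases hdd : d x = d y
      · exact hOFF n c (σ / M) u d hc.alt ⟨hu, hd0, hPh⟩ hpos x y hxy hdd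
      · exact hROT n c (σ / M) u d hc.alt ⟨hu, hd0, hPh⟩ hpos x y hdd
  have h1 := hALG n K (ud c u d) (σ / M) d hn hL2 (hpos u hu) hd0 hQ
  have h2 : (σ / M) ^ 2 * ∑ x, d x ^ 2 ≤ σ ^ 2 := by
    calc (σ / M) ^ 2 * ∑ x, d x ^ 2 ≤ (σ / M) ^ 2 * M ^ 2 :=
          mul_le_mul_of_nonneg_left hd2 (sq_nonneg _)
      _ = σ ^ 2 := by field_simp
  have h3 : 8 * (n : ℝ) * (σ / M) ^ 2 * ∑ x, d x ^ 2 ≤ 32 / 33 := by
    calc 8 * (n : ℝ) * (σ / M) ^ 2 * ∑ x, d x ^ 2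
        = 8 * (n : ℝ) * ((σ / M) ^ 2 * ∑ x, d x ^ 2) := by ring
      _ ≤ 8 * (n : ℝ) * σ ^ 2 := mul_le_mul_of_nonneg_left h2 (by positivity)
      _ = 32 / 33 := by
          rw [hσ2]
          field_simp
          norm_num
  linarith

end MP_b83a82_al.LP
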