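import Pool.Agent.Lib.MP_b83a82_al.LP.Stm2

set_option autoImplicit false

/-!
# LARGE PRIMES, piece ASC: assembly of part C
-/

open Matrix Module

namespace MP_b83a82_al.LP

private theorem ASC_ad (p : ℕ) [Fact p.Prime] {n : ℕ} (c : SC n (ZMod p)) (i : Fin n) :
    adM (ext p c) i = (adM c i).map (algebraMap (ZMod p) (AlgebraicClosure (ZMod p))) := rfl

private theorem ASC_lie (p : ℕ) [Fact p.Prime] {n K : ℕ} (c : SC n (ZMod p)) (h : LieC K c) :
    LieC K (ext p c) := by
  refine ⟨?_, ?_, ?_⟩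
  · intro i j l
    unfold ext
    rw [h.alt i j l, map_neg]
  · intro i j
    have h1 := congrArg (fun M : Matrix (Fin n) (Fin n) (ZMod p) =>
      (algebraMap (ZMod p) (AlgebraicClosure (ZMod p))).mapMatrix M) (h.jac i j)
    simp only [map_sub, map_mul, map_sum] at h1
    simp only [RingHom.mapMatrix_apply] at h1
    rw [ASC_ad, ASC_ad, h1]
    refine Finset.sum_congr rfl fun s _ => ?_
    rw [ASC_ad]
    ext a b
    simp [ext, Matrix.map_apply]
  · intro f
    have h1 := congrArg (fun M : Matrix (Fin n) (Fin n) (ZMod p) =>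
      (algebraMap (ZMod p) (AlgebraicClosure (ZMod p))).mapMatrix M) (h.nil f)
    simp only [map_zero, map_list_prod, List.map_ofFn] at h1
    exact h1

private theorem ASC_br (p : ℕ) [Fact p.Prime] {n : ℕ} (c : SC n (ZMod p))
    (x y : Fin n → ZMod p) :
    (fun r => algebraMap (ZMod p) (AlgebraicClosure (ZMod p)) (br c x y r)) =
      br (ext p c) (fun r => algebraMap (ZMod p) (AlgebraicClosure (ZMod p)) (x r))
        (fun r => algebraMap (ZMod p) (AlgebraicClosure (ZMod p)) (y r)) := by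
  funext r
  unfold br ext
  simp only [map_sum, map_mul]

private theorem ASC_mono {n : ℕ} {k : Type*} [CommRing k] (g : Matrix (Fin n) (Fin n) k)
    (w : Fin n → ℝ) {a b : ℝ} (hab : a ≤ b) : fil g w b ≤ fil g w a := by
  unfold fil
  refine Submodule.span_mono ?_
  rintro v ⟨i, hi, rfl⟩
  exact ⟨i, hab.trans hi, rfl⟩

private theorem ASC_rank {n : ℕ} {k : Type*} [Field k] (g h : Matrix (Fin n) (Fin n) k)
    (hgh : g * h = 1) (w : Fin n → ℝ) (a : ℝ) :
    finrank k (fil g w a) = (Finset.univ.filter fun i => a ≤ w i).card := by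
  classical
  have hu : IsUnit g := by
    have h2 : h * g = 1 := mul_eq_one_comm.mp hgh
    exact ⟨⟨g, h, hgh, h2⟩, rfl⟩
  have hli : LinearIndependent k g.col := Matrix.linearIndependent_cols_iff_isUnit.mpr hu
  have hli2 : LinearIndependent k (fun i : {i : Fin n // a ≤ w i} => g.col i.1) :=
    hli.comp _ Subtype.val_injective
  have hset : {v : Fin n → k | ∃ i, a ≤ w i ∧ v = fun r => g r i} =
      Set.range (fun i : {i : Fin n // a ≤ w i} => g.col i.1) := by
    ext v
    constructor
    · rintro ⟨i, hi, rfl⟩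
      exact ⟨⟨i, hi⟩, rfl⟩
    · rintro ⟨⟨i, hi⟩, rfl⟩
      exact ⟨i, hi, rfl⟩
  unfold fil
  rw [hset, finrank_span_eq_card hli2, Fintype.card_subtype]

/-- **ASC.** Assembly of part C. -/
theorem p_ASC : S_ASC := by
  intro hB hOpt hAfl hFro hDes hSlb n K hn
  obtain ⟨p₀, hp₀⟩ := hB n K hn
  refine ⟨p₀, ?_⟩
  intro p _ hp c hc
  have hgood := hp₀ p hp (ext p c) (ASC_lie p c hc)
  obtain ⟨g, h, w, hopt⟩ := hOpt (AlgebraicClosure (ZMod p)) n (ext p c) hn hgood
  have hgh : g * h = 1 := hopt.1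
  have hadm := hopt.2.1
  obtain ⟨t, ht, hcard⟩ := hSlb n w hopt.2.2.1
  obtain ⟨M, hM, hMr⟩ := hDes p n (fil g w t) (hFro p n c g h w hopt t)
  obtain ⟨N, hN, hNr⟩ := hDes p n (fil g w (2 * t)) (hFro p n c g h w hopt (2 * t))
  refine ⟨M, N, ?_, ?_, ?_⟩
  · intro x hx
    rw [hM]
    exact ASC_mono g w (by linarith) ((hN x).mp hx)
  · intro x hx y hy
    rw [hN]
    rw [ASC_br]
    have h1 := (hAfl _ n (ext p c) g h w hgh).mp hadm t t _ ((hM x).mp hx) _ ((hM y).mp hy)
    rwa [← two_mul] at h1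
  · rw [hMr, hNr, ASC_rank g h hgh, ASC_rank g h hgh]
    have h1 : (Finset.univ.filter fun i => t ≤ w i ∧ w i < 2 * t).card +
        (Finset.univ.filter fun i => 2 * t ≤ w i).card ≤
        (Finset.univ.filter fun i => t ≤ w i).card := by
      rw [← Finset.card_union_of_disjoint]
      · refine Finset.card_le_card ?_
        intro i hi
        rw [Finset.mem_union, Finset.mem_filter, Finset.mem_filter] at hi
        rw [Finset.mem_filter]
        refine ⟨Finset.mem_univ i, ?_⟩
        rcases hi with hi | hi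
        · exact hi.2.1
        · linarith [hi.2]
      · rw [Finset.disjoint_left]
        intro i hi hi'
        rw [Finset.mem_filter] at hi hi'
        linarith [hi.2.2, hi'.2]
    omega

end MP_b83a82_al.LP
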