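import Pool.Agent.Lib.MP_b83a82_al.LP.Stm1

set_option autoImplicit false

open Matrix

namespace MP_b83a82_al.LP

section

variable {k : Type} [CommRing k] {n : ℕ}

theorem BCL_adM (c : SC n k) (g h : Matrix (Fin n) (Fin n) k) (i : Fin n) :
    adM (bc c g h) i = h * (∑ a, g a i • adM c a) * g := by
  ext l j
  simp only [adM, bc, Matrix.of_apply, Matrix.mul_apply, Matrix.sum_apply, Matrix.smul_apply,
    smul_eq_mul, Finset.sum_mul, Finset.mul_sum]
  rw [Finset.sum_comm]
  refine Finset.sum_congr rfl fun b _ => ?_
  refine Finset.sum_congr rfl fun s _ => ?_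
  refine Finset.sum_congr rfl fun a _ => ?_
  ring

theorem BCL_comp (c : SC n k) (g h g' h' : Matrix (Fin n) (Fin n) k) :
    bc (bc c g h) g' h' = bc c (g * g') (h' * h) := by
  have key : ∀ i, adM (bc (bc c g h) g' h') i = adM (bc c (g * g') (h' * h)) i := by
    intro i
    rw [BCL_adM, BCL_adM]
    have e : ∑ a, g' a i • adM (bc c g h) a = h * (∑ a, (g * g') a i • adM c a) * g := by
      calc ∑ a, g' a i • adM (bc c g h) a
          = ∑ a, h * (g' a i • ∑ b, g b a • adM c b) * g := by
            refine Finset.sum_congr rfl fun a _ => ?_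
            rw [BCL_adM, Matrix.mul_smul, Matrix.smul_mul]
        _ = h * (∑ a, g' a i • ∑ b, g b a • adM c b) * g := by
            rw [Finset.mul_sum, Finset.sum_mul]
        _ = h * (∑ a, (g * g') a i • adM c a) * g := by
            congr 2
            simp only [Matrix.mul_apply, Finset.smul_sum, Finset.sum_smul, smul_smul]
            rw [Finset.sum_comm]
            refine Finset.sum_congr rfl fun b _ => Finset.sum_congr rfl fun a _ => ?_
            rw [mul_comm]
    rw [e]
    simp only [Matrix.mul_assoc]
  funext i j l
  have := congrFun (congrFun (key i) l) j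
  exact this

theorem BCL_alt {c : SC n k} (hc : ∀ i j l, c i j l = -c j i l) (g h : Matrix (Fin n) (Fin n) k)
    (i j l : Fin n) : bc c g h i j l = -bc c g h j i l := by
  unfold bc
  rw [Finset.sum_comm, ← Finset.sum_neg_distrib]
  refine Finset.sum_congr rfl fun b _ => ?_
  rw [← Finset.sum_neg_distrib]
  refine Finset.sum_congr rfl fun a _ => ?_
  rw [← Finset.sum_neg_distrib]
  refine Finset.sum_congr rfl fun s _ => ?_
  rw [hc a b s]
  ring

theorem BCL_pow {S : Submodule k (Matrix (Fin n) (Fin n) k)} :
    ∀ {K : ℕ} (X : Fin K → Matrix (Fin n) (Fin n) k), (∀ t, X t ∈ S) →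
      (List.ofFn X).prod ∈ S ^ K := by
  intro K
  induction K with
  | zero =>
    intro X _
    rw [List.ofFn_zero, List.prod_nil, pow_zero]
    exact Submodule.one_le.mp le_rfl
  | succ K ih =>
    intro X hX
    rw [List.ofFn_succ, List.prod_cons, pow_succ']
    exact Submodule.mul_mem_mul (hX 0) (ih _ fun t => hX _)

theorem BCL_nil {K : ℕ} {E : Fin n → Matrix (Fin n) (Fin n) k}
    (hE : ∀ f : Fin K → Fin n, (List.ofFn fun t => E (f t)).prod = 0)
    {X : Fin K → Matrix (Fin n) (Fin n) k} (hX : ∀ t, X t ∈ Submodule.span k (Set.range E)) :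
    (List.ofFn X).prod = 0 := by
  have h1 := BCL_pow X hX
  have h2 : Submodule.span k (Set.range E) ^ K = ⊥ := by
    rw [Submodule.span_pow, eq_bot_iff, Submodule.span_le]
    intro x hx
    rw [Set.mem_pow] at hx
    obtain ⟨f, rfl⟩ := hx
    have hf : ∀ t, ∃ i, E i = f t := fun t => (f t).2
    choose i hi using hf
    have h3 := hE i
    simp only [hi] at h3
    rw [SetLike.mem_coe, Submodule.mem_bot]
    exact h3
  rw [h2, Submodule.mem_bot] at h1
  exact h1

theorem BCL_conj {h g : Matrix (Fin n) (Fin n) k} (hgh : g * h = 1) (hhg : h * g = 1) :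
    ∀ {K : ℕ} (X : Fin K → Matrix (Fin n) (Fin n) k),
      (List.ofFn fun t => h * X t * g).prod = h * (List.ofFn X).prod * g := by
  intro K
  induction K with
  | zero =>
    intro X
    rw [List.ofFn_zero, List.ofFn_zero, List.prod_nil, mul_one, hhg]
  | succ K ih =>
    intro X
    rw [List.ofFn_succ, List.ofFn_succ, List.prod_cons, List.prod_cons, ih]
    calc h * X 0 * g * (h * (List.ofFn fun i => X i.succ).prod * g)
        = h * X 0 * (g * h) * (List.ofFn fun i => X i.succ).prod * g := by
          simp only [Matrix.mul_assoc]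
      _ = h * (X 0 * (List.ofFn fun i => X i.succ).prod) * g := by
          rw [hgh, mul_one]
          simp only [Matrix.mul_assoc]

theorem BCL_lie {K : ℕ} {c : SC n k} {g h : Matrix (Fin n) (Fin n) k} (hgh : g * h = 1)
    (hc : LieC K c) : LieC K (bc c g h) := by
  have hhg : h * g = 1 := mul_eq_one_comm.mp hgh
  refine ⟨BCL_alt hc.alt g h, ?_, ?_⟩
  · intro i j
    -- `ad` of the vector `v`
    set T : (Fin n → k) → Matrix (Fin n) (Fin n) k := fun v => ∑ a, v a • adM c a with hT
    have hadM : ∀ i, adM (bc c g h) i = h * T (fun a => g a i) * g := fun i => BCL_adM c g h i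
    have e1 : ∀ X Y : Matrix (Fin n) (Fin n) k,
        h * X * g * (h * Y * g) - h * Y * g * (h * X * g) = h * (X * Y - Y * X) * g := by
      intro X Y
      have e2 : ∀ X Y : Matrix (Fin n) (Fin n) k, h * X * g * (h * Y * g) = h * (X * Y) * g := by
        intro X Y
        calc h * X * g * (h * Y * g) = h * X * (g * h) * Y * g := by simp only [Matrix.mul_assoc]
          _ = h * (X * Y) * g := by
            rw [hgh, mul_one]
            simp only [Matrix.mul_assoc]
      rw [e2, e2, mul_sub, sub_mul]
    have e3 : ∀ v w : Fin n → k, T v * T w - T w * T v = T (br c v w) := by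
      intro v w
      have e4 : T v * T w - T w * T v =
          ∑ a, ∑ b, (v a * w b) • (adM c a * adM c b - adM c b * adM c a) := by
        rw [hT]
        simp only [Finset.sum_mul_sum, smul_mul_smul_comm, smul_sub, Finset.sum_sub_distrib]
        congr 1
        rw [Finset.sum_comm]
        refine Finset.sum_congr rfl fun a _ => Finset.sum_congr rfl fun b _ => ?_
        rw [mul_comm (w b)]
      rw [e4]
      simp only [hc.jac, hT, br, Finset.smul_sum, Finset.sum_smul, smul_smul]
      calc ∑ a, ∑ b, ∑ s, (v a * w b * c a b s) • adM c s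
          = ∑ a, ∑ s, ∑ b, (v a * w b * c a b s) • adM c s :=
            Finset.sum_congr rfl fun a _ => Finset.sum_comm
        _ = ∑ s, ∑ a, ∑ b, (v a * w b * c a b s) • adM c s := Finset.sum_comm
    have e5 : ∀ r, br c (fun a => g a i) (fun a => g a j) r = ∑ s, bc c g h i j s * g r s := by
      intro r
      have e6 : ∀ s, bc c g h i j s =
          ∑ t, h s t * br c (fun a => g a i) (fun a => g a j) t := by
        intro s
        unfold bc br
        simp only [Finset.mul_sum]
        calc ∑ a, ∑ b, ∑ t, g a i * g b j * c a b t * h s t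
            = ∑ a, ∑ t, ∑ b, g a i * g b j * c a b t * h s t :=
              Finset.sum_congr rfl fun a _ => Finset.sum_comm
          _ = ∑ t, ∑ a, ∑ b, g a i * g b j * c a b t * h s t := Finset.sum_comm
          _ = ∑ t, ∑ a, ∑ b, h s t * (g a i * g b j * c a b t) := by
              refine Finset.sum_congr rfl fun t _ => Finset.sum_congr rfl fun a _ =>
                Finset.sum_congr rfl fun b _ => ?_
              ring
      have e7 : ∀ t, ∑ s, g r s * h s t = if r = t then 1 else 0 := by
        intro t
        have := congrFun (congrFun hgh r) t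
        rw [Matrix.mul_apply, Matrix.one_apply] at this
        exact this
      calc br c (fun a => g a i) (fun a => g a j) r
          = ∑ t, (if r = t then 1 else 0) * br c (fun a => g a i) (fun a => g a j) t := by
            simp
        _ = ∑ t, ∑ s, g r s * h s t * br c (fun a => g a i) (fun a => g a j) t := by
            refine Finset.sum_congr rfl fun t _ => ?_
            rw [← e7 t, Finset.sum_mul]
        _ = ∑ s, ∑ t, g r s * h s t * br c (fun a => g a i) (fun a => g a j) t :=
            Finset.sum_comm
        _ = ∑ s, bc c g h i j s * g r s := by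
            refine Finset.sum_congr rfl fun s _ => ?_
            rw [e6 s, Finset.sum_mul]
            refine Finset.sum_congr rfl fun t _ => ?_
            ring
    rw [hadM, hadM, e1, e3]
    have e8 : T (br c (fun a => g a i) (fun a => g a j)) =
        ∑ s, bc c g h i j s • T (fun a => g a s) := by
      rw [hT]
      simp only [e5, Finset.sum_smul, Finset.smul_sum, smul_smul]
      exact Finset.sum_comm
    rw [e8, Finset.mul_sum, Finset.sum_mul]
    refine Finset.sum_congr rfl fun s _ => ?_
    rw [hadM, Matrix.mul_smul, Matrix.smul_mul]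
  · intro f
    have h1 : (List.ofFn fun t => adM (bc c g h) (f t)) =
        List.ofFn fun t => h * (∑ a, g a (f t) • adM c a) * g := by
      congr 1
      funext t
      exact BCL_adM c g h (f t)
    rw [h1, BCL_conj hgh hhg, BCL_nil hc.nil, mul_zero, zero_mul]
    intro t
    exact Submodule.sum_mem _ fun a _ => Submodule.smul_mem _ _
      (Submodule.subset_span ⟨a, rfl⟩)

end

theorem p_BCL : S_BCL := by
  intro k _ n c g h
  refine ⟨BCL_adM c g h, BCL_comp c g h, fun K hgh hc => BCL_lie hgh hc, ?_, ?_⟩
  · funext i j l
    unfold bc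
    simp [Matrix.one_apply]
  · intro d d'
    funext i j l
    unfold bc
    simp [Matrix.diagonal_apply]

end MP_b83a82_al.LP
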