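import Pool.Agent.Lib.MP_b83a82_al.LP.Stm1

/-!
# LARGE PRIMES, piece BND: the minimum is not far away
-/

set_option autoImplicit false

open Matrix

namespace MP_b83a82_al.LP

private theorem BND_calc {ι : Type} [Fintype ι] (a b : ι → ℝ) (ha : ∀ i, 0 ≤ a i) (K2 : ℝ)
    (hpos : ∀ t : ℝ, 0 < ∑ i, a i * Real.exp (t * b i))
    (hmin : ∀ t : ℝ, Real.log (∑ i, a i * Real.exp (1 * b i)) + K2 ≤
      Real.log (∑ i, a i * Real.exp (t * b i)) + t ^ 2 * K2) :
    2 * K2 + Real.log (∑ i, a i * Real.exp (1 * b i)) ≤ Real.log (∑ i, a i) := by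
  set N : ℝ → ℝ := fun t => ∑ i, a i * Real.exp (t * b i) with hN
  have hN1 : 0 < N 1 := hpos 1
  have hd : HasDerivAt N (∑ i, a i * (Real.exp (1 * b i) * b i)) 1 := by
    have : N = ∑ i, fun t => a i * Real.exp (t * b i) := by
      funext t
      simp [hN]
    rw [this]
    refine HasDerivAt.sum fun i _ => ?_
    refine HasDerivAt.const_mul (a i) ?_
    have h1 : HasDerivAt (fun t : ℝ => t * b i) (b i) 1 := by
      simpa using (hasDerivAt_id (1 : ℝ)).mul_const (b i)
    exact h1.exp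
  set D : ℝ := ∑ i, a i * (Real.exp (1 * b i) * b i) with hD
  have hlog : HasDerivAt (fun t => Real.log (N t)) (D / N 1) 1 := hd.log hN1.ne'
  have hsq : HasDerivAt (fun t : ℝ => t ^ 2 * K2) (2 * K2) 1 := by
    have h2 := (hasDerivAt_pow 2 (1 : ℝ)).mul_const K2
    simpa using h2
  have hφ : HasDerivAt (fun t => Real.log (N t) + t ^ 2 * K2) (D / N 1 + 2 * K2) 1 :=
    hlog.add hsq
  have hlm : IsLocalMin (fun t => Real.log (N t) + t ^ 2 * K2) 1 := by
    refine Filter.Eventually.of_forall fun t => ?_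
    show Real.log (N 1) + 1 ^ 2 * K2 ≤ Real.log (N t) + t ^ 2 * K2
    have h3 := hmin t
    rw [one_pow, one_mul]
    exact h3
  have h0 : D / N 1 + 2 * K2 = 0 := hlm.hasDerivAt_eq_zero hφ
  have hDN : D = -(2 * K2) * N 1 := by
    have : D / N 1 = -(2 * K2) := by linarith
    rw [div_eq_iff hN1.ne'] at this
    exact this
  have hterm : ∀ i, a i * (Real.exp (2 * K2) * (Real.exp (1 * b i) * (1 - (b i + 2 * K2)))) ≤
      a i := by
    intro i
    have h4 : Real.exp (2 * K2) * (Real.exp (1 * b i) * (1 - (b i + 2 * K2))) ≤ 1 := by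
      have h5 : 1 - (b i + 2 * K2) ≤ Real.exp (-(b i + 2 * K2)) := by
        have := Real.add_one_le_exp (-(b i + 2 * K2))
        linarith
      calc Real.exp (2 * K2) * (Real.exp (1 * b i) * (1 - (b i + 2 * K2)))
          ≤ Real.exp (2 * K2) * (Real.exp (1 * b i) * Real.exp (-(b i + 2 * K2))) :=
            mul_le_mul_of_nonneg_left (mul_le_mul_of_nonneg_left h5 (Real.exp_pos _).le)
              (Real.exp_pos _).le
        _ = 1 := by
            rw [← Real.exp_add, ← Real.exp_add, Real.exp_eq_one_iff]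
            ring
    calc a i * (Real.exp (2 * K2) * (Real.exp (1 * b i) * (1 - (b i + 2 * K2))))
        ≤ a i * 1 := mul_le_mul_of_nonneg_left h4 (ha i)
      _ = a i := mul_one _
  have hsum : Real.exp (2 * K2) * N 1 ≤ ∑ i, a i := by
    have h6 : ∑ i, a i * (Real.exp (2 * K2) * (Real.exp (1 * b i) * (1 - (b i + 2 * K2)))) =
        Real.exp (2 * K2) * ((1 - 2 * K2) * N 1 - D) := by
      simp only [hN, hD, Finset.mul_sum, ← Finset.sum_sub_distrib]
      refine Finset.sum_congr rfl fun i _ => ?_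
      ring
    have h7 : (1 - 2 * K2) * N 1 - D = N 1 := by rw [hDN]; ring
    rw [← h7, ← h6]
    exact Finset.sum_le_sum fun i _ => hterm i
  have h8 : Real.log (Real.exp (2 * K2) * N 1) ≤ Real.log (∑ i, a i) :=
    Real.log_le_log (mul_pos (Real.exp_pos _) hN1) hsum
  rw [Real.log_mul (Real.exp_pos _).ne' hN1.ne', Real.log_exp] at h8
  exact h8

private theorem BND_nrm {n : ℕ} (c : SC n ℂ) (u : Matrix (Fin n) (Fin n) ℂ) (d : Fin n → ℝ)
    (t : ℝ) : nrm (ud c u (fun i => t * d i)) =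
      ∑ x : Fin n × Fin n × Fin n, ‖bc c u uᴴ x.1 x.2.1 x.2.2‖ ^ 2 *
        Real.exp (t * (2 * (d x.1 + d x.2.1 - d x.2.2))) := by
  simp only [Fintype.sum_prod_type, nrm]
  refine Finset.sum_congr rfl fun i _ => Finset.sum_congr rfl fun j _ =>
    Finset.sum_congr rfl fun l _ => ?_
  simp only [ud, sc]
  rw [norm_mul, mul_pow, Complex.norm_real, Real.norm_eq_abs, abs_of_pos (Real.exp_pos _),
    ← Real.exp_nat_mul]
  congr 2
  push_cast
  ring

private theorem BND_nrm0 {n : ℕ} (c : SC n ℂ) (u : Matrix (Fin n) (Fin n) ℂ) :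
    nrm (bc c u uᴴ) = ∑ x : Fin n × Fin n × Fin n, ‖bc c u uᴴ x.1 x.2.1 x.2.2‖ ^ 2 := by
  simp only [Fintype.sum_prod_type, nrm]

theorem p_BND : S_BND := by
  intro hU n c ε σ M hε hσ hM hlow hlog u d hmin
  obtain ⟨hu, hd0, hm⟩ := hmin
  have hsum : ∀ t : ℝ, ∑ i, (fun i => t * d i) i = 0 := by
    intro t
    simp only [← Finset.mul_sum, hd0, mul_zero]
  have hpos : ∀ t : ℝ, 0 < nrm (ud c u (fun i => t * d i)) := fun t =>
    lt_of_lt_of_le (mul_pos hε (Real.exp_pos _)) (hlow u _ hu (hsum t))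
  have hone : (fun i => (1 : ℝ) * d i) = d := by
    funext i
    exact one_mul _
  have key := BND_calc (fun x : Fin n × Fin n × Fin n => ‖bc c u uᴴ x.1 x.2.1 x.2.2‖ ^ 2)
    (fun x => 2 * (d x.1 + d x.2.1 - d x.2.2)) (fun x => by positivity)
    (σ / M * ∑ i, d i ^ 2)
    (fun t => by rw [← BND_nrm]; exact hpos t)
    (fun t => by
      rw [← BND_nrm, ← BND_nrm, hone]
      have h1 := hm u (fun i => t * d i) hu (hsum t)
      unfold Ph at h1
      have h2 : σ / M * ∑ i, (t * d i) ^ 2 = t ^ 2 * (σ / M * ∑ i, d i ^ 2) := by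
        simp only [mul_pow, ← Finset.mul_sum]
        ring
      rw [h2] at h1
      exact h1)
  rw [← BND_nrm, ← BND_nrm0, hone, ((hU n c).2.2 u hu).2.2.2] at key
  set S : ℝ := ∑ i, d i ^ 2 with hS
  have hS0 : 0 ≤ S := Finset.sum_nonneg fun i _ => sq_nonneg _
  have h3 : Real.log ε - σ * Real.sqrt S ≤ Real.log (nrm (ud c u d)) := by
    have h4 := Real.log_le_log (mul_pos hε (Real.exp_pos _)) (hlow u d hu hd0)
    rw [Real.log_mul hε.ne' (Real.exp_pos _).ne', Real.log_exp] at h4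
    linarith
  by_contra hcon
  push Not at hcon
  set r : ℝ := Real.sqrt S with hr
  have hrM : M < r := by
    rw [hr]
    exact Real.lt_sqrt_of_sq_lt hcon
  have hr2 : S = r ^ 2 := by rw [hr, Real.sq_sqrt hS0]
  have h5 : σ * r ≤ σ / M * S := by
    rw [hr2, div_mul_eq_mul_div, le_div_iff₀ hM]
    have h6 : M * r ≤ r ^ 2 := by nlinarith
    nlinarith
  have h7 : σ * M < σ * r := mul_lt_mul_of_pos_left hrM hσ
  linarith

end MP_b83a82_al.LP
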