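import Pool.Agent.Lib.MP_b83a82_al.LP.Stm1

set_option autoImplicit false

/-!
# LARGE PRIMES, piece DDC (helper68): the diagonal entries of `Q` at a minimum in `d`
-/

open Matrix

namespace MP_b83a82_al.LP

private lemma DDC_mA {n : ℕ} (c : SC n ℂ) (x : Fin n) :
    mA c x x = ((∑ i, ∑ l, ‖c i x l‖ ^ 2 : ℝ) : ℂ) := by
  simp only [mA, Matrix.sum_apply, Matrix.mul_apply, Matrix.conjTranspose_apply, adM,
    Matrix.of_apply]
  push_cast
  refine Finset.sum_congr rfl fun i _ => Finset.sum_congr rfl fun l _ => ?_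
  have h := Complex.conj_mul' (c i x l)
  exact h

private lemma DDC_mB {n : ℕ} (c : SC n ℂ) (x : Fin n) :
    mB c x x = ((∑ i, ∑ j, ‖c i j x‖ ^ 2 : ℝ) : ℂ) := by
  simp only [mB, Matrix.sum_apply, Matrix.mul_apply, Matrix.conjTranspose_apply, adM,
    Matrix.of_apply]
  push_cast
  refine Finset.sum_congr rfl fun i _ => Finset.sum_congr rfl fun j _ => ?_
  have h := Complex.mul_conj' (c i j x)
  exact h

private lemma DDC_nrm {n : ℕ} (c : SC n ℂ) (d δ : Fin n → ℝ) (t : ℝ) :
    nrm (sc c (fun i => d i + t * δ i)) =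
      ∑ i, ∑ j, ∑ l, ‖sc c d i j l‖ ^ 2 * Real.exp (t * (2 * (δ i + δ j - δ l))) := by
  simp only [nrm, sc]
  refine Finset.sum_congr rfl fun i _ => Finset.sum_congr rfl fun j _ =>
    Finset.sum_congr rfl fun l _ => ?_
  rw [norm_mul, norm_mul, Complex.norm_real, Complex.norm_real, Real.norm_eq_abs,
    Real.norm_eq_abs, Real.abs_exp, Real.abs_exp, mul_pow, mul_pow, ← Real.exp_nat_mul,
    ← Real.exp_nat_mul, mul_assoc, ← Real.exp_add]
  congr 2
  push_cast
  ring

private lemma DDC_sum {n : ℕ} (w : Fin n → Fin n → Fin n → ℝ) (δ : Fin n → ℝ)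
    (hw : ∀ i j l, w i j l = w j i l) :
    ∑ i, ∑ j, ∑ l, w i j l * (2 * (δ i + δ j - δ l)) =
      -2 * ∑ x, δ x * ((∑ i, ∑ j, w i j x) - 2 * ∑ i, ∑ l, w i x l) := by
  have h1 : ∑ i, ∑ j, ∑ l, w i j l * δ i = ∑ x, δ x * ∑ i, ∑ l, w i x l := by
    refine Finset.sum_congr rfl fun x _ => ?_
    rw [Finset.mul_sum]
    refine Finset.sum_congr rfl fun i _ => ?_
    rw [Finset.mul_sum]
    refine Finset.sum_congr rfl fun l _ => ?_
    rw [hw x i l]; ring
  have h2 : ∑ i, ∑ j, ∑ l, w i j l * δ j = ∑ x, δ x * ∑ i, ∑ l, w i x l := by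
    rw [Finset.sum_comm]
    refine Finset.sum_congr rfl fun x _ => ?_
    rw [Finset.mul_sum]
    refine Finset.sum_congr rfl fun i _ => ?_
    rw [Finset.mul_sum]
    refine Finset.sum_congr rfl fun l _ => ?_
    ring
  have h3 : ∑ i, ∑ j, ∑ l, w i j l * δ l = ∑ x, δ x * ∑ i, ∑ j, w i j x := by
    have : ∀ i, ∑ j, ∑ l, w i j l * δ l = ∑ l, ∑ j, w i j l * δ l := fun i =>
      Finset.sum_comm
    rw [Finset.sum_congr rfl fun i _ => this i, Finset.sum_comm]
    refine Finset.sum_congr rfl fun x _ => ?_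
    rw [Finset.mul_sum]
    refine Finset.sum_congr rfl fun i _ => ?_
    rw [Finset.mul_sum]
    refine Finset.sum_congr rfl fun l _ => ?_
    ring
  have h4 : ∑ i, ∑ j, ∑ l, w i j l * (2 * (δ i + δ j - δ l)) =
      2 * (∑ i, ∑ j, ∑ l, w i j l * δ i) + 2 * (∑ i, ∑ j, ∑ l, w i j l * δ j) -
        2 * (∑ i, ∑ j, ∑ l, w i j l * δ l) := by
    simp only [Finset.mul_sum, ← Finset.sum_add_distrib, ← Finset.sum_sub_distrib]
    refine Finset.sum_congr rfl fun i _ => Finset.sum_congr rfl fun j _ =>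
      Finset.sum_congr rfl fun l _ => ?_
    ring
  rw [h4, h1, h2, h3]
  rw [Finset.mul_sum, Finset.mul_sum, Finset.mul_sum, ← Finset.sum_add_distrib,
    ← Finset.sum_sub_distrib]
  refine Finset.sum_congr rfl fun x _ => ?_
  ring

theorem p_DDC : S_DDC := by
  intro n c κ d hn halt hN hd hmin
  set c' : SC n ℂ := sc c d with hc'
  set N : ℝ := nrm c' with hNdef
  set w : Fin n → Fin n → Fin n → ℝ := fun i j l => ‖c' i j l‖ ^ 2 with hw
  have hwsym : ∀ i j l, w i j l = w j i l := by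
    intro i j l
    have : c' i j l = - c' j i l := by
      simp only [hc', sc]
      rw [halt i j l, add_comm (d i) (d j)]
      ring
    simp only [hw]
    rw [this, norm_neg]
  set q : Fin n → ℝ := fun x => (∑ i, ∑ j, w i j x) - 2 * ∑ i, ∑ l, w i x l with hq
  have hQ : ∀ x, mQ c' x x = ((q x : ℝ) : ℂ) := by
    intro x
    simp only [mQ, Matrix.sub_apply, Matrix.smul_apply, smul_eq_mul, DDC_mA, DDC_mB, hq, hw]
    push_cast
    ring
  -- the derivative
  have hder : ∀ δ : Fin n → ℝ, ∑ i, δ i = 0 →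
      ∑ x, δ x * (-2 * q x / N + 2 * κ * d x) = 0 := by
    intro δ hδ
    set f : ℝ → ℝ := fun t => ∑ i, ∑ j, ∑ l, w i j l * Real.exp (t * (2 * (δ i + δ j - δ l)))
      with hf
    have hfN : f 0 = N := by
      simp only [hf, zero_mul, Real.exp_zero, mul_one]
      rfl
    have hf' : HasDerivAt f (-2 * ∑ x, δ x * q x) 0 := by
      have h0 : HasDerivAt f (∑ i, ∑ j, ∑ l, w i j l * (2 * (δ i + δ j - δ l))) 0 := by
        simp only [hf]
        refine HasDerivAt.fun_sum fun i _ => HasDerivAt.fun_sum fun j _ =>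
          HasDerivAt.fun_sum fun l _ => ?_
        have h1 : HasDerivAt (fun t : ℝ => t * (2 * (δ i + δ j - δ l)))
            (1 * (2 * (δ i + δ j - δ l))) 0 := (hasDerivAt_id (0 : ℝ)).mul_const _
        have h2 := (h1.exp).const_mul (w i j l)
        simpa using h2
      rw [DDC_sum w δ hwsym] at h0
      exact h0
    have hlog : HasDerivAt (fun t => Real.log (f t)) ((-2 * ∑ x, δ x * q x) / N) 0 := by
      have := hf'.log (by rw [hfN]; exact hN.ne')
      rwa [hfN] at this
    have hsq : HasDerivAt (fun t : ℝ => κ * ∑ i, (d i + t * δ i) ^ 2)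
        (κ * ∑ i, 2 * d i * δ i) 0 := by
      refine HasDerivAt.const_mul _ (HasDerivAt.fun_sum fun i _ => ?_)
      have h1 : HasDerivAt (fun t : ℝ => d i + t * δ i) (1 * δ i) 0 :=
        ((hasDerivAt_id (0 : ℝ)).mul_const _).const_add _
      have h2 := h1.fun_pow 2
      simpa using h2
    have htot := hlog.add hsq
    have hloc : IsLocalMin ((fun t => Real.log (f t)) +
        fun t : ℝ => κ * ∑ i, (d i + t * δ i) ^ 2) 0 := by
      refine Filter.Eventually.of_forall fun t => ?_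
      have h1 := hmin (fun i => d i + t * δ i) (by
        rw [Finset.sum_add_distrib, ← Finset.mul_sum, hδ, hd]; simp)
      rw [DDC_nrm c d δ t] at h1
      simp only [Pi.add_apply, hfN, zero_mul, add_zero]
      exact h1
    have h0 := hloc.hasDerivAt_eq_zero htot
    rw [← h0]
    simp only [Finset.mul_sum, Finset.sum_div, ← Finset.sum_add_distrib]
    refine Finset.sum_congr rfl fun x _ => ?_
    ring
  -- the sum of the `q x`
  have hqs : ∑ x, q x = -N := by
    simp only [hq, Finset.sum_sub_distrib, ← Finset.mul_sum]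
    have e1 : ∑ x, ∑ i, ∑ j, w i j x = N := by
      have : N = ∑ i, ∑ j, ∑ l, w i j l := rfl
      rw [this, Finset.sum_comm]
      refine Finset.sum_congr rfl fun i _ => ?_
      rw [Finset.sum_comm]
    have e2 : ∑ x, ∑ i, ∑ l, w i x l = N := by
      have : N = ∑ i, ∑ j, ∑ l, w i j l := rfl
      rw [this, Finset.sum_comm]
    rw [e1, e2]; ring
  have hn' : (n : ℝ) ≠ 0 := Nat.cast_ne_zero.mpr hn.ne'
  set s : Fin n → ℝ := fun x => -2 * q x / N + 2 * κ * d x with hs
  have hss : ∑ x, s x = 2 := by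
    simp only [hs, Finset.sum_add_distrib, ← Finset.mul_sum, ← Finset.sum_div, hqs, hd]
    field_simp
    ring
  have hδ0 : ∑ x, (s x - 2 / n) = 0 := by
    rw [Finset.sum_sub_distrib, hss]
    simp only [Finset.sum_const, Finset.card_univ, Fintype.card_fin, nsmul_eq_mul]
    field_simp
    ring
  have hδ := hder (fun x => s x - 2 / n) hδ0
  have hsq0 : ∑ x, (s x - 2 / n) ^ 2 = 0 := by
    have : ∑ x, (s x - 2 / n) ^ 2 = ∑ x, (s x - 2 / n) * s x - 2 / n * ∑ x, (s x - 2 / n) := by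
      rw [Finset.mul_sum, ← Finset.sum_sub_distrib]
      refine Finset.sum_congr rfl fun x _ => ?_
      ring
    rw [this, hδ0, hδ]; ring
  have hzero : ∀ x, s x - 2 / n = 0 := by
    intro x
    have h1 := (Finset.sum_eq_zero_iff_of_nonneg (fun i _ => sq_nonneg (s i - 2 / n))).mp hsq0 x
      (Finset.mem_univ x)
    exact pow_eq_zero_iff (two_ne_zero) |>.mp h1
  intro x
  rw [hQ x]
  congr 1
  have h1 := hzero x
  simp only [hs] at h1
  have hN' : N ≠ 0 := hN.ne'
  field_simp at h1 ⊢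
  linarith

end MP_b83a82_al.LP
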