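import Pool.Agent.Lib.MP_b83a82_al.LP.Stm1

set_option autoImplicit false

/-!
# LARGE PRIMES, piece DER: the derivative of the norm under a change of basis
-/

open Matrix

namespace MP_b83a82_al.LP

variable {n : ℕ}

/-- the derivative of the structure constants -/
private def DERd (c : SC n ℂ) (X : Matrix (Fin n) (Fin n) ℂ) (i j l : Fin n) : ℂ :=
  (∑ a, X a i * c a j l) + (∑ b, X b j * c i b l) - ∑ s, c i j s * X l s

private theorem DER_entry (c : SC n ℂ) (g h : ℝ → Matrix (Fin n) (Fin n) ℂ)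
    (X : Matrix (Fin n) (Fin n) ℂ) (hg0 : g 0 = 1) (hh0 : h 0 = 1)
    (hg : ∀ i j, HasDerivAt (fun t => g t i j) (X i j) 0)
    (hh : ∀ i j, HasDerivAt (fun t => h t i j) (-X i j) 0) (i j l : Fin n) :
    HasDerivAt (fun t => bc c (g t) (h t) i j l) (DERd c X i j l) 0 := by
  have h1 : HasDerivAt (fun t => bc c (g t) (h t) i j l)
      (∑ a, ∑ b, ∑ s, ((X a i * g 0 b j + g 0 a i * X b j) * c a b s * h 0 l s +
        g 0 a i * g 0 b j * c a b s * (-X l s))) 0 := by
    unfold bc
    refine HasDerivAt.fun_sum fun a _ => HasDerivAt.fun_sum fun b _ =>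
      HasDerivAt.fun_sum fun s _ => ?_
    exact (((hg a i).mul (hg b j)).mul_const (c a b s)).mul (hh l s)
  convert h1 using 1
  rw [hg0, hh0]
  unfold DERd
  have e1 : ∀ a b s, ((X a i * (1 : Matrix (Fin n) (Fin n) ℂ) b j +
      (1 : Matrix (Fin n) (Fin n) ℂ) a i * X b j) * c a b s *
        (1 : Matrix (Fin n) (Fin n) ℂ) l s +
      (1 : Matrix (Fin n) (Fin n) ℂ) a i * (1 : Matrix (Fin n) (Fin n) ℂ) b j * c a b s *
        (-X l s)) =
      (if l = s then (if b = j then X a i * c a b s else 0) else 0) +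
      (if l = s then (if a = i then X b j * c a b s else 0) else 0) -
      (if b = j then (if a = i then c a b s * X l s else 0) else 0) := by
    intro a b s
    rw [Matrix.one_apply, Matrix.one_apply, Matrix.one_apply]
    split_ifs <;> ring
  simp only [e1, Finset.sum_add_distrib, Finset.sum_sub_distrib, Finset.sum_ite_eq,
    Finset.sum_ite_eq', Finset.mem_univ, if_true]
  congr 1
  · congr 1
    rw [Finset.sum_comm]
    simp only [Finset.sum_ite_eq', Finset.mem_univ, if_true]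
  · rw [Finset.sum_comm]
    simp only [Finset.sum_ite_irrel, Finset.sum_const_zero, Finset.sum_ite_eq', Finset.mem_univ,
      if_true]

private theorem DER_A (c : SC n ℂ) (i a : Fin n) :
    mA c i a = ∑ x, ∑ l, star (c x i l) * c x a l := by
  unfold mA
  rw [Matrix.sum_apply]
  refine Finset.sum_congr rfl fun x _ => ?_
  rw [Matrix.mul_apply]
  refine Finset.sum_congr rfl fun l _ => ?_
  rw [Matrix.conjTranspose_apply]
  rfl

private theorem DER_B (c : SC n ℂ) (s l : Fin n) :
    mB c s l = ∑ i, ∑ j, c i j s * star (c i j l) := by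
  unfold mB
  rw [Matrix.sum_apply]
  refine Finset.sum_congr rfl fun x _ => ?_
  rw [Matrix.mul_apply]
  refine Finset.sum_congr rfl fun j _ => ?_
  rw [Matrix.conjTranspose_apply]
  rfl

private theorem DER_T1 (c : SC n ℂ) (X : Matrix (Fin n) (Fin n) ℂ)
    (alt : ∀ i j l, c i j l = -c j i l) :
    ∑ i, ∑ j, ∑ l, star (c i j l) * ∑ a, X a i * c a j l = trace (X * mA c) := by
  have e1 : trace (X * mA c) = ∑ a, ∑ i, ∑ j, ∑ l, star (c i j l) * (X a i * c a j l) := by
    rw [Matrix.trace]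
    refine Finset.sum_congr rfl fun a _ => ?_
    rw [Matrix.diag_apply, Matrix.mul_apply]
    refine Finset.sum_congr rfl fun i _ => ?_
    rw [DER_A, Finset.mul_sum]
    refine Finset.sum_congr rfl fun j _ => ?_
    rw [Finset.mul_sum]
    refine Finset.sum_congr rfl fun l _ => ?_
    rw [alt j i l, alt j a l, star_neg]
    ring
  rw [e1]
  simp only [Finset.mul_sum]
  calc ∑ i, ∑ j, ∑ l, ∑ a, star (c i j l) * (X a i * c a j l)
      = ∑ i, ∑ j, ∑ a, ∑ l, star (c i j l) * (X a i * c a j l) :=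
        Finset.sum_congr rfl fun i _ => Finset.sum_congr rfl fun j _ => Finset.sum_comm
    _ = ∑ i, ∑ a, ∑ j, ∑ l, star (c i j l) * (X a i * c a j l) :=
        Finset.sum_congr rfl fun i _ => Finset.sum_comm
    _ = ∑ a, ∑ i, ∑ j, ∑ l, star (c i j l) * (X a i * c a j l) := Finset.sum_comm

private theorem DER_T2 (c : SC n ℂ) (X : Matrix (Fin n) (Fin n) ℂ) :
    ∑ i, ∑ j, ∑ l, star (c i j l) * ∑ b, X b j * c i b l = trace (X * mA c) := by
  have e1 : trace (X * mA c) = ∑ b, ∑ j, ∑ i, ∑ l, star (c i j l) * (X b j * c i b l) := by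
    rw [Matrix.trace]
    refine Finset.sum_congr rfl fun b _ => ?_
    rw [Matrix.diag_apply, Matrix.mul_apply]
    refine Finset.sum_congr rfl fun j _ => ?_
    rw [DER_A, Finset.mul_sum]
    refine Finset.sum_congr rfl fun i _ => ?_
    rw [Finset.mul_sum]
    refine Finset.sum_congr rfl fun l _ => ?_
    ring
  rw [e1]
  simp only [Finset.mul_sum]
  calc ∑ i, ∑ j, ∑ l, ∑ b, star (c i j l) * (X b j * c i b l)
      = ∑ i, ∑ j, ∑ b, ∑ l, star (c i j l) * (X b j * c i b l) :=
        Finset.sum_congr rfl fun i _ => Finset.sum_congr rfl fun j _ => Finset.sum_comm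
    _ = ∑ i, ∑ b, ∑ j, ∑ l, star (c i j l) * (X b j * c i b l) :=
        Finset.sum_congr rfl fun i _ => Finset.sum_comm
    _ = ∑ b, ∑ i, ∑ j, ∑ l, star (c i j l) * (X b j * c i b l) := Finset.sum_comm
    _ = ∑ b, ∑ j, ∑ i, ∑ l, star (c i j l) * (X b j * c i b l) :=
        Finset.sum_congr rfl fun b _ => Finset.sum_comm

private theorem DER_T3 (c : SC n ℂ) (X : Matrix (Fin n) (Fin n) ℂ) :
    ∑ i, ∑ j, ∑ l, star (c i j l) * ∑ s, c i j s * X l s = trace (X * mB c) := by
  have e1 : trace (X * mB c) = ∑ l, ∑ s, ∑ i, ∑ j, star (c i j l) * (c i j s * X l s) := by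
    rw [Matrix.trace]
    refine Finset.sum_congr rfl fun l _ => ?_
    rw [Matrix.diag_apply, Matrix.mul_apply]
    refine Finset.sum_congr rfl fun s _ => ?_
    rw [DER_B, Finset.mul_sum]
    refine Finset.sum_congr rfl fun i _ => ?_
    rw [Finset.mul_sum]
    refine Finset.sum_congr rfl fun j _ => ?_
    ring
  rw [e1]
  simp only [Finset.mul_sum]
  calc ∑ i, ∑ j, ∑ l, ∑ s, star (c i j l) * (c i j s * X l s)
      = ∑ i, ∑ l, ∑ j, ∑ s, star (c i j l) * (c i j s * X l s) :=
        Finset.sum_congr rfl fun i _ => Finset.sum_comm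
    _ = ∑ l, ∑ i, ∑ j, ∑ s, star (c i j l) * (c i j s * X l s) := Finset.sum_comm
    _ = ∑ l, ∑ i, ∑ s, ∑ j, star (c i j l) * (c i j s * X l s) :=
        Finset.sum_congr rfl fun l _ => Finset.sum_congr rfl fun i _ => Finset.sum_comm
    _ = ∑ l, ∑ s, ∑ i, ∑ j, star (c i j l) * (c i j s * X l s) :=
        Finset.sum_congr rfl fun l _ => Finset.sum_comm

private theorem DER_total (c : SC n ℂ) (X : Matrix (Fin n) (Fin n) ℂ)
    (alt : ∀ i j l, c i j l = -c j i l) :
    ∑ i, ∑ j, ∑ l, star (c i j l) * DERd c X i j l = -trace (X * mQ c) := by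
  have h1 : ∑ i, ∑ j, ∑ l, star (c i j l) * DERd c X i j l =
      (∑ i, ∑ j, ∑ l, star (c i j l) * ∑ a, X a i * c a j l) +
      (∑ i, ∑ j, ∑ l, star (c i j l) * ∑ b, X b j * c i b l) -
      ∑ i, ∑ j, ∑ l, star (c i j l) * ∑ s, c i j s * X l s := by
    simp only [← Finset.sum_add_distrib, ← Finset.sum_sub_distrib]
    refine Finset.sum_congr rfl fun i _ => Finset.sum_congr rfl fun j _ =>
      Finset.sum_congr rfl fun l _ => ?_
    unfold DERd
    rw [mul_sub, mul_add]
  rw [h1, DER_T1 c X alt, DER_T2, DER_T3]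
  unfold mQ
  rw [Matrix.mul_sub, Matrix.trace_sub, Matrix.mul_smul, Matrix.trace_smul, smul_eq_mul]
  ring

/-- **DER.** -/
theorem p_DER : S_DER := by
  intro hBCL n c g h X alt hg0 hh0 hg hh
  have hc : bc c (g 0) (h 0) = c := by
    rw [hg0, hh0]
    exact (hBCL ℂ n c 1 1).2.2.2.1
  have h1 : HasDerivAt (fun t => nrm (bc c (g t) (h t)))
      (∑ i, ∑ j, ∑ l, 2 * inner ℝ (bc c (g 0) (h 0) i j l) (DERd c X i j l)) 0 := by
    unfold nrm
    refine HasDerivAt.fun_sum fun i _ => HasDerivAt.fun_sum fun j _ =>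
      HasDerivAt.fun_sum fun l _ => ?_
    exact (DER_entry c g h X hg0 hh0 hg hh i j l).norm_sq
  convert h1 using 1
  rw [hc]
  have h2 : ∑ i, ∑ j, ∑ l, 2 * inner ℝ (c i j l) (DERd c X i j l) =
      2 * (∑ i, ∑ j, ∑ l, star (c i j l) * DERd c X i j l).re := by
    rw [Complex.re_sum, Finset.mul_sum]
    refine Finset.sum_congr rfl fun i _ => ?_
    rw [Complex.re_sum, Finset.mul_sum]
    refine Finset.sum_congr rfl fun j _ => ?_
    rw [Complex.re_sum, Finset.mul_sum]
    refine Finset.sum_congr rfl fun l _ => ?_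
    rw [Complex.inner, mul_comm (DERd c X i j l)]
    rfl
  rw [h2, DER_total c X alt, Complex.neg_re]
  ring

end MP_b83a82_al.LP
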