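import Pool.Agent.Lib.MP_b83a82_al.LP.Stm2

set_option autoImplicit false

/-!
# Piece DES: subspaces stable under the Frobenius are defined over `ZMod p`
-/

open Matrix Module

namespace MP_b83a82_al.LP

section des

variable (p : ℕ) [Fact p.Prime] (n : ℕ)

/-- vectors over the prime field as vectors over the algebraic closure -/
private noncomputable def DES_E :
    (Fin n → ZMod p) →ₗ[ZMod p] (Fin n → AlgebraicClosure (ZMod p)) :=
  (Algebra.linearMap (ZMod p) (AlgebraicClosure (ZMod p))).compLeft (Fin n)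

private theorem DES_E_apply (x : Fin n → ZMod p) (r : Fin n) :
    DES_E p n x r = algebraMap (ZMod p) (AlgebraicClosure (ZMod p)) (x r) := rfl

private theorem DES_E_pow (x : Fin n → ZMod p) (r : Fin n) :
    DES_E p n x r ^ p = DES_E p n x r := by
  rw [DES_E_apply, ← map_pow, ZMod.pow_card]

/-- roots of `X - X ^ p = c` -/
private theorem DES_root (c : AlgebraicClosure (ZMod p)) :
    ∃ d : AlgebraicClosure (ZMod p), d - d ^ p = c := by
  have hp : 1 < p := (Fact.out : p.Prime).one_lt
  obtain ⟨d, hd⟩ := IsAlgClosed.exists_root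
    (Polynomial.X ^ p - Polynomial.X + Polynomial.C c : Polynomial (AlgebraicClosure (ZMod p))) (by
      have h1 : (Polynomial.X ^ p - Polynomial.X + Polynomial.C c :
          Polynomial (AlgebraicClosure (ZMod p))).natDegree = p := by
        rw [Polynomial.natDegree_add_C, FiniteField.X_pow_card_sub_X_natDegree_eq _ hp]
      intro h2
      have h3 := Polynomial.natDegree_eq_of_degree_eq_some (n := 0) h2
      omega)
  refine ⟨d, ?_⟩
  rw [Polynomial.IsRoot.def, Polynomial.eval_add, Polynomial.eval_sub, Polynomial.eval_pow,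
    Polynomial.eval_X, Polynomial.eval_C] at hd
  linear_combination -hd

/-- the fixed points of the Frobenius -/
private theorem DES_fix (a : AlgebraicClosure (ZMod p)) (ha : a ^ p = a) :
    ∃ b : ZMod p, algebraMap (ZMod p) (AlgebraicClosure (ZMod p)) b = a := by
  have h1 := (Subfield.mem_bot_iff_pow_eq_self (F := AlgebraicClosure (ZMod p)) (p := p)).2 ha
  obtain ⟨b, hb⟩ := (mem_bot_iff_intCast p (AlgebraicClosure (ZMod p))).1 h1
  exact ⟨(b : ZMod p), by rw [map_intCast, hb]⟩

/-- solving `y - y ^ p = c • w` in the span -/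
private theorem DES_solve (S : Set (Fin n → AlgebraicClosure (ZMod p)))
    (hS : ∀ s ∈ S, ∀ r, s r ^ p = s r) (w : Fin n → AlgebraicClosure (ZMod p))
    (hw : w ∈ Submodule.span (AlgebraicClosure (ZMod p)) S) :
    ∀ c : AlgebraicClosure (ZMod p), ∃ y ∈ Submodule.span (AlgebraicClosure (ZMod p)) S,
      ∀ r, y r - y r ^ p = c * w r := by
  induction hw using Submodule.span_induction with
  | mem s hs =>
    intro c
    obtain ⟨d, hd⟩ := DES_root p c
    refine ⟨d • s, Submodule.smul_mem _ _ (Submodule.subset_span hs), fun r => ?_⟩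
    rw [Pi.smul_apply, smul_eq_mul, mul_pow, hS s hs r, ← hd]
    ring
  | zero =>
    intro c
    refine ⟨0, Submodule.zero_mem _, fun r => ?_⟩
    rw [Pi.zero_apply, zero_pow (Fact.out : p.Prime).ne_zero, mul_zero, sub_zero]
  | add x y _ _ hx hy =>
    intro c
    obtain ⟨u, hu, hu'⟩ := hx c
    obtain ⟨v, hv, hv'⟩ := hy c
    refine ⟨u + v, Submodule.add_mem _ hu hv, fun r => ?_⟩
    rw [Pi.add_apply, Pi.add_apply, add_pow_char, mul_add, ← hu', ← hv']
    ring
  | smul a x _ hx =>
    intro c
    obtain ⟨u, hu, hu'⟩ := hx (c * a)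
    refine ⟨u, hu, fun r => ?_⟩
    rw [hu', Pi.smul_apply, smul_eq_mul]
    ring

/-- the vectors of a stable subspace are in the span of the rational ones -/
private theorem DES_span
    (W : Submodule (AlgebraicClosure (ZMod p)) (Fin n → AlgebraicClosure (ZMod p)))
    (hW : ∀ x ∈ W, (fun r => x r ^ p) ∈ W) :
    ∀ (N : ℕ) (v : Fin n → AlgebraicClosure (ZMod p)), v ∈ W →
      {r | v r ≠ 0}.ncard ≤ N → v ∈ Submodule.span (AlgebraicClosure (ZMod p))
        (DES_E p n '' {x | DES_E p n x ∈ W}) := by
  have hp := (Fact.out : p.Prime).ne_zero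
  obtain ⟨S, hS⟩ : ∃ S, S = DES_E p n '' {x | DES_E p n x ∈ W} := ⟨_, rfl⟩
  have hSW : Submodule.span (AlgebraicClosure (ZMod p)) S ≤ W := by
    rw [Submodule.span_le, hS]
    rintro _ ⟨x, hx, rfl⟩
    exact hx
  have hSp : ∀ s ∈ S, ∀ r, s r ^ p = s r := by
    rw [hS]
    rintro _ ⟨x, _, rfl⟩ r
    exact DES_E_pow p n x r
  rw [← hS]
  intro N
  induction N with
  | zero =>
    intro v _ h0
    have h1 : {r | v r ≠ 0} = ∅ := by
      rw [← Set.ncard_eq_zero (Set.toFinite _)]
      omega
    have h2 : v = 0 := by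
      funext r
      by_contra hr
      have h3 : r ∈ {r | v r ≠ 0} := hr
      rw [h1] at h3
      exact h3
    rw [h2]
    exact Submodule.zero_mem _
  | succ N ih =>
    intro v hv hN
    by_cases hv0 : ∃ j, v j ≠ 0
    · obtain ⟨j, hj⟩ := hv0
      obtain ⟨u, hu⟩ : ∃ u, u = (v j)⁻¹ • v := ⟨_, rfl⟩
      have huW : u ∈ W := by rw [hu]; exact Submodule.smul_mem _ _ hv
      have huj : u j = 1 := by
        rw [hu, Pi.smul_apply, smul_eq_mul, inv_mul_cancel₀ hj]
      have hwW : u - (fun r => u r ^ p) ∈ W := Submodule.sub_mem _ huW (hW u huW)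
      have hsub : {r | (u - (fun r => u r ^ p)) r ≠ 0} ⊆ {r | v r ≠ 0} \ {j} := by
        intro r hr
        have hr' : u r - u r ^ p ≠ 0 := hr
        refine ⟨fun h0 => hr' ?_, fun h0 => hr' ?_⟩
        · rw [hu, Pi.smul_apply, h0, smul_zero, zero_pow hp, sub_zero]
        · have h1 : r = j := h0
          rw [h1, huj, one_pow, sub_self]
      have hlt : {r | (u - (fun r => u r ^ p)) r ≠ 0}.ncard ≤ N := by
        have h1 := Set.ncard_le_ncard hsub (Set.toFinite _)
        have h2 := Set.ncard_sdiff_singleton_add_one (show j ∈ {r | v r ≠ 0} from hj)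
          (Set.toFinite _)
        omega
      have hspan := ih _ hwW hlt
      obtain ⟨y, hy, hy'⟩ := DES_solve p n S hSp _ hspan 1
      have h5 : ∀ r, (u - y) r ^ p = (u - y) r := by
        intro r
        have h6 : y r - y r ^ p = u r - u r ^ p := by
          rw [hy' r, one_mul]
          rfl
        rw [Pi.sub_apply, sub_pow_char]
        linear_combination h6
      choose b hb using fun r => DES_fix p _ (h5 r)
      have h7 : DES_E p n b = u - y := by
        funext r
        rw [DES_E_apply, hb]
      have h8 : u - y ∈ S := by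
        rw [hS]
        refine ⟨b, ?_, h7⟩
        change DES_E p n b ∈ W
        rw [h7]
        exact Submodule.sub_mem _ huW (hSW hy)
      have h9 : u ∈ Submodule.span (AlgebraicClosure (ZMod p)) S := by
        have h10 : u = (u - y) + y := by rw [sub_add_cancel]
        rw [h10]
        exact Submodule.add_mem _ (Submodule.subset_span h8) hy
      have h11 : v = (v j) • u := by
        rw [hu, smul_smul, mul_inv_cancel₀ hj, one_smul]
      rw [h11]
      exact Submodule.smul_mem _ _ h9
    · push Not at hv0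
      have h2 : v = 0 := funext hv0
      rw [h2]
      exact Submodule.zero_mem _

/-- rational vectors stay linearly independent -/
private theorem DES_indep {ι : Type*} [Fintype ι] (b : ι → (Fin n → ZMod p))
    (hb : LinearIndependent (ZMod p) b) :
    LinearIndependent (AlgebraicClosure (ZMod p)) (fun i => DES_E p n (b i)) := by
  rw [Fintype.linearIndependent_iff] at hb ⊢
  intro g hg i
  rw [← Module.forall_dual_apply_eq_zero_iff (ZMod p)]
  intro φ
  refine hb (fun i => φ (g i)) ?_ i
  funext r
  have h1 := congrArg φ (congrFun hg r)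
  rw [Finset.sum_apply, map_sum] at h1
  rw [Finset.sum_apply]
  refine Eq.trans ?_ (h1.trans (by rw [Pi.zero_apply, map_zero, Pi.zero_apply]))
  refine Finset.sum_congr rfl fun i _ => ?_
  rw [Pi.smul_apply, Pi.smul_apply, DES_E_apply, smul_eq_mul, smul_eq_mul, mul_comm (g i),
    ← Algebra.smul_def, map_smul, smul_eq_mul, mul_comm]

end des

theorem p_DES : S_DES := by
  intro p _ n W hW
  obtain ⟨W₀, hW₀⟩ : ∃ W₀ : Submodule (ZMod p) (Fin n → ZMod p),
      W₀ = (W.restrictScalars (ZMod p)).comap (DES_E p n) := ⟨_, rfl⟩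
  have hmem : ∀ x, x ∈ W₀ ↔ DES_E p n x ∈ W := by
    intro x
    rw [hW₀]
    rfl
  refine ⟨W₀, fun x => (hmem x).trans Iff.rfl, ?_⟩
  obtain ⟨b⟩ : Nonempty (Basis (Fin (finrank (ZMod p) W₀)) (ZMod p) W₀) :=
    ⟨finBasis (ZMod p) W₀⟩
  have hb : LinearIndependent (ZMod p) (fun i => (b i : Fin n → ZMod p)) :=
    b.linearIndependent.map' W₀.subtype (Submodule.ker_subtype W₀)
  have hli := DES_indep p n _ hb
  have hspan : Submodule.span (AlgebraicClosure (ZMod p))
      (Set.range fun i => DES_E p n (b i : Fin n → ZMod p)) = W := by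
    apply le_antisymm
    · rw [Submodule.span_le]
      rintro _ ⟨i, rfl⟩
      exact (hmem _).1 (b i).2
    · intro v hv
      have h1 := DES_span p n W hW _ v hv le_rfl
      refine (Submodule.span_le.2 ?_) h1
      rintro _ ⟨x, hx, rfl⟩
      have hx' : x ∈ W₀ := (hmem x).2 hx
      have h2 : x = ∑ i, b.repr ⟨x, hx'⟩ i • (b i : Fin n → ZMod p) := by
        have h3 := congrArg Subtype.val (b.sum_repr ⟨x, hx'⟩)
        rw [Submodule.coe_sum] at h3
        exact h3.symm
      rw [h2, map_sum]
      refine Submodule.sum_mem _ fun i _ => ?_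
      rw [map_smul, ← algebraMap_smul (AlgebraicClosure (ZMod p))]
      exact Submodule.smul_mem _ _ (Submodule.subset_span ⟨i, rfl⟩)
  rw [← hspan, finrank_span_eq_card hli, Fintype.card_fin]

end MP_b83a82_al.LP
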