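import Pool.Agent.Lib.MP_b83a82_al.LP.Stm2

set_option autoImplicit false

/-!
# Piece ENC: `LieC` and `HasGood` as polynomial conditions
-/

open Matrix

namespace MP_b83a82_al.LP

section maps

variable {n : ℕ} {k S : Type*} [CommRing k] [CommRing S]

/-- the index type of the equations of `LieC` -/
abbrev ENC_I (n K : ℕ) : Type :=
  (Fin n × Fin n × Fin n) ⊕ ((Fin n × Fin n) × (Fin n × Fin n)) ⊕
    ((Fin K → Fin n) × (Fin n × Fin n))

/-- the equations of `LieC` -/
def ENC_P (K : ℕ) (c : SC n k) : ENC_I n K → k :=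
  Sum.elim (fun t => c t.1 t.2.1 t.2.2 + c t.2.1 t.1 t.2.2)
    (Sum.elim (fun t => (adM c t.1.1 * adM c t.1.2 - adM c t.1.2 * adM c t.1.1 -
        ∑ s, c t.1.1 t.1.2 s • adM c s) t.2.1 t.2.2)
      (fun t => (List.ofFn fun s => adM c (t.1 s)).prod t.2.1 t.2.2))

/-- the index type of the equations of `HasGood` -/
abbrev ENC_J (n : ℕ) : Type := (Fin n × Fin n) ⊕ (Fin n × Fin n × Fin n)

/-- the equations of `HasGood` -/
def ENC_Q (c : SC n k) (g h : Matrix (Fin n) (Fin n) k) : ENC_J n → k :=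
  Sum.elim (fun t => (g * h - 1) t.1 t.2) (fun t => bc c g h t.1 t.2.1 t.2.2)

/-- the sets of triples outside of which some good weights are superadditive -/
def ENC_K (n : ℕ) : Type :=
  {Z : Set (Fin n × Fin n × Fin n) // ∃ w : Fin n → ℝ, Good w ∧
    ∀ i j l, (i, j, l) ∉ Z → w i + w j ≤ w l}

instance ENC_fin (n : ℕ) : Finite (ENC_K n) := by
  unfold ENC_K
  infer_instance

/-- the equations attached to a set of triples -/
def ENC_T {n : ℕ} (Z : ENC_K n) : Set (ENC_J n) := {j | ∀ t, j = Sum.inr t → t ∈ Z.1}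

private lemma ENC_adM (f : k →+* S) (c : SC n k) (i : Fin n) :
    adM (fun i j l => f (c i j l)) i = f.mapMatrix (adM c i) := by
  ext a b
  rfl

private lemma ENC_smul (f : k →+* S) (r : k) (M : Matrix (Fin n) (Fin n) k) :
    f.mapMatrix (r • M) = f r • f.mapMatrix M := by
  ext a b
  simp [Matrix.smul_apply]

private lemma ENC_P_map (f : k →+* S) (K : ℕ) (c : SC n k) (x : ENC_I n K) :
    ENC_P K (fun i j l => f (c i j l)) x = f (ENC_P K c x) := by
  rcases x with t | t | t
  · simp [ENC_P]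
  · have e : f.mapMatrix (adM c t.1.1 * adM c t.1.2 - adM c t.1.2 * adM c t.1.1 -
        ∑ s, c t.1.1 t.1.2 s • adM c s) =
        adM (fun i j l => f (c i j l)) t.1.1 * adM (fun i j l => f (c i j l)) t.1.2 -
        adM (fun i j l => f (c i j l)) t.1.2 * adM (fun i j l => f (c i j l)) t.1.1 -
        ∑ s, f (c t.1.1 t.1.2 s) • adM (fun i j l => f (c i j l)) s := by
      simp only [map_sub, map_mul, map_sum, ENC_smul, ENC_adM]
    have e2 := congrFun (congrFun e t.2.1) t.2.2
    exact e2.symm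
  · have e : f.mapMatrix (List.ofFn fun s => adM c (t.1 s)).prod =
        (List.ofFn fun s => adM (fun i j l => f (c i j l)) (t.1 s)).prod := by
      rw [map_list_prod, List.map_ofFn]
      congr 1
    have e2 := congrFun (congrFun e t.2.1) t.2.2
    exact e2.symm

private lemma ENC_Q_map (f : k →+* S) (c : SC n k) (g h : Matrix (Fin n) (Fin n) k)
    (x : ENC_J n) :
    ENC_Q (fun i j l => f (c i j l)) (f.mapMatrix g) (f.mapMatrix h) x = f (ENC_Q c g h x) := by
  rcases x with t | t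
  · have e : f.mapMatrix (g * h - 1) = f.mapMatrix g * f.mapMatrix h - 1 := by
      rw [map_sub, map_mul, map_one]
    exact (congrFun (congrFun e t.1) t.2).symm
  · simp [ENC_Q, bc, map_sum, map_mul]

private lemma ENC_lie (K : ℕ) (c : SC n k) : (∀ x, ENC_P K c x = 0) ↔ LieC K c := by
  constructor
  · intro h
    refine ⟨fun i j l => ?_, fun i j => ?_, fun f => ?_⟩
    · exact eq_neg_of_add_eq_zero_left (h (Sum.inl (i, j, l)))
    · rw [← sub_eq_zero]
      ext a b
      exact h (Sum.inr (Sum.inl ((i, j), (a, b))))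
    · ext a b
      exact h (Sum.inr (Sum.inr (f, (a, b))))
  · intro h x
    rcases x with t | t | t
    · show c t.1 t.2.1 t.2.2 + c t.2.1 t.1 t.2.2 = 0
      rw [h.alt t.1 t.2.1 t.2.2]
      ring
    · show (adM c t.1.1 * adM c t.1.2 - adM c t.1.2 * adM c t.1.1 -
        ∑ s, c t.1.1 t.1.2 s • adM c s) t.2.1 t.2.2 = 0
      rw [h.jac, sub_self]
      rfl
    · show (List.ofFn fun s => adM c (t.1 s)).prod t.2.1 t.2.2 = 0
      rw [h.nil]
      rfl

private lemma ENC_good (c : SC n k) : HasGood c ↔ ∃ (g h : Matrix (Fin n) (Fin n) k)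
    (Z : ENC_K n), ∀ j ∈ ENC_T Z, ENC_Q c g h j = 0 := by
  constructor
  · rintro ⟨g, h, hgh, w, hw, hadm⟩
    refine ⟨g, h, ⟨{t | bc c g h t.1 t.2.1 t.2.2 = 0}, w, hw, fun i j l hz => hadm i j l hz⟩, ?_⟩
    intro j hj
    rcases j with t | t
    · show (g * h - 1) t.1 t.2 = 0
      rw [hgh, sub_self]
      rfl
    · exact hj t rfl
  · rintro ⟨g, h, ⟨Z, w, hw, hZ⟩, hall⟩
    refine ⟨g, h, ?_, w, hw, ?_⟩
    · rw [← sub_eq_zero]
      ext a b
      exact hall (Sum.inl (a, b)) (fun t ht => by cases ht)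
    · intro i j l hne
      apply hZ
      intro hz
      apply hne
      exact hall (Sum.inr (i, j, l)) (fun t ht => by
        rw [← Sum.inr.inj ht]
        exact hz)

end maps

theorem p_ENC : S_ENC := by
  intro hLEF hA n K hn
  -- the generic structure constants and matrices
  let α : Type := Fin n × Fin n × Fin n
  let β : Type := (Fin n × Fin n) ⊕ (Fin n × Fin n)
  let C : SC n (MvPolynomial α ℤ) := fun i j l => MvPolynomial.X (i, j, l)
  let C' : SC n (MvPolynomial (α ⊕ β) ℤ) := fun i j l => MvPolynomial.X (Sum.inl (i, j, l))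
  let G : Matrix (Fin n) (Fin n) (MvPolynomial (α ⊕ β) ℤ) :=
    Matrix.of fun a b => MvPolynomial.X (Sum.inr (Sum.inl (a, b)))
  let H : Matrix (Fin n) (Fin n) (MvPolynomial (α ⊕ β) ℤ) :=
    Matrix.of fun a b => MvPolynomial.X (Sum.inr (Sum.inr (a, b)))
  have hP : ∀ (k : Type) [CommRing k] [Algebra ℤ k] (v : α → k), (∀ i, MvPolynomial.aeval v (ENC_P K C i) = 0) ↔
      LieC K (fun i j l => v (i, j, l)) := by
    intro k _ _ v
    rw [← ENC_lie]
    have e : (fun i j l => v (i, j, l)) =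
        fun i j l => (MvPolynomial.aeval v : MvPolynomial α ℤ →ₐ[ℤ] k).toRingHom (C i j l) := by
      funext i j l
      show v (i, j, l) = MvPolynomial.aeval v (MvPolynomial.X (i, j, l))
      rw [MvPolynomial.aeval_X]
    rw [e]
    simp only [ENC_P_map]
    rfl
  have hQ : ∀ (k : Type) [CommRing k] [Algebra ℤ k] (v : α → k) (w : β → k) (j : ENC_J n),
      MvPolynomial.aeval (Sum.elim v w) (ENC_Q C' G H j) =
      ENC_Q (fun i j l => v (i, j, l)) (Matrix.of fun a b => w (Sum.inl (a, b)))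
        (Matrix.of fun a b => w (Sum.inr (a, b))) j := by
    intro k _ _ v w j
    have h1 := ENC_Q_map (MvPolynomial.aeval (Sum.elim v w) :
      MvPolynomial (α ⊕ β) ℤ →ₐ[ℤ] k).toRingHom C' G H j
    have e1 : (fun i j l => (MvPolynomial.aeval (Sum.elim v w) :
        MvPolynomial (α ⊕ β) ℤ →ₐ[ℤ] k).toRingHom (C' i j l)) = fun i j l => v (i, j, l) := by
      funext i j l
      show MvPolynomial.aeval (Sum.elim v w) (MvPolynomial.X (Sum.inl (i, j, l))) = v (i, j, l)
      rw [MvPolynomial.aeval_X]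
      rfl
    have e2 : (MvPolynomial.aeval (Sum.elim v w) :
        MvPolynomial (α ⊕ β) ℤ →ₐ[ℤ] k).toRingHom.mapMatrix G =
        Matrix.of fun a b => w (Sum.inl (a, b)) := by
      ext a b
      show MvPolynomial.aeval (Sum.elim v w) (MvPolynomial.X (Sum.inr (Sum.inl (a, b)))) =
        w (Sum.inl (a, b))
      rw [MvPolynomial.aeval_X]
      rfl
    have e3 : (MvPolynomial.aeval (Sum.elim v w) :
        MvPolynomial (α ⊕ β) ℤ →ₐ[ℤ] k).toRingHom.mapMatrix H =
        Matrix.of fun a b => w (Sum.inr (a, b)) := by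
      ext a b
      show MvPolynomial.aeval (Sum.elim v w) (MvPolynomial.X (Sum.inr (Sum.inr (a, b)))) =
        w (Sum.inr (a, b))
      rw [MvPolynomial.aeval_X]
      rfl
    rw [e1, e2, e3] at h1
    exact h1.symm
  obtain ⟨p₀, hp₀⟩ := hLEF α β (ENC_I n K) (ENC_J n) (ENC_K n) (ENC_P K C) (ENC_Q C' G H) ENC_T (by
    intro v hv
    have hL := (hP ℂ v).mp hv
    obtain ⟨g, h, Z, hZ⟩ := (ENC_good _).mp (hA n K _ hn hL)
    refine ⟨Sum.elim (fun t => g t.1 t.2) (fun t => h t.1 t.2), Z, fun j hj => ?_⟩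
    rw [hQ ℂ v]
    exact hZ j hj)
  refine ⟨p₀, fun p hp hpp c hc => ?_⟩
  have hv : (fun i j l => (fun t : α => c t.1 t.2.1 t.2.2) (i, j, l)) = c := rfl
  obtain ⟨w, Z, hw⟩ := hp₀ p hpp (fun t => c t.1 t.2.1 t.2.2)
    ((hP (AlgebraicClosure (ZMod p)) (fun t => c t.1 t.2.1 t.2.2)).mpr hc)
  rw [ENC_good]
  refine ⟨Matrix.of fun a b => w (Sum.inl (a, b)), Matrix.of fun a b => w (Sum.inr (a, b)), Z,
    fun j hj => ?_⟩
  have h1 := hw j hj
  rw [hQ (AlgebraicClosure (ZMod p))] at h1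
  exact h1

end MP_b83a82_al.LP
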