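import Pool.Agent.Lib.MP_b83a82_al.LP.Stm3

set_option autoImplicit false

/-!
# LARGE PRIMES, piece EXA: the truncated exponential of a sum of commuting nilpotents
-/

open Polynomial Module

namespace MP_b83a82_al.LP

universe u

private theorem EXA_fac (p : ℕ) [hp : Fact p.Prime] {r : ℕ} (hr : r < p) :
    ((r.factorial : ℕ) : ZMod p) ≠ 0 := by
  intro h
  rw [ZMod.natCast_eq_zero_iff] at h
  have h2 := (hp.out.dvd_factorial).1 h
  omega

private theorem EXA_choose (p : ℕ) [hp : Fact p.Prime] {i j : ℕ} (hr : i + j < p) :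
    (((i + j).factorial : ℕ) : ZMod p)⁻¹ * (((i + j).choose i : ℕ) : ZMod p) =
      ((i.factorial : ℕ) : ZMod p)⁻¹ * ((j.factorial : ℕ) : ZMod p)⁻¹ := by
  have hi := EXA_fac p (r := i) (by omega)
  have hj := EXA_fac p (r := j) (by omega)
  have hij := EXA_fac p hr
  have h1 : (((i + j).choose i : ℕ) : ZMod p) * ((i.factorial : ℕ) : ZMod p) *
      ((j.factorial : ℕ) : ZMod p) = (((i + j).factorial : ℕ) : ZMod p) := by
    have h0 := Nat.add_choose_mul_factorial_mul_factorial i j
    rw [← Nat.choose_symm_add] at h0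
    exact_mod_cast congrArg (Nat.cast (R := ZMod p)) h0
  rw [← mul_inv, inv_mul_eq_iff_eq_mul₀ hij, ← h1]
  field_simp

/-- the sum over the triangle -/
private theorem EXA_tri {M : Type*} [AddCommMonoid M] (p : ℕ) (F : ℕ → ℕ → M)
    (hF : ∀ i j, p ≤ i + j → F i j = 0) :
    ∑ r ∈ Finset.range p, ∑ ij ∈ Finset.HasAntidiagonal.antidiagonal r, F ij.1 ij.2 =
      ∑ i ∈ Finset.range p, ∑ j ∈ Finset.range p, F i j := by
  rw [← Finset.sum_product' (Finset.range p) (Finset.range p) F]
  have h1 : ∑ ij ∈ Finset.range p ×ˢ Finset.range p, F ij.1 ij.2 =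
      ∑ ij ∈ (Finset.range p ×ˢ Finset.range p).filter (fun ij => ij.1 + ij.2 < p),
        F ij.1 ij.2 := by
    symm
    apply Finset.sum_subset (Finset.filter_subset _ _)
    intro ij h2 h3
    rw [Finset.mem_filter, not_and] at h3
    exact hF _ _ (not_lt.1 (h3 h2))
  rw [h1]
  have h2 := Finset.sum_fiberwise_of_maps_to
    (s := (Finset.range p ×ˢ Finset.range p).filter (fun ij => ij.1 + ij.2 < p))
    (t := Finset.range p) (g := fun ij => ij.1 + ij.2)
    (fun ij hij => Finset.mem_range.2 (Finset.mem_filter.1 hij).2) (fun ij => F ij.1 ij.2)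
  rw [← h2]
  apply Finset.sum_congr rfl
  intro r hr
  apply Finset.sum_congr _ (fun _ _ => rfl)
  ext ij
  simp only [Finset.HasAntidiagonal.mem_antidiagonal, Finset.mem_filter, Finset.mem_product, Finset.mem_range]
  have hr' := Finset.mem_range.1 hr
  constructor
  · intro h
    omega
  · intro h
    exact h.2

/-- EXA -/
theorem p_EXA : S_EXA.{u} := by
  intro p hp R _ _ x y a b hxy hxa hyb hab
  set F : ℕ → ℕ → R := fun i j =>
    (((i.factorial : ℕ) : ZMod p)⁻¹ * ((j.factorial : ℕ) : ZMod p)⁻¹) • (x ^ i * y ^ j) with hFdef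
  have hF : ∀ i j, p ≤ i + j → F i j = 0 := by
    intro i j hij
    have h1 : x ^ i * y ^ j = 0 := by
      rcases Nat.lt_or_ge i a with h | h
      · have h2 : b ≤ j := by omega
        rw [pow_eq_zero_of_le h2 hyb, mul_zero]
      · rw [pow_eq_zero_of_le h hxa, zero_mul]
    rw [hFdef]
    simp only [h1, smul_zero]
  have hL : tex p (x + y) = ∑ r ∈ Finset.range p, ∑ ij ∈ Finset.HasAntidiagonal.antidiagonal r,
      F ij.1 ij.2 := by
    unfold tex
    apply Finset.sum_congr rfl
    intro r hr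
    rw [hxy.add_pow', Finset.smul_sum]
    apply Finset.sum_congr rfl
    intro ij hij
    rw [Finset.HasAntidiagonal.mem_antidiagonal] at hij
    have hr' := Finset.mem_range.1 hr
    subst hij
    rw [← Nat.cast_smul_eq_nsmul (ZMod p), smul_smul, EXA_choose p hr']
  have hR : tex p x * tex p y = ∑ i ∈ Finset.range p, ∑ j ∈ Finset.range p, F i j := by
    unfold tex
    rw [Finset.sum_mul_sum]
    apply Finset.sum_congr rfl
    intro i _
    apply Finset.sum_congr rfl
    intro j _
    rw [smul_mul_smul_comm]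
  rw [hL, hR]
  exact EXA_tri p F hF

end MP_b83a82_al.LP
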