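import Pool.Agent.Lib.MP_b83a82_al.LP.Stm3

/-!
# LARGE PRIMES, piece EXB: exponential and logarithm are inverse bijections of `J` and `1 + J`
-/

set_option autoImplicit false

open Polynomial Module

namespace MP_b83a82_al.LP

universe u

private lemma EXB_pow {p m : ℕ} [Fact p.Prime] {R : Type u} [Ring R] [Algebra (ZMod p) R]
    {J : Submodule (ZMod p) R} (hJ : NilJ p m J) {x : R} (hx : x ∈ J) (j : ℕ) :
    x ^ (j + 1) ∈ J := by
  induction j with
  | zero => simpa using hx
  | succ j ih =>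
    rw [pow_succ]
    exact hJ.mul (Submodule.mul_mem_mul ih hx)

private lemma EXB_nil {p m : ℕ} [Fact p.Prime] {R : Type u} [Ring R] [Algebra (ZMod p) R]
    {J : Submodule (ZMod p) R} (hJ : NilJ p m J) {x : R} (hx : x ∈ J) : x ^ m = 0 := by
  have h := Submodule.pow_mem_pow J hx m
  rw [hJ.nil] at h
  exact (Submodule.mem_bot _).mp h

private lemma EXB_tex {p : ℕ} [Fact p.Prime] {R : Type u} [Ring R] [Algebra (ZMod p) R] (x : R) :
    tex p x - 1 = ∑ j ∈ Finset.range (p - 1), (((j + 1).factorial : ZMod p)⁻¹) • x ^ (j + 1) := by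
  have hp : p = (p - 1) + 1 := by
    have := (Fact.out : p.Prime).one_lt
    omega
  have h1 : tex p x = ∑ j ∈ Finset.range ((p - 1) + 1), ((j.factorial : ZMod p)⁻¹) • x ^ j := by
    unfold tex
    rw [← hp]
  rw [h1, Finset.sum_range_succ']
  simp

private lemma EXB_mem {p m : ℕ} [Fact p.Prime] {R : Type u} [Ring R] [Algebra (ZMod p) R]
    {J : Submodule (ZMod p) R} (hJ : NilJ p m J) {x : R} (hx : x ∈ J) : tex p x - 1 ∈ J := by
  rw [EXB_tex]
  exact Submodule.sum_mem _ fun j _ => Submodule.smul_mem _ _ (EXB_pow hJ hx j)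

private lemma EXB_log {p m : ℕ} [Fact p.Prime] {R : Type u} [Ring R] [Algebra (ZMod p) R]
    {J : Submodule (ZMod p) R} {q : (ZMod p)[X]} (hJ : NilJ p m J) (hq : LogP p m q) {x : R}
    (hx : x ∈ J) : aeval (tex p x - 1) q = x := by
  obtain ⟨r, hr⟩ := hq.eq
  have h1 : aeval x (q.comp (tex p (X : (ZMod p)[X]) - 1)) = aeval x (X + X ^ m * r) :=
    congrArg (fun f => aeval x f) hr
  have h2 : aeval x (tex p (X : (ZMod p)[X]) - 1) = tex p x - 1 := by
    unfold tex
    rw [map_sub, map_sum, map_one]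
    congr 1
    refine Finset.sum_congr rfl fun j _ => ?_
    rw [map_smul, map_pow, aeval_X]
  rw [aeval_comp, h2, map_add, map_mul, map_pow, aeval_X, EXB_nil hJ hx, zero_mul, add_zero] at h1
  exact h1

theorem p_EXB : S_EXB.{u} := by
  intro p m _ R _ _ _ J q hJ hq
  have h1 : ∀ x ∈ J, tex p x - 1 ∈ J ∧ aeval (tex p x - 1) q = x := fun x hx =>
    ⟨EXB_mem hJ hx, EXB_log hJ hq hx⟩
  refine ⟨h1, fun g hg => ?_⟩
  have hinj : Function.Injective (fun x : J => (⟨tex p (x : R) - 1, (h1 x x.2).1⟩ : J)) := by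
    intro x y hxy
    have h2 : tex p (x : R) - 1 = tex p (y : R) - 1 := congrArg Subtype.val hxy
    have h3 := (h1 x x.2).2
    rw [h2, (h1 y y.2).2] at h3
    exact Subtype.ext h3.symm
  have hsurj := Finite.surjective_of_injective hinj
  obtain ⟨x, hx⟩ := hsurj ⟨g - 1, hg⟩
  have h2 : tex p (x : R) - 1 = g - 1 := congrArg Subtype.val hx
  have h3 := (h1 x x.2).2
  rw [h2] at h3
  rw [h3]
  exact ⟨x.2, sub_left_injective h2⟩

end MP_b83a82_al.LP
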