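import Pool.Agent.Lib.MP_b83a82_al.LP.Stm3

/-! LARGE PRIMES, piece FLG: the nilpotent algebra of a `p`-group of operators. -/

set_option autoImplicit false

namespace MP_b83a82_al.LP

open Module

universe u

section aux

variable {p : ℕ} {A : Type u} [Group A] {V : Type u} [AddCommGroup V] [Module (ZMod p) V]

/-- the preimage of the fixed vectors of the quotient by `W` -/
private def FLG_Fx (ρ : A →* Module.End (ZMod p) V) (W : Submodule (ZMod p) V) :
    Submodule (ZMod p) V := ⨅ g : A, W.comap (ρ g - 1)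

private theorem mem_FLG_Fx (ρ : A →* Module.End (ZMod p) V) (W : Submodule (ZMod p) V) (v : V) :
    v ∈ FLG_Fx ρ W ↔ ∀ g : A, ρ g v - v ∈ W := by
  simp [FLG_Fx, Submodule.mem_iInf]

private theorem FLG_Fx_mono (ρ : A →* Module.End (ZMod p) V) {W W' : Submodule (ZMod p) V}
    (h : W ≤ W') : FLG_Fx ρ W ≤ FLG_Fx ρ W' := by
  intro v hv
  rw [mem_FLG_Fx] at hv ⊢
  exact fun g => h (hv g)

/-- the ascending filtration -/
private def FLG_U (ρ : A →* Module.End (ZMod p) V) : ℕ → Submodule (ZMod p) V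
  | 0 => ⊥
  | n + 1 => FLG_Fx ρ (FLG_U ρ n)

private theorem FLG_U_succ (ρ : A →* Module.End (ZMod p) V) (n : ℕ) :
    FLG_U ρ (n + 1) = FLG_Fx ρ (FLG_U ρ n) := rfl

private theorem FLG_U_le_succ (ρ : A →* Module.End (ZMod p) V) (n : ℕ) :
    FLG_U ρ n ≤ FLG_U ρ (n + 1) := by
  induction n with
  | zero => exact bot_le
  | succ n ih => exact FLG_Fx_mono ρ ih

private theorem FLG_U_mono (ρ : A →* Module.End (ZMod p) V) : Monotone (FLG_U ρ) :=
  monotone_nat_of_le_succ (FLG_U_le_succ ρ)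

private theorem FLG_U_sub (ρ : A →* Module.End (ZMod p) V) (n : ℕ) (g : A) {v : V}
    (hv : v ∈ FLG_U ρ (n + 1)) : ρ g v - v ∈ FLG_U ρ n := by
  rw [FLG_U_succ, mem_FLG_Fx] at hv
  exact hv g

private theorem FLG_U_inv (ρ : A →* Module.End (ZMod p) V) (n : ℕ) (g : A) {v : V}
    (hv : v ∈ FLG_U ρ n) : ρ g v ∈ FLG_U ρ n := by
  have h := FLG_U_sub ρ n g (FLG_U_le_succ ρ n hv)
  have h2 := (FLG_U ρ n).add_mem h hv
  rwa [sub_add_cancel] at h2

private theorem FLG_U_lt (ρ : A →* Module.End (ZMod p) V) [Fact p.Prime] [Finite A] [Finite V]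
    (hA : IsPGroup p A) (n : ℕ) (h : FLG_U ρ n ≠ ⊤) : FLG_U ρ n < FLG_U ρ (n + 1) := by
  refine lt_of_le_of_ne (FLG_U_le_succ ρ n) fun heq => ?_
  set W := FLG_U ρ n with hW
  have hinv : ∀ g : A, W ≤ W.comap (ρ g) := fun g v hv => FLG_U_inv ρ n g hv
  let act : MulAction A (V ⧸ W) :=
    { smul := fun g x => W.mapQ W (ρ g) (hinv g) x
      one_smul := by
        intro x
        obtain ⟨v, rfl⟩ := Submodule.Quotient.mk_surjective W x
        change W.mapQ W (ρ 1) (hinv 1) (Submodule.Quotient.mk v) = _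
        rw [Submodule.mapQ_apply, map_one]
        rfl
      mul_smul := by
        intro g h x
        obtain ⟨v, rfl⟩ := Submodule.Quotient.mk_surjective W x
        change W.mapQ W (ρ (g * h)) (hinv (g * h)) (Submodule.Quotient.mk v) =
          W.mapQ W (ρ g) (hinv g) (W.mapQ W (ρ h) (hinv h) (Submodule.Quotient.mk v))
        rw [Submodule.mapQ_apply, Submodule.mapQ_apply, Submodule.mapQ_apply, map_mul]
        rfl }
  have hact : ∀ (g : A) (v : V), act.smul g (Submodule.Quotient.mk v) =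
      (Submodule.Quotient.mk (ρ g v) : V ⧸ W) := fun g v => rfl
  have hnt : Nontrivial (V ⧸ W) := Submodule.Quotient.nontrivial_iff.2 h
  have hfin : Finite (V ⧸ W) := Finite.of_surjective _ (Submodule.mkQ_surjective W)
  have hcard : p ∣ Nat.card (V ⧸ W) := by
    have h1 : Nat.card (V ⧸ W) = p ^ Module.finrank (ZMod p) (V ⧸ W) := by
      rw [Module.natCard_eq_pow_finrank (K := ZMod p), Nat.card_zmod]
    rw [h1]
    exact dvd_pow_self p (Module.finrank_pos).ne'
  have h0 : (0 : V ⧸ W) ∈ @MulAction.fixedPoints A (V ⧸ W) _ act := by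
    intro g
    change W.mapQ W (ρ g) (hinv g) 0 = 0
    exact map_zero _
  obtain ⟨b, hb, hb0⟩ := @IsPGroup.exists_fixed_point_of_prime_dvd_card_of_fixed_point p A _ hA _
    (V ⧸ W) act _ hcard 0 h0
  obtain ⟨v, rfl⟩ := Submodule.Quotient.mk_surjective W b
  have hv : v ∈ FLG_U ρ (n + 1) := by
    rw [FLG_U_succ, mem_FLG_Fx]
    intro g
    have h1 : W.mapQ W (ρ g) (hinv g) (Submodule.Quotient.mk v) = Submodule.Quotient.mk v := hb g
    rw [Submodule.mapQ_apply, Submodule.Quotient.eq] at h1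
    exact h1
  rw [← heq] at hv
  exact hb0 ((Submodule.Quotient.mk_eq_zero W).2 hv).symm

private theorem FLG_U_top (ρ : A →* Module.End (ZMod p) V) [Fact p.Prime] [Finite A] [Finite V]
    (hA : IsPGroup p A) (n : ℕ) : FLG_U ρ n = ⊤ ∨ n ≤ Module.finrank (ZMod p) (FLG_U ρ n) := by
  induction n with
  | zero => exact Or.inr (Nat.zero_le _)
  | succ n ih =>
    by_cases h : FLG_U ρ n = ⊤
    · left
      have := FLG_U_le_succ ρ n
      rw [h] at this
      exact top_le_iff.1 this
    · right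
      rcases ih with h1 | h1
      · exact absurd h1 h
      · have h2 := Submodule.finrank_lt_finrank_of_lt (FLG_U_lt ρ hA n h)
        omega

/-- the operators that map `U (i+k)` into `U i` for all `i` -/
private def FLG_F (ρ : A →* Module.End (ZMod p) V) (k : ℕ) :
    Submodule (ZMod p) (Module.End (ZMod p) V) where
  carrier := {X | ∀ i, ∀ v ∈ FLG_U ρ (i + k), X v ∈ FLG_U ρ i}
  zero_mem' := by
    intro i v _
    rw [LinearMap.zero_apply]
    exact (FLG_U ρ i).zero_mem
  add_mem' := by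
    intro X Y hX hY i v hv
    rw [LinearMap.add_apply]
    exact (FLG_U ρ i).add_mem (hX i v hv) (hY i v hv)
  smul_mem' := by
    intro c X hX i v hv
    rw [LinearMap.smul_apply]
    exact (FLG_U ρ i).smul_mem c (hX i v hv)

private theorem FLG_mem (ρ : A →* Module.End (ZMod p) V) (k : ℕ) (X : Module.End (ZMod p) V) :
    X ∈ FLG_F ρ k ↔ ∀ i, ∀ v ∈ FLG_U ρ (i + k), X v ∈ FLG_U ρ i := Iff.rfl

private theorem FLG_pow (ρ : A →* Module.End (ZMod p) V) (k : ℕ) :
    FLG_F ρ 1 ^ k ≤ FLG_F ρ k := by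
  induction k with
  | zero =>
    rw [pow_zero, Submodule.one_le]
    intro i v hv
    rw [Module.End.one_apply]
    exact hv
  | succ k ih =>
    rw [pow_succ, Submodule.mul_le]
    intro X hX Y hY
    have hX := ih hX
    rw [FLG_mem] at hX hY ⊢
    intro i v hv
    rw [Module.End.mul_apply]
    exact hX i _ (hY (i + k) v hv)

end aux

theorem p_FLG : S_FLG.{u} := by
  intro p _ A _ _ V _ _ _ ρ m hA hm
  have hrk : Module.finrank (ZMod p) V ≤ m := by
    rw [Module.natCard_eq_pow_finrank (K := ZMod p), Nat.card_zmod] at hm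
    exact (Nat.pow_le_pow_iff_right (Fact.out : p.Prime).one_lt).1 hm
  have htop : FLG_U ρ m = ⊤ := by
    rcases FLG_U_top ρ hA m with h | h
    · exact h
    · apply Submodule.eq_top_of_finrank_eq
      have := Submodule.finrank_le (FLG_U ρ m)
      omega
  refine ⟨FLG_F ρ 1, ?_, ?_, ?_⟩
  · rw [Submodule.mul_le]
    intro X hX Y hY
    rw [FLG_mem] at hX hY ⊢
    intro i v hv
    rw [Module.End.mul_apply]
    exact hX i _ (FLG_U_le_succ ρ i (hY i v hv))
  · rw [← le_bot_iff]
    intro X hX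
    have h1 := FLG_pow ρ m hX
    rw [FLG_mem] at h1
    rw [Submodule.mem_bot]
    ext v
    have h2 := h1 0 v (by rw [zero_add, htop]; trivial)
    rw [LinearMap.zero_apply]
    exact h2
  · intro a
    rw [FLG_mem]
    intro i v hv
    exact FLG_U_sub ρ i a hv

end MP_b83a82_al.LP
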