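import Pool.Agent.Lib.MP_b83a82_al.LP.Stm2

set_option autoImplicit false

/-!
# LARGE PRIMES, piece FRO: the optimal filtration is stable under the Frobenius
-/

open Matrix Module

namespace MP_b83a82_al.LP

/-- structure constants in the Frobenius-twisted basis -/
private lemma FRO_bc (p : ℕ) [Fact p.Prime] (n : ℕ) (c : SC n (ZMod p))
    (g h : Matrix (Fin n) (Fin n) (AlgebraicClosure (ZMod p))) (i j l : Fin n) :
    bc (ext p c) (g.map (frobenius (AlgebraicClosure (ZMod p)) p))
      (h.map (frobenius (AlgebraicClosure (ZMod p)) p)) i j l =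
      frobenius (AlgebraicClosure (ZMod p)) p (bc (ext p c) g h i j l) := by
  have hc : ∀ a b s, frobenius (AlgebraicClosure (ZMod p)) p (ext p c a b s) = ext p c a b s := by
    intro a b s
    rw [frobenius_def]
    unfold ext
    rw [← map_pow, ZMod.pow_card]
  unfold bc
  simp only [map_sum, map_mul, Matrix.map_apply, hc]

/-- The piece FRO. -/
theorem p_FRO : S_FRO := by
  intro hU p _ n c g h w hO a x hx
  have hO' := hO
  obtain ⟨hgh, hadm, _, _⟩ := hO
  set φ : AlgebraicClosure (ZMod p) →+* AlgebraicClosure (ZMod p) :=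
    frobenius (AlgebraicClosure (ZMod p)) p with hφ
  have h1 : g.map φ * h.map φ = 1 := by
    rw [← Matrix.map_mul, hgh, Matrix.map_one φ (map_zero φ) (map_one φ)]
  have h2 : Adm (bc (ext p c) (g.map φ) (h.map φ)) w := by
    intro i j l hne
    apply hadm i j l
    intro h0
    apply hne
    rw [FRO_bc, h0, map_zero]
  have h3 := hU (AlgebraicClosure (ZMod p)) n (ext p c) g h (g.map φ) (h.map φ) w w hO' h1 h2
    rfl rfl a
  rw [← h3]
  unfold fil at hx ⊢
  induction hx using Submodule.span_induction with
  | mem v hv =>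
    obtain ⟨i, hi, rfl⟩ := hv
    apply Submodule.subset_span
    refine ⟨i, hi, ?_⟩
    funext r
    simp [hφ, frobenius_def]
  | zero =>
    have hp : p ≠ 0 := (Fact.out : p.Prime).ne_zero
    have : (fun r => (0 : Fin n → AlgebraicClosure (ZMod p)) r ^ p) = 0 := by
      funext r
      simp [hp]
    rw [this]
    exact Submodule.zero_mem _
  | add u v _ _ hu hv =>
    have : (fun r => (u + v) r ^ p) = (fun r => u r ^ p) + fun r => v r ^ p := by
      funext r
      simp only [Pi.add_apply]
      exact add_pow_char _ _ _
    rw [this]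
    exact Submodule.add_mem _ hu hv
  | smul b v _ hv =>
    have : (fun r => (b • v) r ^ p) = (b ^ p) • fun r => v r ^ p := by
      funext r
      simp only [Pi.smul_apply, smul_eq_mul, mul_pow]
    rw [this]
    exact Submodule.smul_mem _ _ hv

end MP_b83a82_al.LP
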