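import Pool.Agent.Lib.MP_b83a82_al.LP.Stm3

set_option autoImplicit false

open Polynomial Module

namespace MP_b83a82_al.LP

universe u

/-- the faithful quotient. -/
private theorem GRP_quot (p : ℕ) [Fact p.Prime] {A : Type u} [Group A] [Finite A]
    (hA : IsPGroup p A) {V : Type u} [AddCommGroup V] [Module (ZMod p) V]
    (ρ : A →* Module.End (ZMod p) V) {a : ℕ} (ha : RkLE p (⊤ : Subgroup A) a) :
    ∃ (Q : Type u) (_ : Group Q) (_ : Finite Q) (ρ' : Q →* Module.End (ZMod p) V),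
      IsPGroup p Q ∧ RkLE p (⊤ : Subgroup Q) a ∧ Function.Injective ρ' ∧
      ρ.ker.index = Nat.card Q := by
  refine ⟨A ⧸ ρ.ker, inferInstance, inferInstance, QuotientGroup.lift ρ.ker ρ le_rfl,
    hA.to_quotient ρ.ker, H82.RkLE_quot ha ρ.ker, ?_, Subgroup.index_eq_card _⟩
  intro x y h
  induction x using QuotientGroup.induction_on with
  | H x =>
  induction y using QuotientGroup.induction_on with
  | H y =>
    rw [QuotientGroup.lift_mk, QuotientGroup.lift_mk] at h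
    rw [QuotientGroup.eq, MonoidHom.mem_ker, map_mul, ← h, ← map_mul, inv_mul_cancel, map_one]

/-- a uniform bound for the primes of part C -/
private theorem GRP_unif (hC : R_C) (N M : ℕ) : ∃ p₀ : ℕ, ∀ n ≤ N, 0 < n → ∀ K ≤ M,
    ∀ (p : ℕ) [Fact p.Prime], p₀ ≤ p →
    ∀ c : SC n (ZMod p), LieC K c → ∃ M N : Submodule (ZMod p) (Fin n → ZMod p), N ≤ M ∧
      (∀ x ∈ M, ∀ y ∈ M, br c x y ∈ N) ∧
      n + 136 * finrank (ZMod p) N ≤ 136 * finrank (ZMod p) M := by
  choose P hP using hC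
  refine ⟨((Finset.range (N + 1)) ×ˢ (Finset.range (M + 1))).sup
    (fun x => if h : 0 < x.1 then P x.1 x.2 h else 0), ?_⟩
  intro n hn hn0 K hK p _ hp
  refine hP n K hn0 p (le_trans ?_ hp)
  have h1 := Finset.le_sup (f := fun x : ℕ × ℕ => if h : 0 < x.1 then P x.1 x.2 h else 0)
    (Finset.mem_product.2 ⟨Finset.mem_range.2 (Nat.lt_succ_of_le hn),
      Finset.mem_range.2 (Nat.lt_succ_of_le hK)⟩ :
      ((n, K) : ℕ × ℕ) ∈ (Finset.range (N + 1)) ×ˢ (Finset.range (M + 1)))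
  simpa only [hn0, dif_pos] using h1

theorem p_GRP : S_GRP.{u} := by
  intro hFLG hLIE hSEC hSEE hTRA hC s
  obtain ⟨p₁, hp₁⟩ := GRP_unif hC (s * s) (s + 2)
  refine ⟨max p₁ (2 * (s + 2) * (s + 2)), ?_⟩
  intro p _ hp a ha Q _ _ hQ hrk V _ _ _ ρ hV _
  have hpp : p.Prime := Fact.out
  obtain ⟨A, _, _, ρ', hA, haA, hinj, hidx⟩ := GRP_quot p hQ ρ hrk
  rw [hidx]
  have hm2 : 2 ≤ max a 2 := le_max_right _ _
  have hms : max a 2 ≤ s + 2 := max_le (by omega) (by omega)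
  set m := max a 2 with hm
  have hVm : Nat.card V ≤ p ^ m := hV.trans (Nat.pow_le_pow_right hpp.pos (le_max_left _ _))
  obtain ⟨J, hJ1, hJ2, hJ3⟩ := hFLG p A V ρ' m hA hVm
  have hJ : NilJ p m J := by
    refine ⟨hJ1, hJ2, hm2, ?_⟩
    calc 2 * m * m ≤ 2 * (s + 2) * (s + 2) := by gcongr
      _ ≤ p := (le_max_right _ _).trans hp
  have hfinV : Module.Finite (ZMod p) V := Module.Finite.of_finite
  have hfinE : Finite (Module.End (ZMod p) V) := Module.finite_of_finite (ZMod p)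
  obtain ⟨W, hW1, hW2, hW3⟩ := hLIE p m (Module.End (ZMod p) V) J A ρ' hJ hinj hJ3 hA ⊤
  have hWJ : W ≤ J := hW1.1
  have hcardW : Nat.card A = p ^ finrank (ZMod p) W := by
    rw [Subgroup.card_top] at hW3
    rw [← hW3, Module.natCard_eq_pow_finrank (K := ZMod p), Nat.card_zmod]
  rw [hcardW]
  refine Nat.pow_le_pow_right hpp.pos ?_
  rcases Nat.eq_zero_or_pos (finrank (ZMod p) W) with h0 | h0
  · rw [h0]; exact Nat.zero_le _
  have hfV : finrank (ZMod p) V ≤ a := by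
    rw [Module.natCard_eq_pow_finrank (K := ZMod p), Nat.card_zmod] at hV
    exact (Nat.pow_le_pow_iff_right hpp.one_lt).1 hV
  have hfW : finrank (ZMod p) W ≤ s * s := by
    calc finrank (ZMod p) W ≤ finrank (ZMod p) (Module.End (ZMod p) V) := Submodule.finrank_le W
      _ = finrank (ZMod p) V * finrank (ZMod p) V := Module.finrank_linearMap _ _ _ _
      _ ≤ s * s := Nat.mul_le_mul (hfV.trans ha) (hfV.trans ha)
  obtain ⟨M, N, hNM, hMW, hbr, hdim⟩ := hTRA p m (Module.End (ZMod p) V) J W hJ hWJ hW2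
    (hp₁ _ hfW h0 m hms p ((le_max_left _ _).trans hp))
  have hLM : IsLieS M := fun x hx y hy => hNM (hbr x hx y hy)
  have hLN : IsLieS N := fun x hx y hy => hbr x (hNM hx) y (hNM hy)
  obtain ⟨S, hS⟩ := hSEC p m (Module.End (ZMod p) V) J A ρ' hJ hinj hJ3 W hW1 M hMW hLM
  obtain ⟨T, hT⟩ := hSEC p m (Module.End (ZMod p) V) J A ρ' hJ hinj hJ3 W hW1 N (hNM.trans hMW) hLN
  obtain ⟨hel, hrel⟩ := hSEE p m (Module.End (ZMod p) V) J A ρ' hJ hinj hJ3 S T M N hS hT hNM hbr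
  have hle := haA T S le_top hel
  have h3 : p ^ finrank (ZMod p) M ≤ p ^ (a + finrank (ZMod p) N) := by
    rw [← hrel, pow_add]
    exact Nat.mul_le_mul_right _ hle
  have h4 := (Nat.pow_le_pow_iff_right hpp.one_lt).1 h3
  omega

end MP_b83a82_al.LP
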