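import Pool.Agent.Lib.MP_b83a82_al.LP.Stm1

set_option autoImplicit false

open Matrix

namespace MP_b83a82_al.LP

theorem p_INE : S_INE := by
  intro hB hU h1 h2 hS n K c hc
  obtain ⟨u, hu, htri⟩ := hS n K (Fin n) (adM c) hc.nil
  have hc' : LieC K (bc c u uᴴ) := (hB ℂ n c u uᴴ).2.2.1 K hu.2 hc
  have hadM : ∀ i, adM (bc c u uᴴ) i = uᴴ * (∑ a, u a i • adM c a) * u :=
    (hB ℂ n c u uᴴ).1
  have hlow : ∀ i j l, bc c u uᴴ i j l ≠ 0 → j < l := by
    intro i j l h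
    have e1 : bc c u uᴴ i j l = ∑ a, u a i * (uᴴ * adM c a * u) l j := by
      have e2 : bc c u uᴴ i j l = adM (bc c u uᴴ) i l j := rfl
      rw [e2, hadM, Finset.mul_sum, Finset.sum_mul, Matrix.sum_apply]
      refine Finset.sum_congr rfl fun a _ => ?_
      rw [Matrix.mul_smul, Matrix.smul_mul, Matrix.smul_apply, smul_eq_mul]
    rw [e1] at h
    obtain ⟨a, -, ha⟩ := Finset.exists_ne_zero_of_sum_ne_zero h
    exact htri a l j (right_ne_zero_of_mul ha)
  have h3 := h2 n K (bc c u uᴴ) hc' (fun i j l h => by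
    refine ⟨hlow j i l ?_, hlow i j l h⟩
    intro h0
    apply h
    rw [hc'.alt, h0, neg_zero])
  rw [h1 n K (bc c u uᴴ) hc'] at h3
  obtain ⟨-, -, h4⟩ := hU n c
  obtain ⟨e1, e2, e3, -⟩ := h4 u hu
  have key : ∀ X Y : Matrix (Fin n) (Fin n) ℂ,
      trace (uᴴ * X * u * (uᴴ * Y * u)) = trace (X * Y) := by
    intro X Y
    calc trace (uᴴ * X * u * (uᴴ * Y * u)) = trace (uᴴ * (X * (u * uᴴ) * Y * u)) := by
          simp only [Matrix.mul_assoc]
      _ = trace (X * Y * (u * uᴴ)) := by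
          rw [hu.2, Matrix.mul_one, Matrix.trace_mul_comm]
          simp only [Matrix.mul_assoc]
          rw [hu.2, Matrix.mul_one]
      _ = trace (X * Y) := by rw [hu.2, Matrix.mul_one]
  have e4 : mB (bc c u uᴴ) - mA (bc c u uᴴ) = uᴴ * (mB c - mA c) * u := by
    rw [e1, e2, Matrix.mul_sub, Matrix.sub_mul]
  rw [e4, e1, e3, key, key] at h3
  exact h3

end MP_b83a82_al.LP
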