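import Pool.Agent.Lib.MP_b83a82_al.LP.Stm2

set_option autoImplicit false

/-!
# LARGE PRIMES, piece LEF: the Lefschetz principle for `∀ ∃` statements
-/

open FirstOrder FirstOrder.Language FirstOrder.Field FirstOrder.Ring

namespace MP_b83a82_al.LP

/-- the term of a polynomial with integer coefficients -/
noncomputable def LEF_term {α : Type} (P : MvPolynomial α ℤ) : Language.ring.Term α :=
  termOfFreeCommRing ((freeCommRingEquivMvPolynomialInt α).symm P)

theorem LEF_term_realize {α K : Type} [Field K] [CompatibleRing K] (P : MvPolynomial α ℤ)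
    (v : α → K) : (LEF_term P).realize v = MvPolynomial.aeval v P := by
  unfold LEF_term
  rw [realize_termOfFreeCommRing]
  have h : ((FreeCommRing.lift v).comp
      (freeCommRingEquivMvPolynomialInt α).symm.toRingHom) =
      (MvPolynomial.aeval v : MvPolynomial α ℤ →ₐ[ℤ] K).toRingHom := by
    refine MvPolynomial.ringHom_ext (fun r => ?_) (fun i => ?_)
    · simp
    · have h1 : (freeCommRingEquivMvPolynomialInt α).symm (MvPolynomial.X i)
          = FreeCommRing.of i := by
        rw [RingEquiv.symm_apply_eq]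
        simp [freeCommRingEquivMvPolynomialInt]
      simp [h1]
  exact congrArg (fun f : MvPolynomial α ℤ →+* K => f P) h

section

variable {α β ι J κ : Type} [Finite α] [Finite β] [Finite ι] [Finite J] [Finite κ]

/-- the hypothesis as a formula -/
noncomputable def LEF_hyp (P : ι → MvPolynomial α ℤ) : Language.ring.Formula α :=
  Formula.iInf fun i => Term.equal (LEF_term (P i)) 0

/-- the conclusion as a formula -/
noncomputable def LEF_con (Q : J → MvPolynomial (α ⊕ β) ℤ) (T : κ → Set J) :
    Language.ring.Formula (α ⊕ β) :=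
  Formula.iSup fun t : κ => Formula.iInf fun j : T t => Term.equal (LEF_term (Q j)) 0

/-- the sentence -/
noncomputable def LEF_sen (P : ι → MvPolynomial α ℤ) (Q : J → MvPolynomial (α ⊕ β) ℤ)
    (T : κ → Set J) : Language.ring.Sentence :=
  Formula.iAlls α (((LEF_hyp P).imp (Formula.iExs β (LEF_con Q T))).relabel Sum.inr)

theorem LEF_realize {K : Type} [Field K] [CompatibleRing K] (P : ι → MvPolynomial α ℤ)
    (Q : J → MvPolynomial (α ⊕ β) ℤ) (T : κ → Set J) :
    (K ⊨ LEF_sen P Q T) ↔ ∀ v : α → K, (∀ i, MvPolynomial.aeval v (P i) = 0) →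
      ∃ (w : β → K) (t : κ), ∀ j ∈ T t, MvPolynomial.aeval (Sum.elim v w) (Q j) = 0 := by
  unfold LEF_sen Sentence.Realize
  rw [Formula.realize_iAlls]
  refine forall_congr' fun v => ?_
  rw [Formula.realize_relabel, Formula.realize_imp, Formula.realize_iExs]
  have h0 : ((fun a => Sum.elim (default : Empty → K) v a) ∘ Sum.inr : α → K) = v := by
    funext a
    rfl
  rw [h0]
  refine imp_congr ?_ (exists_congr fun w => ?_)
  · unfold LEF_hyp
    simp [LEF_term_realize]
  · unfold LEF_con
    simp [LEF_term_realize]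

end

theorem p_LEF : S_LEF := by
  intro α β ι J κ _ _ _ _ _ P Q T h
  have h0 : Theory.ACF 0 ⊨ᵇ LEF_sen P Q T := by
    let _ := compatibleRingOfRing ℂ
    rw [← (ACF_isComplete (Or.inr rfl)).realize_sentence_iff _ ℂ, LEF_realize]
    exact h
  have hfin := finite_ACF_prime_not_realize_of_ACF_zero_realize _ h0
  obtain ⟨b, hb⟩ := (hfin.image (fun p : Nat.Primes => (p : ℕ))).bddAbove
  refine ⟨b + 1, fun p hp hpb v hv => ?_⟩
  have h1 : Theory.ACF p ⊨ᵇ LEF_sen P Q T := by
    by_contra hc
    have h2 : p ≤ b := hb ⟨⟨p, hp.out⟩, hc, rfl⟩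
    omega
  let _ := compatibleRingOfRing (AlgebraicClosure (ZMod p))
  rw [← (ACF_isComplete (Or.inl hp.out)).realize_sentence_iff _ (AlgebraicClosure (ZMod p)),
    LEF_realize] at h1
  exact h1 v hv

end MP_b83a82_al.LP
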