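import Pool.Agent.Lib.MP_b83a82_al.LP.Stm3

set_option autoImplicit false

/-!
# LARGE PRIMES, piece LIE (helper7, for helper26): the logarithm of a unipotent group

The logarithms of the elements of a subgroup form a subspace (induction along subgroups of index
`p`, with LKK), closed under commutators (interpolation, PFL).
-/

open Polynomial Module

namespace MP_b83a82_al.LP

universe u

private lemma LIE_pow {p m : ℕ} [Fact p.Prime] {R : Type u} [Ring R] [Algebra (ZMod p) R]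
    {J : Submodule (ZMod p) R} (hN : NilJ p m J) {x : R} (hx : x ∈ J) : x ^ m = 0 := by
  have h := Submodule.pow_mem_pow J hx m
  rw [hN.nil] at h
  exact (Submodule.mem_bot _).1 h

private lemma LIE_le {p m : ℕ} [Fact p.Prime] {R : Type u} [Ring R] [Algebra (ZMod p) R]
    {J : Submodule (ZMod p) R} (hN : NilJ p m J) : 2 * m + 4 ≤ p := by
  have h1 := hN.large
  have h2 := hN.two
  nlinarith

private lemma LIE_zero {p : ℕ} [Fact p.Prime] {R : Type u} [Ring R] [Algebra (ZMod p) R] :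
    tex p (0 : R) = 1 := by
  unfold tex
  rw [Finset.sum_eq_single 0]
  · simp
  · intro j _ hj
    rw [zero_pow hj, smul_zero]
  · intro h
    exact absurd (Finset.mem_range.2 (Fact.out : p.Prime).pos) h

private lemma LIE_tex (hE : S_EXA.{u}) {p m : ℕ} [Fact p.Prime] {R : Type u} [Ring R]
    [Algebra (ZMod p) R] {J : Submodule (ZMod p) R} (hN : NilJ p m J) {A : Type u} [Group A]
    (ρ : A →* R) {x : R} (hx : x ∈ J) {b : A} (hb : tex p x = ρ b) (N : ℕ) :
    tex p ((N : ZMod p) • x) = ρ (b ^ N) := by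
  have hle := LIE_le hN
  induction N with
  | zero => rw [Nat.cast_zero, zero_smul, LIE_zero, pow_zero, map_one]
  | succ N ih =>
    have e : ((N + 1 : ℕ) : ZMod p) • x = (N : ZMod p) • x + x := by
      rw [Nat.cast_succ, add_smul, one_smul]
    have h1 := hE p R ((N : ZMod p) • x) x m m ((Commute.refl x).smul_left _)
      (LIE_pow hN (J.smul_mem _ hx)) (LIE_pow hN hx) (by omega)
    rw [e, h1, ih, hb, pow_succ, map_mul]

private lemma LIE_neg (hE : S_EXA.{u}) {p m : ℕ} [Fact p.Prime] {R : Type u} [Ring R]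
    [Algebra (ZMod p) R] {J : Submodule (ZMod p) R} (hN : NilJ p m J) {A : Type u} [Group A]
    (ρ : A →* R) {x : R} (hx : x ∈ J) {b : A} (hb : tex p x = ρ b) :
    tex p (-x) = ρ b⁻¹ := by
  have hle := LIE_le hN
  have h1 := hE p R x (-x) m m ((Commute.refl x).neg_right) (LIE_pow hN hx)
    (LIE_pow hN (J.neg_mem hx)) (by omega)
  rw [add_neg_cancel, LIE_zero, hb] at h1
  calc tex p (-x) = ρ b⁻¹ * (ρ b * tex p (-x)) := by
        rw [← mul_assoc, ← map_mul, inv_mul_cancel, map_one, one_mul]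
    _ = ρ b⁻¹ := by rw [← h1, mul_one]

private lemma LIE_conj {p : ℕ} [Fact p.Prime] {R : Type u} [Ring R] [Algebra (ZMod p) R]
    {g h : R} (y : R) (h1 : g * h = 1) (h2 : h * g = 1) :
    tex p (g * y * h) = g * tex p y * h := by
  have hp : ∀ j : ℕ, (g * y * h) ^ j = g * y ^ j * h := by
    intro j
    induction j with
    | zero => rw [pow_zero, pow_zero, mul_one, h1]
    | succ j ih =>
      calc (g * y * h) ^ (j + 1) = g * y ^ j * (h * g) * y * h := by
            rw [pow_succ, ih]; simp only [mul_assoc]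
        _ = g * y ^ (j + 1) * h := by
            rw [h2, mul_one, pow_succ]; simp only [mul_assoc]
  unfold tex
  rw [Finset.mul_sum, Finset.sum_mul]
  refine Finset.sum_congr rfl fun j _ => ?_
  rw [hp, mul_smul_comm, smul_mul_assoc]

/-- A subgroup of index `p`, normalised by the whole group. -/
private lemma LIE_sub {p : ℕ} [Fact p.Prime] {A : Type u} [Group A] [Finite A]
    (hA : IsPGroup p A) (S : Subgroup A) (hS : S ≠ ⊥) :
    ∃ T : Subgroup A, T ≤ S ∧ Nat.card S = p * Nat.card T ∧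
      (∀ b ∈ S, ∀ s ∈ T, b * s * b⁻¹ ∈ T) := by
  have hp : p.Prime := Fact.out
  obtain ⟨k, hk⟩ := (IsPGroup.iff_card.1 (hA.to_subgroup S))
  have hk0 : k ≠ 0 := by
    rintro rfl
    rw [pow_zero] at hk
    exact hS (Subgroup.card_eq_one.1 hk)
  obtain ⟨l, rfl⟩ := Nat.exists_eq_succ_of_ne_zero hk0
  obtain ⟨T, hTS, hT⟩ := Sylow.exists_subgroup_le_card_pow_prime_of_le_card hp hA (H := S)
    (n := l) (by rw [hk]; exact Nat.pow_le_pow_right hp.pos (Nat.le_succ l))
  have hc : Nat.card S = p * Nat.card T := by rw [hk, hT, pow_succ, mul_comm]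
  refine ⟨T, hTS, hc, ?_⟩
  have hi : (T.subgroupOf S).index = p := by
    have h1 := Subgroup.card_mul_index (T.subgroupOf S)
    have h2 : Nat.card (T.subgroupOf S) = Nat.card T :=
      Nat.card_congr (Subgroup.subgroupOfEquivOfLe hTS).toEquiv
    rw [h2, hc, mul_comm p] at h1
    exact Nat.eq_of_mul_eq_mul_left Nat.card_pos h1
  have hn : (T.subgroupOf S).Normal := by
    apply Subgroup.normal_of_index_eq_minFac_card
    rw [hi, hk, hp.pow_minFac (Nat.succ_ne_zero l)]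
  intro b hb s hs
  have h3 := hn.conj_mem ⟨s, hTS hs⟩ (Subgroup.mem_subgroupOf.2 hs) ⟨b, hb⟩
  exact Subgroup.mem_subgroupOf.1 h3

/-- Every subgroup has a logarithm. -/
private lemma LIE_log (hE : S_EXA.{u}) (hK : R_LKK.{u}) {p m : ℕ} [Fact p.Prime] {R : Type u}
    [Ring R] [Algebra (ZMod p) R] [Finite R] {J : Submodule (ZMod p) R} {A : Type u} [Group A]
    [Finite A] {ρ : A →* R} (hN : NilJ p m J) (hρ : Function.Injective ρ)
    (hJ : ∀ a, ρ a - 1 ∈ J) (hA : IsPGroup p A)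
    (hinj : ∀ x ∈ J, ∀ y ∈ J, tex p x = tex p y → x = y)
    (hsur : ∀ a : A, ∃ x ∈ J, tex p x = ρ a) :
    ∀ (n : ℕ) (S : Subgroup A), Nat.card S = n →
      ∃ W : Submodule (ZMod p) R, IsLog p J ρ S W ∧ Nat.card W = Nat.card S := by
  have hp : p.Prime := Fact.out
  intro n
  induction n using Nat.strong_induction_on with
  | _ n ih =>
  intro S hSn
  by_cases hS : S = ⊥
  · subst hS
    refine ⟨⊥, ⟨bot_le, fun x => ⟨fun hx => ?_, fun hx => ?_⟩⟩, ?_⟩
    · rw [Submodule.mem_bot] at hx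
      subst hx
      exact ⟨J.zero_mem, 1, Subgroup.mem_bot.2 rfl, by rw [LIE_zero, map_one]⟩
    · obtain ⟨hxJ, s, hs, hx⟩ := hx
      rw [Subgroup.mem_bot] at hs
      subst hs
      rw [Submodule.mem_bot]
      exact hinj x hxJ 0 J.zero_mem (by rw [hx, LIE_zero, map_one])
    · simp
  obtain ⟨T, hTS, hc, hnorm⟩ := LIE_sub hA S hS
  have hTpos : 0 < Nat.card T := Nat.card_pos
  have hlt : Nat.card T < n := by
    rw [← hSn, hc]
    calc Nat.card T = 1 * Nat.card T := (one_mul _).symm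
      _ < p * Nat.card T := Nat.mul_lt_mul_of_pos_right hp.one_lt hTpos
  obtain ⟨V, hV, hVc⟩ := ih _ hlt T rfl
  -- an element outside `T`
  obtain ⟨b, hbS, hbT⟩ : ∃ b ∈ S, b ∉ T := by
    by_contra hcon
    push Not at hcon
    have : S = T := le_antisymm hcon hTS
    rw [← this] at hTpos hc
    have h2 := hp.one_lt
    nlinarith
  obtain ⟨x, hxJ, hx⟩ := hsur b
  have hxV : x ∉ V := by
    intro h
    obtain ⟨-, s, hs, hxs⟩ := (hV.2 x).1 h
    rw [hx] at hxs
    exact hbT (hρ hxs ▸ hs)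
  have hpow : ∀ t : ZMod p, tex p (t • x) = ρ (b ^ t.val) := by
    intro t
    have h := LIE_tex hE hN ρ hxJ hx t.val
    rwa [ZMod.natCast_zmod_val] at h
  have hmain : ∀ (t : ZMod p), ∀ w ∈ V, ∃ s ∈ S, tex p (t • x + w) = ρ s := by
    intro t w hw
    have hb' : b ^ t.val ∈ S := S.pow_mem hbS _
    obtain ⟨s, hs, h⟩ := hK p m R J A ρ hN hρ hJ T V (b ^ t.val) (t • x) hV
      (fun s hs => ⟨hnorm _ hb' s hs, by
        have := hnorm _ (S.inv_mem hb') s hs
        rwa [inv_inv] at this⟩) (J.smul_mem _ hxJ) (hpow t) w hw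
    exact ⟨s * b ^ t.val, S.mul_mem (hTS hs) hb', h⟩
  set W : Submodule (ZMod p) R := V ⊔ Submodule.span (ZMod p) {x} with hW
  have hWJ : W ≤ J := sup_le hV.1 ((Submodule.span_singleton_le_iff_mem _ _).2 hxJ)
  have hWS : ∀ z : W, ∃ s : S, tex p (z : R) = ρ s := by
    rintro ⟨z, hz⟩
    rw [hW, Submodule.mem_sup] at hz
    obtain ⟨w, hw, y, hy, rfl⟩ := hz
    obtain ⟨t, rfl⟩ := Submodule.mem_span_singleton.1 hy
    obtain ⟨s, hs, h⟩ := hmain t w hw
    exact ⟨⟨s, hs⟩, (congrArg (tex p) (add_comm w (t • x))).trans h⟩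
  choose f hf using hWS
  have hfinj : Function.Injective f := by
    intro z z' hzz
    have h := hf z
    rw [hzz, ← hf z'] at h
    exact Subtype.ext (hinj _ (hWJ z.2) _ (hWJ z'.2) h)
  have hcard : Nat.card S ≤ Nat.card W := by
    have h1 : Nat.card (ZMod p × V) = Nat.card S := by
      rw [Nat.card_prod, Nat.card_zmod, hVc, hc]
    rw [← h1]
    have hmem : ∀ tw : ZMod p × V, tw.1 • x + (tw.2 : R) ∈ W := fun tw =>
      W.add_mem (Submodule.mem_sup_right (Submodule.smul_mem _ _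
        (Submodule.mem_span_singleton_self x))) (Submodule.mem_sup_left tw.2.2)
    refine Nat.card_le_card_of_injective (fun tw : ZMod p × V => (⟨_, hmem tw⟩ : W)) ?_
    rintro ⟨t, w⟩ ⟨t', w'⟩ h
    have h2 : t • x + (w : R) = t' • x + (w' : R) := congrArg Subtype.val h
    have h3 : (t - t') • x = ((w' - w : V) : R) := by
      rw [sub_smul, Submodule.coe_sub]
      rw [sub_eq_sub_iff_add_eq_add, h2, add_comm]
    have ht : t = t' := by
      by_contra hne
      apply hxV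
      have h4 : x = (t - t')⁻¹ • ((w' - w : V) : R) := by
        rw [← h3, smul_smul, inv_mul_cancel₀ (sub_ne_zero.2 hne), one_smul]
      rw [h4]
      exact V.smul_mem _ (w' - w).2
    subst ht
    have h5 : (w : R) = (w' : R) := add_left_cancel h2
    rw [Subtype.ext h5]
  have hbij := hfinj.bijective_of_nat_card_le hcard
  refine ⟨W, ⟨hWJ, fun z => ⟨fun hz => ⟨hWJ hz, (f ⟨z, hz⟩ : A), (f ⟨z, hz⟩).2, hf ⟨z, hz⟩⟩,
    fun hz => ?_⟩⟩, Nat.card_congr (Equiv.ofBijective f hbij)⟩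
  obtain ⟨hzJ, s, hs, h⟩ := hz
  obtain ⟨z', hz'⟩ := hbij.2 ⟨s, hs⟩
  have h6 := hf z'
  rw [hz'] at h6
  have h7 : z = (z' : R) := hinj z hzJ z' (hWJ z'.2) (h.trans h6.symm)
  rw [h7]
  exact z'.2

theorem p_LIE : S_LIE.{u} := by
  intro hE hL hB hP hK p m _ R _ _ _ J A _ _ ρ hN hρ hJ hA S
  have hle := LIE_le hN
  have hm2 := hN.two
  have hml := hN.large
  obtain ⟨q, hq⟩ := hL p m hm2 (by omega)
  obtain ⟨hB1, hB2⟩ := hB p m R J q hN hq
  have hinj : ∀ x ∈ J, ∀ y ∈ J, tex p x = tex p y → x = y := by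
    intro x hx y hy h
    rw [← (hB1 x hx).2, ← (hB1 y hy).2, h]
  have hsur : ∀ a : A, ∃ x ∈ J, tex p x = ρ a := fun a => ⟨_, (hB2 (ρ a) (hJ a)).1,
    (hB2 (ρ a) (hJ a)).2⟩
  obtain ⟨W, hW, hWc⟩ := LIE_log hE hK hN hρ hJ hA hinj hsur _ S rfl
  refine ⟨W, hW, ?_, hWc⟩
  intro x hx y hy
  obtain ⟨hxJ, b, hb, hxb⟩ := (hW.2 x).1 hx
  obtain ⟨hyJ, s, hs, hys⟩ := (hW.2 y).1 hy
  obtain ⟨-, hP2, -, hP4, hP5, -, hP7⟩ := hP p R
  have h1 := hP5 m x hm2 (by omega) (LIE_pow hN hxJ)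
  have h2 := hP5 m (-x) hm2 (by omega) (LIE_pow hN (J.neg_mem hxJ))
  have h3 := hP2 m 1 _ _ _ _ _ _ (by omega) le_rfl h1 (hP4 y)
  have h4 := hP2 (m + 1) m _ _ _ _ _ _ (by omega) (by omega) h3 h2
  have hmem : ∀ N : ℕ, tex p ((N : ZMod p) • x) * y * tex p ((N : ZMod p) • (-x)) ∈ W := by
    intro N
    have e1 := LIE_tex hE hN ρ hxJ hxb N
    have e2 : tex p ((N : ZMod p) • (-x)) = ρ (b ^ N)⁻¹ := by
      rw [smul_neg]
      exact LIE_neg hE hN ρ (J.smul_mem _ hxJ) e1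
    rw [e1, e2]
    have g1 : ρ (b ^ N) * ρ (b ^ N)⁻¹ = 1 := by rw [← map_mul, mul_inv_cancel, map_one]
    have g2 : ρ (b ^ N)⁻¹ * ρ (b ^ N) = 1 := by rw [← map_mul, inv_mul_cancel, map_one]
    refine (hW.2 _).2 ⟨?_, b ^ N * s * (b ^ N)⁻¹,
      S.mul_mem (S.mul_mem (S.pow_mem hb _) hs) (S.inv_mem (S.pow_mem hb _)), ?_⟩
    · have j1 := hJ (b ^ N)
      have j2 := hJ (b ^ N)⁻¹
      set g := ρ (b ^ N)
      set h := ρ (b ^ N)⁻¹
      have e : g * y * h = y + (g - 1) * y + y * (h - 1) + (g - 1) * y * (h - 1) := by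
        noncomm_ring
      rw [e]
      have k1 : (g - 1) * y ∈ J := hN.mul (Submodule.mul_mem_mul j1 hyJ)
      have k2 : y * (h - 1) ∈ J := hN.mul (Submodule.mul_mem_mul hyJ j2)
      have k3 : (g - 1) * y * (h - 1) ∈ J := hN.mul (Submodule.mul_mem_mul k1 j2)
      exact J.add_mem (J.add_mem (J.add_mem hyJ k1) k2) k3
    · rw [LIE_conj y g1 g2, hys, map_mul, map_mul]
  have hD : m + 1 + m < p := by omega
  have h5 := hP7 (m + 1 + m) _ _ _ W (by omega) (by omega) hD hmem h4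
  have e : (1 : R) * y * -x + ((1 : R) * 0 + x * y) * 1 = x * y - y * x := by noncomm_ring
  rwa [e] at h5

end MP_b83a82_al.LP
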