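import Pool.Agent.Lib.MP_b83a82_al.LP.Stm3

set_option autoImplicit false

/-!
# LARGE PRIMES, piece LKK: the logarithm of a product by interpolation
-/

open Polynomial Module

namespace MP_b83a82_al.LP

universe u

section

variable {p m : ℕ} [Fact p.Prime] {R : Type u} [Ring R] [Algebra (ZMod p) R]

private theorem LKK_tex_zero : tex p (0 : R) = 1 := by
  unfold tex
  rw [Finset.sum_eq_single 0]
  · simp
  · intro j _ hj
    rw [zero_pow hj, smul_zero]
  · intro h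
    exact absurd (Finset.mem_range.2 (Fact.out : p.Prime).pos) h

private theorem LKK_pow {J : Submodule (ZMod p) R} (hJ : NilJ p m J) {z : R} (hz : z ∈ J) :
    z ^ m = 0 := by
  have h := Submodule.pow_mem_pow J hz m
  rw [hJ.nil] at h
  exact h

private theorem LKK_two {J : Submodule (ZMod p) R} (hJ : NilJ p m J) : m + m ≤ p := by
  have h1 := hJ.two
  have h2 := hJ.large
  nlinarith

private theorem LKK_lt {J : Submodule (ZMod p) R} (hJ : NilJ p m J) : m * (m + m) < p ∧ 3 ≤ p := by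
  have h1 := hJ.two
  have h2 := hJ.large
  have h3 : 8 ≤ p := by nlinarith
  refine ⟨lt_of_le_of_ne (by nlinarith) ?_, by omega⟩
  intro h4
  have h5 : 2 ∣ p := ⟨m * m, by rw [← h4]; ring⟩
  have h6 := (Nat.prime_dvd_prime_iff_eq Nat.prime_two (Fact.out : p.Prime)).1 h5
  omega

private theorem LKK_tex_smul (hEXA : S_EXA.{u}) {J : Submodule (ZMod p) R} (hJ : NilJ p m J)
    {y : R} (hy : y ∈ J) (N : ℕ) : tex p ((N : ZMod p) • y) = tex p y ^ N := by
  induction N with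
  | zero => rw [Nat.cast_zero, zero_smul, pow_zero, LKK_tex_zero]
  | succ N ih =>
    have h2 := LKK_two hJ
    have h1 := hEXA p R ((N : ZMod p) • y) y m m ((Commute.refl y).smul_left _)
      (LKK_pow hJ (J.smul_mem _ hy)) (LKK_pow hJ hy) (by omega)
    rw [Nat.cast_succ, add_smul, one_smul, h1, ih, pow_succ]

private theorem LKK_tex_neg (hEXA : S_EXA.{u}) {J : Submodule (ZMod p) R} (hJ : NilJ p m J)
    {A : Type u} [Group A] (ρ : A →* R) {x : R} (hx : x ∈ J) {b : A} (hxb : tex p x = ρ b) :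
    tex p (-x) = ρ b⁻¹ := by
  have h2 := LKK_two hJ
  have h1 := hEXA p R x (-x) m m ((Commute.refl x).neg_right)
    (LKK_pow hJ hx) (LKK_pow hJ (J.neg_mem hx)) (by omega)
  rw [add_neg_cancel, LKK_tex_zero, hxb] at h1
  calc tex p (-x) = (ρ b⁻¹ * ρ b) * tex p (-x) := by
        rw [← map_mul, inv_mul_cancel, map_one, one_mul]
    _ = ρ b⁻¹ := by rw [mul_assoc, ← h1, mul_one]

end

private theorem LKK_mem {A : Type u} [Group A] (S : Subgroup A) (b s : A) (hs : s ∈ S)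
    (hb : ∀ s ∈ S, b * s * b⁻¹ ∈ S) (N : ℕ) : (s * b) ^ N * b⁻¹ ^ N ∈ S := by
  induction N with
  | zero =>
    rw [pow_zero, pow_zero, one_mul]
    exact S.one_mem
  | succ N ih =>
    have h1 : (s * b) ^ (N + 1) * b⁻¹ ^ (N + 1) =
        s * (b * ((s * b) ^ N * b⁻¹ ^ N) * b⁻¹) := by
      rw [pow_succ', pow_succ]
      group
    rw [h1]
    exact S.mul_mem hs (hb _ ih)

/-- The key step for one element. -/
private theorem LKK_key (hEXA : S_EXA.{u}) (hPFL : S_PFL.{u}) (p m : ℕ) [Fact p.Prime]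
    (R : Type u) [Ring R] [Algebra (ZMod p) R] (J : Submodule (ZMod p) R)
    (A : Type u) [Group A] (ρ : A →* R) (hJ : NilJ p m J) (hρJ : ∀ a, ρ a - 1 ∈ J)
    (q : (ZMod p)[X]) (hq : LogP p m q)
    (hlog : ∀ g : R, g - 1 ∈ J → aeval (g - 1) q ∈ J ∧ tex p (aeval (g - 1) q) = g)
    (S : Subgroup A) (W : Submodule (ZMod p) R) (b : A) (x : R) (hW : IsLog p J ρ S W)
    (hb : ∀ s ∈ S, b * s * b⁻¹ ∈ S) (hx : x ∈ J) (hxb : tex p x = ρ b) (s : A) (hs : s ∈ S)
    (y : R) (hy : y ∈ J) (hyb : tex p y = ρ (s * b)) : y - x ∈ W := by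
  obtain ⟨pf1, pf2, pf3, pf4, pf5, pf6, pf7⟩ := hPFL p R
  have hm2 := hJ.two
  have hmm := LKK_two hJ
  obtain ⟨hlt, hp3⟩ := LKK_lt hJ
  have hnx : -x ∈ J := J.neg_mem hx
  have a1 := pf5 m y hm2 (by omega) (LKK_pow hJ hy)
  have a2 := pf5 m (-x) hm2 (by omega) (LKK_pow hJ hnx)
  have a3 := pf2 m m _ _ 1 y 1 (-x) (by omega) (by omega) a1 a2
  have a4 := pf1 1 (m + m) _ _ _ le_rfl (by omega) (pf4 (-1))
  have a5 := pf3 (m + m) _ _ _ _ _ _ a3 a4
  have e0 : (1 : R) * 1 + -1 = 0 := by rw [one_mul, add_neg_cancel]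
  have e1 : (1 : R) * -x + y * 1 + 0 = y - x := by
    rw [one_mul, mul_one, add_zero]
    abel
  rw [e0, e1] at a5
  have a6 := pf6 m (m + m) q _ (y - x) (by omega) (by omega) hq.zero hq.one hq.deg a5
  refine pf7 (m * (m + m)) _ 0 (y - x) W hp3 (by nlinarith) hlt ?_ a6
  intro N
  have hg : tex p ((N : ZMod p) • y) * tex p ((N : ZMod p) • -x) =
      ρ ((s * b) ^ N * b⁻¹ ^ N) := by
    rw [LKK_tex_smul hEXA hJ hy, LKK_tex_smul hEXA hJ hnx, hyb,
      LKK_tex_neg hEXA hJ ρ hx hxb, ← map_pow, ← map_pow, ← map_mul]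
  have hg' : tex p ((N : ZMod p) • y) * tex p ((N : ZMod p) • -x) + -1 =
      ρ ((s * b) ^ N * b⁻¹ ^ N) - 1 := by
    rw [hg, sub_eq_add_neg]
  change aeval (tex p ((N : ZMod p) • y) * tex p ((N : ZMod p) • -x) + -1) q ∈ W
  rw [hg', hW.2]
  obtain ⟨h1, h2⟩ := hlog _ (hρJ ((s * b) ^ N * b⁻¹ ^ N))
  exact ⟨h1, _, LKK_mem S b s hs hb N, h2⟩

/-- **LKK.** -/
theorem p_LKK : S_LKK.{u} := by
  intro hEXA hLOG hEXB hPFL p m _ R _ _ _ J A _ _ ρ hJ hρ hρJ S W b x hW hb hx hxb w hw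
  have hmm := LKK_two hJ
  obtain ⟨q, hq⟩ := hLOG p m hJ.two (by omega)
  obtain ⟨hexp, hlog⟩ := hEXB p m R J q hJ hq
  have key : ∀ w : W, ∃ (v : W) (s : A), s ∈ S ∧ tex p (w : R) = ρ s ∧
      tex p (x + v) = ρ (s * b) := by
    intro w
    obtain ⟨-, s, hs, hws⟩ := (hW.2 (w : R)).1 w.2
    obtain ⟨h1, h2⟩ := hlog _ (hρJ (s * b))
    have h3 := LKK_key hEXA hPFL p m R J A ρ hJ hρJ q hq hlog S W b x hW
      (fun s hs => (hb s hs).1) hx hxb s hs _ h1 h2
    refine ⟨⟨_, h3⟩, s, hs, hws, ?_⟩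
    rw [add_sub_cancel]
    exact h2
  choose f g hgS hg1 hg2 using key
  have hinj : Function.Injective f := by
    intro w w' h
    have h1 : ρ (g w * b) = ρ (g w' * b) := by
      rw [← hg2, ← hg2, h]
    have h2 : g w = g w' := mul_right_cancel (hρ h1)
    have h3 : tex p (w : R) = tex p (w' : R) := by
      rw [hg1, hg1, h2]
    have h4 := (hexp (w : R) (hW.1 w.2)).2
    have h5 := (hexp (w' : R) (hW.1 w'.2)).2
    rw [h3, h5] at h4
    exact Subtype.ext h4.symm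
  have hfin : Finite W := Finite.of_injective (fun w : W => (w : R)) Subtype.val_injective
  obtain ⟨w', hw'⟩ := Finite.surjective_of_injective hinj ⟨w, hw⟩
  refine ⟨g w', hgS w', ?_⟩
  rw [← hg2 w', hw']

end MP_b83a82_al.LP
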