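import Pool.Agent.Lib.MP_b83a82_al.LP.Stm3

set_option autoImplicit false

/-!
# Piece LM2
-/

open Module

namespace MP_b83a82_al.LP

universe u

/-- the faithful quotient. -/
private theorem LM2_quot (p : ℕ) [Fact p.Prime] {A : Type u} [Group A] [Finite A]
    (hA : IsPGroup p A) {V : Type u} [AddCommGroup V] [Module (ZMod p) V]
    (ρ : A →* Module.End (ZMod p) V) {a : ℕ} (ha : RkLE p (⊤ : Subgroup A) a) :
    ∃ (Q : Type u) (_ : Group Q) (_ : Finite Q) (ρ' : Q →* Module.End (ZMod p) V),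
      IsPGroup p Q ∧ RkLE p (⊤ : Subgroup Q) a ∧ Function.Injective ρ' ∧
      ρ.ker.index = Nat.card Q := by
  refine ⟨A ⧸ ρ.ker, inferInstance, inferInstance, QuotientGroup.lift ρ.ker ρ le_rfl,
    hA.to_quotient ρ.ker, H82.RkLE_quot ha ρ.ker, ?_, Subgroup.index_eq_card _⟩
  intro x y h
  induction x using QuotientGroup.induction_on with
  | H x =>
  induction y using QuotientGroup.induction_on with
  | H y =>
    rw [QuotientGroup.lift_mk, QuotientGroup.lift_mk] at h
    rw [QuotientGroup.eq, MonoidHom.mem_ker, map_mul, ← h, ← map_mul, inv_mul_cancel, map_one]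

theorem p_LM2 : S_LM2.{u} := by
  intro p _ A _ _ hA V _ _ _ _ ρ a n B hLB ha hn j
  obtain ⟨Q, _, _, ρ', hQ, haQ, hinj, hidx⟩ := LM2_quot p hA ρ ha
  rw [hidx]
  refine H82.lin_step p hQ ρ' hinj haQ hn j ⊥ inferInstance ?_ (hLB Q hQ haQ)
  intro x hx y _
  rw [Subgroup.mem_bot.1 hx, one_mul, mul_one]

end MP_b83a82_al.LP
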