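import Pool.Agent.Lib.MP_b83a82_al.LP.Stm3

/-!
# LARGE PRIMES, piece LOG: the polynomial logarithm
-/

set_option autoImplicit false

open Polynomial

namespace MP_b83a82_al.LP

private theorem LOG_tex (p : ℕ) [Fact p.Prime] :
    ∃ u : (ZMod p)[X], tex p (X : (ZMod p)[X]) - 1 = X + X ^ 2 * u := by
  have hp : 2 ≤ p := (Fact.out : p.Prime).two_le
  obtain ⟨k, hk⟩ : ∃ k, p = k + 2 := ⟨p - 2, by omega⟩
  refine ⟨∑ j ∈ Finset.range k, (((j + 1 + 1).factorial : ZMod p)⁻¹) • (X : (ZMod p)[X]) ^ j, ?_⟩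
  have h1 : tex p (X : (ZMod p)[X]) = ∑ j ∈ Finset.range (k + 2),
      ((j.factorial : ZMod p)⁻¹) • (X : (ZMod p)[X]) ^ j := by
    unfold tex
    rw [← hk]
  rw [h1, Finset.sum_range_succ', Finset.sum_range_succ', Finset.mul_sum]
  have h2 : ∀ j ∈ Finset.range k, (((j + 1 + 1).factorial : ZMod p)⁻¹) •
      (X : (ZMod p)[X]) ^ (j + 1 + 1) =
      X ^ 2 * ((((j + 1 + 1).factorial : ZMod p)⁻¹) • (X : (ZMod p)[X]) ^ j) := by
    intro j _
    rw [mul_smul_comm]
    congr 1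
    ring
  rw [Finset.sum_congr rfl h2]
  simp
  ring

private theorem LOG_pow (p : ℕ) [Fact p.Prime] (u : (ZMod p)[X]) (m : ℕ) :
    ∃ v : (ZMod p)[X], (X + X ^ 2 * u) ^ m = X ^ m + X ^ (m + 1) * v := by
  induction m with
  | zero => exact ⟨0, by simp⟩
  | succ m ih =>
    obtain ⟨v, hv⟩ := ih
    refine ⟨v + u + X * u * v, ?_⟩
    rw [pow_succ, hv]
    ring

/-- **LOG.** -/
theorem p_LOG : S_LOG := by
  intro p m _ hm
  obtain ⟨u, hu⟩ := LOG_tex p
  induction m, hm using Nat.le_induction with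
  | base =>
    intro _
    refine ⟨X, by simp, by simp, ?_, u, ?_⟩
    · exact natDegree_X_le.trans (by norm_num)
    · rw [X_comp, hu]
  | succ m hm ih =>
    intro hmp
    obtain ⟨q, hq⟩ := ih (by omega)
    obtain ⟨r, hr⟩ := hq.eq
    obtain ⟨v, hv⟩ := LOG_pow p u m
    obtain ⟨r', hr'⟩ : ∃ r' : (ZMod p)[X], r = C (r.coeff 0) + X * r' :=
      ⟨r.divX, by rw [mul_comm, add_comm]; exact (divX_mul_X_add r).symm⟩
    refine ⟨q - C (r.coeff 0) * X ^ m, ?_, ?_, ?_, r' - C (r.coeff 0) * v, ?_⟩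
    · rw [coeff_sub, coeff_C_mul, coeff_X_pow, if_neg (by omega), hq.zero]
      simp
    · rw [coeff_sub, coeff_C_mul, coeff_X_pow, if_neg (by omega), hq.one]
      simp
    · refine (natDegree_sub_le _ _).trans (max_le (hq.deg.trans (by omega)) ?_)
      exact (natDegree_C_mul_X_pow_le _ _).trans (by omega)
    · rw [sub_comp, hr, mul_comp, C_comp, X_pow_comp, hu, hv]
      calc X + X ^ m * r - C (r.coeff 0) * (X ^ m + X ^ (m + 1) * v)
          = X + X ^ m * (r - C (r.coeff 0)) - X ^ (m + 1) * (C (r.coeff 0) * v) := by ring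
        _ = X + X ^ m * (X * r') - X ^ (m + 1) * (C (r.coeff 0) * v) := by
            have : r - C (r.coeff 0) = X * r' := by
              rw [sub_eq_iff_eq_add, add_comm]; exact hr'
            rw [this]
        _ = X + X ^ (m + 1) * (r' - C (r.coeff 0) * v) := by ring

end MP_b83a82_al.LP
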