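import Pool.Agent.Lib.MP_b83a82_al.LP.Stm3

set_option autoImplicit false

/-! # LARGE PRIMES, piece ML2 -/

open Module
open scoped commutatorElement

namespace MP_b83a82_al.LP

open MP_b83a82_al.H82

universe u

private theorem ML2_elsec {G : Type u} [Group G] {p : ℕ} {M U : Subgroup G}
    (hMc : ∀ x ∈ M, ∀ y ∈ M, x * y = y * x) (hU : ∀ x, x ∈ U ↔ x ∈ M ∧ x ^ p = 1) :
    ElSec p (⊥ : Subgroup G) U := by
  refine ⟨bot_le, ?_, ?_⟩
  · intro x hx
    rw [Subgroup.mem_bot]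
    exact ((hU x).1 hx).2
  · intro x hx y hy
    rw [Subgroup.mem_bot, commutatorElement_eq_one_iff_mul_comm]
    exact hMc x ((hU x).1 hx).1 y ((hU y).1 hy).1

private theorem ML2_normal {G : Type u} [Group G] {p : ℕ} {M U : Subgroup G}
    (hMn : M.Normal) (hU : ∀ x, x ∈ U ↔ x ∈ M ∧ x ^ p = 1) : U.Normal := by
  constructor
  intro x hx g
  rw [hU] at hx ⊢
  refine ⟨hMn.conj_mem x hx.1 g, ?_⟩
  rw [conj_pow, hx.2, mul_one, mul_inv_cancel]

theorem p_ML2 : S_ML2.{u} := by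
  intro hCI hSB G _ _ p hp hG A B hAB a b B' hLB hA hB
  obtain ⟨d, hd, Y, X, hY, hX, hS, hYX⟩ := exists_d hG
  have hdb : d ≤ b + 22 * a + 2 * B' :=
    hSB G p hG A B hAB a b B' hLB hA hB Y X hY hX hS d hYX
  obtain ⟨M, hM, -⟩ := exists_maxAb p (⊥ : Subgroup G) inferInstance
    (by
      intro x hx y hy
      rw [Subgroup.mem_bot] at hx hy
      rw [hx, hy])
    (by
      intro x hx
      rw [Subgroup.mem_bot] at hx
      rw [hx, one_pow])
  have hMn : M.Normal := hM.normal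
  have hbn : (⊥ : Subgroup G).Normal := inferInstance
  have hcom : ∀ x ∈ M, ∀ x' ∈ M, ⁅x, x'⁆ ∈ (⊥ : Subgroup G) := by
    intro x hx y hy
    rw [Subgroup.mem_bot, commutatorElement_eq_one_iff_mul_comm]
    exact hM.comm x hx y hy
  have hU : ∀ x, x ∈ rootS p hbn hcom ↔ x ∈ M ∧ x ^ p = 1 := by
    intro x
    rw [mem_rootS, Subgroup.mem_bot]
  generalize rootS p hbn hcom = U at hU
  have hUn : U.Normal := ML2_normal hMn hU
  have hUd : Nat.card U ≤ p ^ d := by
    have := hd ⊥ U hbn hUn (ML2_elsec hM.comm hU)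
    rwa [Subgroup.relIndex_bot_left] at this
  have hcidx := hCI G p hG A a B' d hLB hA M U hM hU hUd
  intro K0 H _ hKH
  have hrc := (rank_cent hG hM hU hKH).trans hUd
  have hCn : (Subgroup.centralizer (M : Set G)).Normal := inferInstance
  generalize Subgroup.centralizer (M : Set G) = C at hcidx hrc hCn
  have hsi := sup_index hCn hB hKH
  have hTidx : (B ⊔ C).index ≤ p ^ (6 * a + B' + 2 * d) := by
    rw [← Subgroup.relIndex_top_right]
    refine (relIndex_le_of_cover (U := A) le_top ?_).trans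
      ((relIndex_anti_left le_sup_right A).trans hcidx)
    intro t _
    obtain ⟨a, ha, b, hb, rfl⟩ := hAB t
    refine ⟨a, ha, ?_⟩
    have : a⁻¹ * (a * b) = b := by group
    rw [this]
    exact Subgroup.mem_sup_left hb
  calc K0.relIndex H ≤ (K0 ⊔ C).relIndex (H ⊔ C) * (K0 ⊓ C).relIndex (H ⊓ C) :=
        relIndex_le_sup_mul_inf hKH.1 C
    _ ≤ (p ^ b * p ^ (6 * a + B' + 2 * d)) * p ^ d :=
        Nat.mul_le_mul (hsi.trans (Nat.mul_le_mul_left _ hTidx)) hrc
    _ = p ^ (b + (6 * a + B' + 2 * d) + d) := by rw [← pow_add, ← pow_add]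
    _ ≤ p ^ (4 * b + 72 * a + 7 * B') := by
        refine Nat.pow_le_pow_right hp.out.pos ?_
        omega

end MP_b83a82_al.LP
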