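import Pool.Agent.Lib.MP_b83a82_al.LP.Stm1

set_option autoImplicit false

/-!
# LARGE PRIMES, piece OFF: off-diagonal entries for equal `d`
-/

open Matrix

namespace MP_b83a82_al.LP

variable {n : ℕ}

/-- the vector `e_x - 2 ω e_y` -/
private noncomputable def offW (x y : Fin n) (ω : ℂ) : Fin n → ℂ :=
  fun a => (if a = x then 1 else 0) - 2 * ω * (if a = y then 1 else 0)

/-- the reflection in the hyperplane orthogonal to `offW` -/
private noncomputable def offV (x y : Fin n) (ω : ℂ) : Matrix (Fin n) (Fin n) ℂ :=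
  1 - (2 / 5 : ℂ) • vecMulVec (offW x y ω) (star (offW x y ω))

private theorem off_dot (x y : Fin n) (hxy : x ≠ y) (ω : ℂ) (hω : star ω * ω = 1) :
    star (offW x y ω) ⬝ᵥ offW x y ω = 5 := by
  have h : ∀ a : Fin n, star (offW x y ω) a * offW x y ω a =
      (if a = x then 1 else 0) + 4 * (if a = y then 1 else 0) := by
    intro a
    unfold offW
    simp only [Pi.star_apply]
    by_cases h1 : a = x
    · have h2 : a ≠ y := by rw [h1]; exact hxy
      simp [h1, hxy]
    · by_cases h2 : a = y
      · have h3 : y ≠ x := hxy.symm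
        simp only [h2, h3, if_false, if_true, zero_sub, mul_one, star_neg, star_mul']
        have h4 : star (2 : ℂ) = 2 := by simp
        rw [h4]
        linear_combination 4 * hω
      · simp [h1, h2]
  unfold dotProduct
  rw [Finset.sum_congr rfl fun a _ => h a, Finset.sum_add_distrib, ← Finset.mul_sum]
  simp
  norm_num

private theorem off_herm (x y : Fin n) (ω : ℂ) : (offV x y ω)ᴴ = offV x y ω := by
  unfold offV
  rw [conjTranspose_sub, conjTranspose_one, conjTranspose_smul, conjTranspose_vecMulVec, star_star]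
  congr 2
  simp

private theorem off_un (x y : Fin n) (hxy : x ≠ y) (ω : ℂ) (hω : star ω * ω = 1) :
    Un (offV x y ω) := by
  have h : offV x y ω * offV x y ω = 1 := by
    unfold offV
    set W := vecMulVec (offW x y ω) (star (offW x y ω)) with hW
    have h1 : W * W = (5 : ℂ) • W := by
      rw [hW, vecMulVec_mul_vecMulVec, off_dot x y hxy ω hω, vecMulVec_smul]
    rw [sub_mul, mul_sub, mul_sub, one_mul, one_mul, mul_one, smul_mul_smul_comm, h1, smul_smul]
    module
  unfold Un
  rw [off_herm]
  exact ⟨h, h⟩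

private theorem off_supp (x y : Fin n) (ω : ℂ) (d : Fin n → ℝ) (hd : d x = d y) (a b : Fin n)
    (h : offV x y ω a b ≠ 0) : d a = d b := by
  by_contra hab
  apply h
  have hne : a ≠ b := fun h => hab (by rw [h])
  unfold offV
  rw [Matrix.sub_apply, one_apply_ne hne, Matrix.smul_apply, vecMulVec_apply]
  have h1 : offW x y ω a * star (offW x y ω) b = 0 := by
    unfold offW
    simp only [Pi.star_apply]
    by_cases h1 : a = x
    · by_cases h2 : b = x
      · exact absurd (h1.trans h2.symm) hne
      · by_cases h3 : b = y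
        · exact absurd (by rw [h1, h3, hd]) hab
        · simp [h2, h3]
    · by_cases h4 : a = y
      · by_cases h2 : b = x
        · exact absurd (by rw [h4, h2, hd]) hab
        · by_cases h3 : b = y
          · exact absurd (h4.trans h3.symm) hne
          · simp [h2, h3]
      · simp [h1, h4]
  rw [h1]
  simp

private theorem off_col (x y : Fin n) (hxy : x ≠ y) (ω : ℂ) (a : Fin n) :
    offV x y ω a x = (if a = x then 3 / 5 else 0) + (if a = y then 4 / 5 * ω else 0) := by
  unfold offV
  rw [Matrix.sub_apply, Matrix.smul_apply, vecMulVec_apply]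
  have h1 : star (offW x y ω) x = 1 := by
    unfold offW
    simp [hxy]
  rw [h1]
  unfold offW
  by_cases h2 : a = x
  · have h3 : a ≠ y := by rw [h2]; exact hxy
    subst h2
    simp [hxy]
    norm_num
  · rw [one_apply_ne h2]
    by_cases h3 : a = y
    · have h4 : y ≠ x := hxy.symm
      simp only [h3, h4, if_false, if_true, smul_eq_mul]
      ring
    · simp [h2, h3]

private theorem off_sc (c : SC n ℂ) (d : Fin n → ℝ) (v : Matrix (Fin n) (Fin n) ℂ)
    (hv : ∀ a b, v a b ≠ 0 → d a = d b) : sc (bc c v vᴴ) d = bc (sc c d) v vᴴ := by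
  funext i j l
  unfold sc bc
  simp only [Finset.sum_mul]
  refine Finset.sum_congr rfl fun a _ => Finset.sum_congr rfl fun b _ =>
    Finset.sum_congr rfl fun s _ => ?_
  by_cases h1 : v a i = 0
  · rw [h1]; ring
  by_cases h2 : v b j = 0
  · rw [h2]; ring
  by_cases h3 : v s l = 0
  · rw [conjTranspose_apply, h3, star_zero]; ring
  rw [hv a i h1, hv b j h2, hv s l h3]
  ring

private theorem off_alt (c : SC n ℂ) (hc : ∀ i j l, c i j l = -c j i l)
    (g h : Matrix (Fin n) (Fin n) ℂ) (i j l : Fin n) : bc c g h i j l = -bc c g h j i l := by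
  unfold bc
  rw [Finset.sum_comm, ← Finset.sum_neg_distrib]
  refine Finset.sum_congr rfl fun b _ => ?_
  rw [← Finset.sum_neg_distrib]
  refine Finset.sum_congr rfl fun a _ => ?_
  rw [← Finset.sum_neg_distrib]
  refine Finset.sum_congr rfl fun s _ => ?_
  rw [hc a b s]
  ring

private theorem off_quad (Q v : Matrix (Fin n) (Fin n) ℂ) (x y : Fin n) (ω : ℂ)
    (hv : ∀ a, v a x = (if a = x then 3 / 5 else 0) + (if a = y then 4 / 5 * ω else 0)) :
    (vᴴ * Q * v) x x = 9 / 25 * Q x x + 12 / 25 * (ω * Q x y + star ω * Q y x) +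
      16 / 25 * (star ω * ω) * Q y y := by
  rw [Matrix.mul_apply]
  have h1 : ∀ b, (vᴴ * Q) x b = 3 / 5 * Q x b + 4 / 5 * star ω * Q y b := by
    intro b
    rw [Matrix.mul_apply]
    have h2 : ∀ a, vᴴ x a * Q a b = (if a = x then 3 / 5 * Q a b else 0) +
        (if a = y then 4 / 5 * star ω * Q a b else 0) := by
      intro a
      rw [conjTranspose_apply, hv a, star_add]
      have h3 : star (4 / 5 * ω) = 4 / 5 * star ω := by simp
      have h4 : star (3 / 5 : ℂ) = 3 / 5 := by simp
      split_ifs <;> simp only [h3, h4, star_zero, add_zero, zero_add, zero_mul, add_mul]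
    rw [Finset.sum_congr rfl fun a _ => h2 a, Finset.sum_add_distrib]
    simp
  have h2 : ∀ b, (vᴴ * Q) x b * v b x =
      (if b = x then (3 / 5 * Q x b + 4 / 5 * star ω * Q y b) * (3 / 5) else 0) +
      (if b = y then (3 / 5 * Q x b + 4 / 5 * star ω * Q y b) * (4 / 5 * ω) else 0) := by
    intro b
    rw [h1 b, hv b]
    split_ifs <;> ring
  rw [Finset.sum_congr rfl fun b _ => h2 b, Finset.sum_add_distrib]
  simp only [Finset.sum_ite_eq', Finset.mem_univ, if_true]
  ring

theorem p_OFF : S_OFF := by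
  intro hD hU hB n c κ u d hc hmin hpos x y hxy hd
  obtain ⟨hu, hsum, hle⟩ := hmin
  have hn : 0 < n := Fin.pos x
  set N : ℝ := nrm (ud c u d) with hN
  set Q : Matrix (Fin n) (Fin n) ℂ := mQ (ud c u d) with hQ
  have key : ∀ v : Matrix (Fin n) (Fin n) ℂ, Un v → (∀ a b, v a b ≠ 0 → d a = d b) →
      ∀ z, (vᴴ * Q * v) z z = ((-N / n + κ * N * d z : ℝ) : ℂ) := by
    intro v hv hs z
    have hun : Un (u * v) := by
      refine ⟨?_, ?_⟩
      · rw [conjTranspose_mul, Matrix.mul_assoc, ← Matrix.mul_assoc uᴴ, hu.1, Matrix.one_mul, hv.1]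
      · rw [conjTranspose_mul, Matrix.mul_assoc, ← Matrix.mul_assoc v, hv.2, Matrix.one_mul, hu.2]
    have h1 : ud c (u * v) d = bc (ud c u d) v vᴴ := by
      unfold ud
      rw [← off_sc _ d v hs, (hB ℂ n c u uᴴ).2.1 v vᴴ, conjTranspose_mul]
    obtain ⟨-, -, h2⟩ := hU n (ud c u d)
    obtain ⟨-, -, h3, h4⟩ := h2 v hv
    have h5 : nrm (ud c (u * v) d) = N := by rw [h1, h4]
    have h6 : mQ (ud c (u * v) d) = vᴴ * Q * v := by rw [h1, h3]
    have h7 := hD n (bc c (u * v) (u * v)ᴴ) κ d hn (off_alt c hc _ _) (hpos _ hun) hsum (by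
      intro d' hd'
      have h8 := hle (u * v) d' hun hd'
      unfold Ph at h8
      rw [← hN, ← h5] at h8
      exact h8) z
    change mQ (ud c (u * v) d) z z = ((-(nrm (ud c (u * v) d)) / n +
      κ * nrm (ud c (u * v) d) * d z : ℝ) : ℂ) at h7
    rw [h5, h6] at h7
    exact h7
  have k0 : ∀ z, Q z z = ((-N / n + κ * N * d z : ℝ) : ℂ) := by
    intro z
    have h := key 1 ⟨by simp, by simp⟩ (fun a b hab => by
      by_cases h : a = b
      · rw [h]
      · exact absurd (one_apply_ne h) hab) z
    simpa using h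
  have hyy : Q y y = Q x x := by rw [k0, k0, hd]
  have kω : ∀ ω : ℂ, star ω * ω = 1 → ω * Q x y + star ω * Q y x = 0 := by
    intro ω hω
    have h := key (offV x y ω) (off_un x y hxy ω hω) (off_supp x y ω d hd) x
    rw [off_quad Q _ x y ω (off_col x y hxy ω), ← k0 x, hyy, hω] at h
    linear_combination (25 / 12 : ℂ) * h
  have h1 := kω 1 (by simp)
  have h2 := kω Complex.I (by simp)
  simp only [star_one, one_mul] at h1
  have h3 : star Complex.I = -Complex.I := Complex.conj_I
  rw [h3] at h2
  have h4 : Q x y - Q y x = 0 := by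
    have h5 : Complex.I * (Q x y - Q y x) = 0 := by linear_combination h2
    exact (mul_eq_zero.mp h5).resolve_left Complex.I_ne_zero
  linear_combination (1 / 2 : ℂ) * h1 + (1 / 2 : ℂ) * h4

end MP_b83a82_al.LP
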