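import Pool.Agent.Lib.MP_b83a82_al.LP.Stm2

set_option autoImplicit false

/-!
# LARGE PRIMES, piece OPT: existence of an optimal filtration
-/

open Matrix Module

namespace MP_b83a82_al.LP

/-- `Z` contains the support of some `bc c g h` -/
private def OPT_R {n : ℕ} {k : Type} [Field k] (c : SC n k) (Z : Set (Fin n × Fin n × Fin n)) :
    Prop := ∃ g h : Matrix (Fin n) (Fin n) k, g * h = 1 ∧
      ∀ i j l, bc c g h i j l ≠ 0 → (i, j, l) ∈ Z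

private def OPT_K {n : ℕ} (Z : Set (Fin n × Fin n × Fin n)) : Set (Fin n → ℝ) :=
  {w | ∑ i, w i ^ 2 = 1 ∧ ∀ i j l, (i, j, l) ∈ Z → w i + w j ≤ w l}

private theorem OPT_compact {n : ℕ} (Z : Set (Fin n × Fin n × Fin n)) : IsCompact (OPT_K Z) := by
  have hc : IsCompact (Set.pi Set.univ (fun _ : Fin n => Set.Icc (-1 : ℝ) 1)) :=
    isCompact_univ_pi fun _ => isCompact_Icc
  refine hc.of_isClosed_subset ?_ ?_
  · have h1 : OPT_K Z = {w : Fin n → ℝ | ∑ i, w i ^ 2 = 1} ∩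
        ⋂ i, ⋂ j, ⋂ l, ⋂ _ : (i, j, l) ∈ Z, {w : Fin n → ℝ | w i + w j ≤ w l} := by
      ext w
      simp only [OPT_K, Set.mem_inter_iff, Set.mem_iInter, Set.mem_ofPred_eq]
    rw [h1]
    refine IsClosed.inter ?_ ?_
    · exact isClosed_eq (by fun_prop) continuous_const
    · refine isClosed_iInter fun i => isClosed_iInter fun j => isClosed_iInter fun l =>
        isClosed_iInter fun _ => ?_
      exact isClosed_le (by fun_prop) (by fun_prop)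
  · intro w hw
    rw [Set.mem_univ_pi]
    intro i
    have h1 : w i ^ 2 ≤ 1 := by
      rw [← hw.1]
      exact Finset.single_le_sum (f := fun i => w i ^ 2) (fun j _ => sq_nonneg (w j))
        (Finset.mem_univ i)
    rw [Set.mem_Icc]
    constructor <;> nlinarith

private theorem OPT_scale {n : ℕ} {k : Type} [Field k] (c : SC n k)
    (g h : Matrix (Fin n) (Fin n) k) (w : Fin n → ℝ) (hgh : g * h = 1) (hw : Adm (bc c g h) w)
    (hs : 0 < ∑ i, w i) : ∃ t : ℝ, 0 < t ∧ t ^ 2 = ∑ i, w i ^ 2 ∧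
      (fun i => w i / t) ∈ ⋃ Z ∈ {Z | OPT_R c Z}, OPT_K Z := by
  have hpos : 0 < ∑ i, w i ^ 2 := by
    refine lt_of_le_of_ne (Finset.sum_nonneg fun i _ => sq_nonneg (w i)) ?_
    intro h0
    have h1 := (Finset.sum_eq_zero_iff_of_nonneg (fun i _ => sq_nonneg (w i))).mp h0.symm
    have h2 : ∑ i, w i = 0 := by
      refine Finset.sum_eq_zero fun i hi => ?_
      have := h1 i hi
      exact pow_eq_zero_iff (two_ne_zero) |>.mp this
    linarith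
  refine ⟨√(∑ i, w i ^ 2), Real.sqrt_pos.mpr hpos, Real.sq_sqrt hpos.le, ?_⟩
  have ht : 0 < √(∑ i, w i ^ 2) := Real.sqrt_pos.mpr hpos
  rw [Set.mem_iUnion₂]
  refine ⟨{z | bc c g h z.1 z.2.1 z.2.2 ≠ 0}, ⟨g, h, hgh, fun i j l hb => hb⟩, ?_, ?_⟩
  · have h1 : ∑ i, (w i / √(∑ i, w i ^ 2)) ^ 2 = (∑ i, w i ^ 2) / (√(∑ i, w i ^ 2)) ^ 2 := by
      rw [Finset.sum_div]
      refine Finset.sum_congr rfl fun i _ => ?_
      rw [div_pow]
    rw [h1, Real.sq_sqrt hpos.le, div_self hpos.ne']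
  · intro i j l hb
    have h1 := hw i j l hb
    rw [← add_div]
    exact div_le_div_of_nonneg_right h1 ht.le

theorem p_OPT : S_OPT := by
  intro k _ n c hn hgood
  obtain ⟨g0, h0, hgh0, w0, hw0, hadm0⟩ := hgood
  have hcomp : IsCompact (⋃ Z ∈ {Z | OPT_R c Z}, OPT_K Z) :=
    (Set.toFinite {Z | OPT_R c Z}).isCompact_biUnion fun Z _ => OPT_compact Z
  obtain ⟨t0, ht0, ht0', hmem0⟩ := OPT_scale c g0 h0 w0 hgh0 hadm0 hw0.1
  obtain ⟨w, hwm, hmax⟩ := hcomp.exists_isMaxOn ⟨_, hmem0⟩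
    (f := fun w : Fin n → ℝ => ∑ i, w i) (by fun_prop)
  rw [Set.mem_iUnion₂] at hwm
  obtain ⟨Z, ⟨g, h, hgh, hZ⟩, hw1, hw2⟩ := hwm
  have hkey : ∀ (g' h' : Matrix (Fin n) (Fin n) k) (w' : Fin n → ℝ), g' * h' = 1 →
      Adm (bc c g' h') w' → 0 < ∑ i, w' i →
        0 < ∑ i, w i ∧ (∑ i, w' i) ^ 2 ≤ (∑ i, w i) ^ 2 * ∑ i, w' i ^ 2 := by
    intro g' h' w' hgh' hadm' hs'
    obtain ⟨t, ht, ht', hmem⟩ := OPT_scale c g' h' w' hgh' hadm' hs'
    have h1 : ∑ i, w' i / t ≤ ∑ i, w i := hmax hmem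
    rw [← Finset.sum_div, div_le_iff₀ ht] at h1
    have h2 : 0 < (∑ i, w i) * t := lt_of_lt_of_le hs' h1
    refine ⟨(pos_iff_pos_of_mul_pos h2).mpr ht, ?_⟩
    calc (∑ i, w' i) ^ 2 ≤ ((∑ i, w i) * t) ^ 2 := pow_le_pow_left₀ hs'.le h1 2
      _ = (∑ i, w i) ^ 2 * ∑ i, w' i ^ 2 := by rw [mul_pow, ht']
  obtain ⟨hs, hq⟩ := hkey g0 h0 w0 hgh0 hadm0 hw0.1
  refine ⟨g, h, w, hgh, fun i j l hb => hw2 i j l (hZ i j l hb), ⟨hs, ?_⟩, ?_⟩
  · rw [hw1, mul_one]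
    have h1 := hw0.2
    have h2 : (n : ℝ) * ∑ i, w0 i ^ 2 ≤ 34 * (∑ i, w i) ^ 2 * ∑ i, w0 i ^ 2 := by
      linarith
    have h3 : 0 < ∑ i, w0 i ^ 2 := by
      rw [← ht0']
      positivity
    exact le_of_mul_le_mul_right h2 h3
  · intro g' h' w' hgh' hadm' hs'
    rw [hw1, mul_one]
    exact (hkey g' h' w' hgh' hadm' hs').2

end MP_b83a82_al.LP
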