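import Pool.Agent.Lib.MP_b83a82_al.LP.Stm1

set_option autoImplicit false

/-!
# LARGE PRIMES, piece ROT (helper9): off-diagonal entries, different `d`
-/

open Matrix

namespace MP_b83a82_al.LP

variable {n : ℕ}

private theorem ROT_alt (c : SC n ℂ) (g h : Matrix (Fin n) (Fin n) ℂ)
    (hc : ∀ i j l, c i j l = -c j i l) (i j l : Fin n) : bc c g h i j l = -bc c g h j i l := by
  simp only [bc]
  rw [Finset.sum_comm]
  simp only [← Finset.sum_neg_distrib]
  refine Finset.sum_congr rfl fun a _ => Finset.sum_congr rfl fun b _ =>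
    Finset.sum_congr rfl fun s _ => ?_
  rw [hc b a s]
  ring

private theorem ROT_altud (c : SC n ℂ) (u : Matrix (Fin n) (Fin n) ℂ) (d : Fin n → ℝ)
    (hc : ∀ i j l, c i j l = -c j i l) (i j l : Fin n) : ud c u d i j l = -ud c u d j i l := by
  simp only [ud, sc]
  rw [ROT_alt c u uᴴ hc i j l, add_comm (d i) (d j)]
  ring

/-- the diagonal matrix of the `exp (d i)` -/
private noncomputable def ROT_D (d : Fin n → ℝ) : Matrix (Fin n) (Fin n) ℂ :=
  diagonal fun i => ((Real.exp (d i) : ℝ) : ℂ)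

private theorem ROT_Dinv (d : Fin n → ℝ) : ROT_D d * ROT_D (fun i => -d i) = 1 := by
  unfold ROT_D
  rw [diagonal_mul_diagonal, ← diagonal_one]
  congr 1
  funext i
  rw [← Complex.ofReal_mul, ← Real.exp_add]
  simp

private theorem ROT_Dinv' (d : Fin n → ℝ) : ROT_D (fun i => -d i) * ROT_D d = 1 := by
  unfold ROT_D
  rw [diagonal_mul_diagonal, ← diagonal_one]
  congr 1
  funext i
  rw [← Complex.ofReal_mul, ← Real.exp_add]
  simp

private theorem ROT_sc (hB : S_BCL) (c : SC n ℂ) (d : Fin n → ℝ) :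
    sc c d = bc c (ROT_D d) (ROT_D fun i => -d i) := by
  unfold ROT_D
  rw [(hB ℂ n c 1 1).2.2.2.2]
  funext i j l
  simp only [sc]
  rw [show d i + d j - d l = d i + d j + -d l by ring, Real.exp_add, Real.exp_add]
  push_cast
  ring

private theorem ROT_ud (hB : S_BCL) (c : SC n ℂ) (u W : Matrix (Fin n) (Fin n) ℂ)
    (d : Fin n → ℝ) :
    ud c (u * W) d = bc (ud c u d) (ROT_D (fun i => -d i) * W * ROT_D d)
      (ROT_D (fun i => -d i) * Wᴴ * ROT_D d) := by
  have h1 := ROT_Dinv d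
  have key : ∀ v : Matrix (Fin n) (Fin n) ℂ, ud c v d =
      bc c (v * ROT_D d) (ROT_D (fun i => -d i) * vᴴ) := by
    intro v
    rw [ud, ROT_sc hB, (hB ℂ n c v vᴴ).2.1]
  rw [key, key, (hB ℂ n c _ _).2.1]
  have e1 : u * W * ROT_D d = u * ROT_D d * (ROT_D (fun i => -d i) * W * ROT_D d) := by
    calc u * W * ROT_D d = u * (ROT_D d * ROT_D (fun i => -d i)) * W * ROT_D d := by
          rw [h1, mul_one]
      _ = _ := by simp only [mul_assoc]
  have e2 : ROT_D (fun i => -d i) * (u * W)ᴴ =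
      ROT_D (fun i => -d i) * Wᴴ * ROT_D d * (ROT_D (fun i => -d i) * uᴴ) := by
    calc ROT_D (fun i => -d i) * (u * W)ᴴ
        = ROT_D (fun i => -d i) * Wᴴ * (ROT_D d * ROT_D (fun i => -d i)) * uᴴ := by
          rw [h1, mul_one, conjTranspose_mul, mul_assoc]
      _ = _ := by simp only [mul_assoc]
  rw [e1, e2]

/-- the projection to the plane of `e_x`, `e_y` -/
private def ROT_P (x y : Fin n) : Matrix (Fin n) (Fin n) ℂ :=
  Matrix.single x x 1 + Matrix.single y y 1

/-- the generator of the rotation -/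
private def ROT_J (x y : Fin n) (s : ℂ) : Matrix (Fin n) (Fin n) ℂ :=
  Matrix.single x y s - Matrix.single y x (star s)

/-- the rotation by `t` -/
private noncomputable def ROT_W (x y : Fin n) (s : ℂ) (t : ℝ) : Matrix (Fin n) (Fin n) ℂ :=
  1 + ((Real.cos t - 1 : ℝ) : ℂ) • ROT_P x y + ((Real.sin t : ℝ) : ℂ) • ROT_J x y s

private theorem ROT_PP {x y : Fin n} (hxy : x ≠ y) : ROT_P x y * ROT_P x y = ROT_P x y := by
  unfold ROT_P
  simp [mul_add, add_mul, Matrix.single_mul_single_of_ne, hxy, hxy.symm]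

private theorem ROT_PJ {x y : Fin n} (hxy : x ≠ y) (s : ℂ) :
    ROT_P x y * ROT_J x y s = ROT_J x y s := by
  unfold ROT_P ROT_J
  simp [mul_sub, add_mul, Matrix.single_mul_single_of_ne, hxy, hxy.symm]

private theorem ROT_JP {x y : Fin n} (hxy : x ≠ y) (s : ℂ) :
    ROT_J x y s * ROT_P x y = ROT_J x y s := by
  unfold ROT_P ROT_J
  simp only [mul_add, sub_mul, Matrix.single_mul_single_same, mul_one,
    Matrix.single_mul_single_of_ne _ _ _ _ hxy, Matrix.single_mul_single_of_ne _ _ _ _ hxy.symm]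
  abel

private theorem ROT_JJ {x y : Fin n} (hxy : x ≠ y) {s : ℂ} (hs : s * star s = 1) :
    ROT_J x y s * ROT_J x y s = -ROT_P x y := by
  have hs' : star s * s = 1 := by rw [mul_comm]; exact hs
  unfold ROT_P ROT_J
  simp only [mul_sub, sub_mul, Matrix.single_mul_single_same, hs, hs',
    Matrix.single_mul_single_of_ne _ _ _ _ hxy, Matrix.single_mul_single_of_ne _ _ _ _ hxy.symm]
  abel

private theorem ROT_Ph (x y : Fin n) : (ROT_P x y)ᴴ = ROT_P x y := by
  unfold ROT_P
  simp [Matrix.conjTranspose_add, Matrix.conjTranspose_single]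

private theorem ROT_Jh (x y : Fin n) (s : ℂ) : (ROT_J x y s)ᴴ = -ROT_J x y s := by
  unfold ROT_J
  simp [Matrix.conjTranspose_sub, Matrix.conjTranspose_single]

private theorem ROT_Wh (x y : Fin n) (s : ℂ) (t : ℝ) : (ROT_W x y s t)ᴴ =
    1 + ((Real.cos t - 1 : ℝ) : ℂ) • ROT_P x y - ((Real.sin t : ℝ) : ℂ) • ROT_J x y s := by
  unfold ROT_W
  rw [conjTranspose_add, conjTranspose_add, conjTranspose_one, conjTranspose_smul,
    conjTranspose_smul, ROT_Ph, ROT_Jh, smul_neg, ← sub_eq_add_neg]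
  have : ∀ r : ℝ, star ((r : ℝ) : ℂ) = r := fun r => Complex.conj_ofReal r
  rw [this, this]

private theorem ROT_Wun {x y : Fin n} (hxy : x ≠ y) {s : ℂ} (hs : s * star s = 1) (t : ℝ) :
    Un (ROT_W x y s t) := by
  have hcs : ((Real.cos t : ℝ) : ℂ) ^ 2 + ((Real.sin t : ℝ) : ℂ) ^ 2 = 1 := by
    rw [← Complex.ofReal_pow, ← Complex.ofReal_pow, ← Complex.ofReal_add, Real.cos_sq_add_sin_sq]
    rfl
  have h1 : ∀ a b : ℂ, (1 + (a - 1) • ROT_P x y + b • ROT_J x y s) *
      (1 + (a - 1) • ROT_P x y - b • ROT_J x y s) = 1 + (a ^ 2 + b ^ 2 - 1) • ROT_P x y := by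
    intro a b
    simp only [mul_add, add_mul, mul_sub, mul_one, one_mul, smul_mul_assoc, mul_smul_comm,
      ROT_PP hxy, ROT_PJ hxy, ROT_JP hxy, ROT_JJ hxy hs, smul_neg]
    module
  have h2 := h1 ((Real.cos t : ℝ) : ℂ) ((Real.sin t : ℝ) : ℂ)
  rw [hcs, sub_self, zero_smul, add_zero] at h2
  have h3 : ROT_W x y s t * (ROT_W x y s t)ᴴ = 1 := by
    rw [ROT_Wh]
    unfold ROT_W
    rw [Complex.ofReal_sub, Complex.ofReal_one]
    exact h2
  exact ⟨mul_eq_one_comm.1 h3, h3⟩

private theorem ROT_herm (c : SC n ℂ) : (mQ c)ᴴ = mQ c := by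
  have hA : (mA c)ᴴ = mA c := by
    unfold mA
    rw [conjTranspose_sum]
    simp [conjTranspose_mul]
  have hB : (mB c)ᴴ = mB c := by
    unfold mB
    rw [conjTranspose_sum]
    simp [conjTranspose_mul]
  unfold mQ
  rw [conjTranspose_sub, conjTranspose_smul, hA, hB]
  congr 2
  simp

private theorem ROT_ent (D D' : Fin n → ℂ) (W : Matrix (Fin n) (Fin n) ℂ) (i j : Fin n) :
    (diagonal D' * W * diagonal D) i j = D' i * W i j * D j := by
  rw [mul_diagonal, diagonal_mul]

private theorem ROT_derW (x y : Fin n) (s : ℂ) (i j : Fin n) :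
    HasDerivAt (fun t : ℝ => ROT_W x y s t i j) (ROT_J x y s i j) 0 := by
  have hc : HasDerivAt (fun t : ℝ => ((Real.cos t - 1 : ℝ) : ℂ)) ((-Real.sin 0 : ℝ) : ℂ) 0 :=
    ((Real.hasDerivAt_cos 0).sub_const 1).ofReal_comp
  have hs : HasDerivAt (fun t : ℝ => ((Real.sin t : ℝ) : ℂ)) ((Real.cos 0 : ℝ) : ℂ) 0 :=
    (Real.hasDerivAt_sin 0).ofReal_comp
  have h := ((hc.mul_const (ROT_P x y i j)).const_add ((1 : Matrix (Fin n) (Fin n) ℂ) i j)).add
    (hs.mul_const (ROT_J x y s i j))
  simp only [Real.sin_zero, neg_zero, Complex.ofReal_zero, zero_mul, Real.cos_zero,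
    Complex.ofReal_one, one_mul, zero_add] at h
  exact h

private theorem ROT_derWh (x y : Fin n) (s : ℂ) (i j : Fin n) :
    HasDerivAt (fun t : ℝ => (ROT_W x y s t)ᴴ i j) (-ROT_J x y s i j) 0 := by
  have hc : HasDerivAt (fun t : ℝ => ((Real.cos t - 1 : ℝ) : ℂ)) ((-Real.sin 0 : ℝ) : ℂ) 0 :=
    ((Real.hasDerivAt_cos 0).sub_const 1).ofReal_comp
  have hs : HasDerivAt (fun t : ℝ => ((Real.sin t : ℝ) : ℂ)) ((Real.cos 0 : ℝ) : ℂ) 0 :=
    (Real.hasDerivAt_sin 0).ofReal_comp
  have h := ((hc.mul_const (ROT_P x y i j)).const_add ((1 : Matrix (Fin n) (Fin n) ℂ) i j)).sub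
    (hs.mul_const (ROT_J x y s i j))
  simp only [Real.sin_zero, neg_zero, Complex.ofReal_zero, zero_mul, Real.cos_zero,
    Complex.ofReal_one, one_mul, zero_sub] at h
  have e : (fun t : ℝ => (ROT_W x y s t)ᴴ i j) = fun t : ℝ =>
      (1 : Matrix (Fin n) (Fin n) ℂ) i j + ((Real.cos t - 1 : ℝ) : ℂ) * ROT_P x y i j -
        ((Real.sin t : ℝ) : ℂ) * ROT_J x y s i j := by
    funext t
    rw [ROT_Wh]
    rfl
  rw [e]
  exact h

/-- the main step: the first order condition for the rotation with the phase `s` -/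
private theorem ROT_main (hD : R_DER) (hB : S_BCL) (c : SC n ℂ) (κ : ℝ)
    (u : Matrix (Fin n) (Fin n) ℂ) (d : Fin n → ℝ) (hc : ∀ i j l, c i j l = -c j i l)
    (hm : IsMin c κ u d) (hp : ∀ u' : Matrix (Fin n) (Fin n) ℂ, Un u' → 0 < nrm (ud c u' d))
    (x y : Fin n) (hxy : d x ≠ d y) (s : ℂ) (hs : s * star s = 1) :
    (star s * mQ (ud c u d) x y).re = 0 := by
  have hne : x ≠ y := fun h => hxy (by rw [h])
  obtain ⟨hu, hd, hmin⟩ := hm
  -- the norm along the rotation
  have hge : ∀ t : ℝ, nrm (ud c u d) ≤ nrm (ud c (u * ROT_W x y s t) d) := by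
    intro t
    have hW := ROT_Wun hne hs t
    have hU : Un (u * ROT_W x y s t) := by
      refine ⟨?_, ?_⟩
      · rw [conjTranspose_mul, mul_assoc, ← mul_assoc uᴴ, hu.1, one_mul, hW.1]
      · rw [conjTranspose_mul, mul_assoc, ← mul_assoc _ _ uᴴ, hW.2, one_mul, hu.2]
    have h1 := hmin _ d hU hd
    unfold Ph at h1
    exact (Real.log_le_log_iff (hp u hu) (hp _ hU)).1 (by linarith)
  set c' := ud c u d with hc'
  have hder := hD n c' (fun t => ROT_D (fun i => -d i) * ROT_W x y s t * ROT_D d)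
    (fun t => ROT_D (fun i => -d i) * (ROT_W x y s t)ᴴ * ROT_D d)
    (ROT_D (fun i => -d i) * ROT_J x y s * ROT_D d) (ROT_altud c u d hc)
    (by
      have : ROT_W x y s 0 = 1 := by simp [ROT_W]
      simp only [this, mul_one]
      exact ROT_Dinv' d)
    (by
      have : ROT_W x y s 0 = 1 := by simp [ROT_W]
      simp only [this, conjTranspose_one, mul_one]
      exact ROT_Dinv' d)
    (by
      intro i j
      unfold ROT_D
      simp only [ROT_ent]
      exact ((ROT_derW x y s i j).const_mul _).mul_const _)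
    (by
      intro i j
      unfold ROT_D
      simp only [ROT_ent]
      have h := ((ROT_derWh x y s i j).const_mul ((Real.exp (-d i) : ℝ) : ℂ)).mul_const
        ((Real.exp (d j) : ℝ) : ℂ)
      have e : -(((Real.exp (-d i) : ℝ) : ℂ) * ROT_J x y s i j * ((Real.exp (d j) : ℝ) : ℂ)) =
        ((Real.exp (-d i) : ℝ) : ℂ) * -ROT_J x y s i j * ((Real.exp (d j) : ℝ) : ℂ) := by ring
      rw [e]
      exact h)
  have hloc : IsLocalMin (fun t : ℝ => nrm (bc c'
      (ROT_D (fun i => -d i) * ROT_W x y s t * ROT_D d)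
      (ROT_D (fun i => -d i) * (ROT_W x y s t)ᴴ * ROT_D d))) 0 := by
    refine Filter.Eventually.of_forall fun t => ?_
    simp only
    rw [hc', ← ROT_ud hB c u (ROT_W x y s t) d, ← ROT_ud hB c u (ROT_W x y s 0) d]
    have : ROT_W x y s 0 = 1 := by simp [ROT_W]
    rw [this, mul_one]
    exact hge t
  have h0 := hloc.hasDerivAt_eq_zero hder
  have hQ : mQ c' y x = star (mQ c' x y) := by
    conv_lhs => rw [← ROT_herm c']
    rfl
  -- the trace
  have htr : trace (ROT_D (fun i => -d i) * ROT_J x y s * ROT_D d * mQ c') =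
      ((Real.exp (d y - d x) : ℝ) : ℂ) * (s * mQ c' y x) -
        ((Real.exp (d x - d y) : ℝ) : ℂ) * (star s * mQ c' x y) := by
    have e1 : ROT_D (fun i => -d i) * ROT_J x y s * ROT_D d =
        Matrix.single x y (((Real.exp (d y - d x) : ℝ) : ℂ) * s) -
          Matrix.single y x (((Real.exp (d x - d y) : ℝ) : ℂ) * star s) := by
      have ex : ∀ a b : ℝ, ((Real.exp (b - a) : ℝ) : ℂ) =
          ((Real.exp (-a) : ℝ) : ℂ) * ((Real.exp b : ℝ) : ℂ) := by
        intro a b
        rw [← Complex.ofReal_mul, ← Real.exp_add]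
        congr 2
        ring
      rw [ex (d x) (d y), ex (d y) (d x)]
      unfold ROT_D ROT_J
      ext i j
      rw [ROT_ent]
      simp only [Matrix.sub_apply, Matrix.single_apply]
      by_cases h1 : x = i ∧ y = j
      · obtain ⟨rfl, rfl⟩ := h1
        have h2 : ¬ (y = x ∧ x = y) := fun h => hne h.2
        simp only [h2, and_self, if_true, if_false, sub_zero]
        ring
      · rw [if_neg h1, if_neg h1]
        by_cases h2 : y = i ∧ x = j
        · obtain ⟨rfl, rfl⟩ := h2
          simp only [and_self, if_true, zero_sub]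
          ring
        · rw [if_neg h2, if_neg h2]
          ring
    rw [e1, sub_mul, trace_sub, Matrix.trace_single_mul, Matrix.trace_single_mul]
    simp only [smul_eq_mul, mul_assoc]
  rw [htr, hQ] at h0
  have hre : (s * star (mQ c' x y)).re = (star s * mQ c' x y).re := by
    have : s * star (mQ c' x y) = star (star s * mQ c' x y) := by
      rw [star_mul', star_star]
    rw [this]
    exact Complex.conj_re _
  rw [Complex.sub_re, Complex.re_ofReal_mul, Complex.re_ofReal_mul, hre] at h0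
  have h1 : Real.exp (d y - d x) ≠ Real.exp (d x - d y) := by
    intro h
    have := Real.exp_injective h
    exact hxy (by linarith)
  have h2 : (Real.exp (d y - d x) - Real.exp (d x - d y)) * (star s * mQ c' x y).re = 0 := by
    linarith
  rcases mul_eq_zero.1 h2 with h3 | h3
  · exact absurd (sub_eq_zero.1 h3) h1
  · exact h3

/-- **ROT.** Off-diagonal entries, different `d`. -/
theorem p_ROT : S_ROT := by
  intro hD hB n c κ u d hc hm hp x y hxy
  have h1 := ROT_main hD hB c κ u d hc hm hp x y hxy 1 (by simp)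
  have h2 := ROT_main hD hB c κ u d hc hm hp x y hxy Complex.I (by simp)
  apply Complex.ext
  · simpa using h1
  · simpa using h2

end MP_b83a82_al.LP
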