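import Pool.Agent.Lib.MP_b83a82_al.LP.Stm3

set_option autoImplicit false

/-! Piece SB2 -/

open Polynomial Module
open scoped commutatorElement

namespace MP_b83a82_al.LP

open MP_b83a82_al.H82

universe u

theorem p_SB2 : S_SB2.{u} := by
  intro hLM G _ _ p _ hG A B hAB a b B' hLB hA hB Y X hY hX hS d hd
  have hp1 : 1 < p := (Fact.out : p.Prime).one_lt
  set D : Subgroup G := Y ⊔ (X ⊓ B) with hD
  have hYD : Y ≤ D := le_sup_left
  have hDX : D ≤ X := sup_le hS.1 inf_le_left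
  obtain ⟨n, hn⟩ := relIndex_eq_pow hG D X
  have h1 : Y.relIndex D * D.relIndex X = Y.relIndex X :=
    Subgroup.relIndex_mul_relIndex _ _ _ hYD hDX
  have h2 : Y.relIndex D ≤ p ^ b := by
    rw [hD, Subgroup.relIndex_sup_left]
    calc Y.relIndex (X ⊓ B) ≤ (Y ⊓ B).relIndex (X ⊓ B) := relIndex_anti_left inf_le_left _
      _ ≤ p ^ b := hB _ _ inf_le_right (hS.inf B)
  have h3 : d ≤ b + n := by
    have : p ^ d ≤ p ^ (b + n) := by
      rw [← hd, ← h1, hn, pow_add]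
      exact Nat.mul_le_mul_right _ h2
    exact (Nat.pow_le_pow_iff_right hp1).mp this
  obtain ⟨V, iV1, iV2, iV3, ρ, hV, hker⟩ := aff_rep p hAB hY hX hS
  rw [← hD, hn] at hV hker
  have hV' : Nat.card V = p ^ (n + 1) := by rw [hV, pow_succ']
  have hVn : Nontrivial V := by
    have : 1 < Nat.card V := by
      rw [hV']
      exact Nat.one_lt_pow (Nat.succ_ne_zero n) hp1
    exact Finite.one_lt_card_iff_nontrivial.mp this
  have hA1 : RkLE p (⊤ : Subgroup ↥(A ⊓ (X ⊔ B))) a := RkLE_coe (RkLE_mono inf_le_left hA)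
  have h5 := hLM p ↥(A ⊓ (X ⊔ B)) (hG.to_subgroup _) V ρ a (n + 1) B' hLB hA1 hV'.le 4
  have h6 : p ^ (n * 81) ≤ p ^ (3 ^ 4 * ((2 * 4 + 5) * a + B') + 2 * 2 ^ 4 * (n + 1 - 1)) := by
    refine le_trans ?_ h5
    rw [pow_mul]
    exact Nat.pow_le_pow_left hker _
  have h7 := (Nat.pow_le_pow_iff_right hp1).mp h6
  have h8 : n ≤ 22 * a + 2 * B' := by
    rw [Nat.add_sub_cancel] at h7
    omega
  omega

end MP_b83a82_al.LP
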