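import Pool.Agent.Lib.MP_b83a82_al.LP.Stm3

set_option autoImplicit false

/-!
# LARGE PRIMES, piece SEC: Lie subalgebras give subgroups
-/

open Polynomial Module

namespace MP_b83a82_al.LP

universe u

private theorem SEC_tex0 (p : ℕ) [Fact p.Prime] {R : Type u} [Ring R] [Algebra (ZMod p) R] :
    tex p (0 : R) = 1 := by
  unfold tex
  rw [Finset.sum_eq_single 0]
  · simp
  · intro j _ hj
    rw [zero_pow hj, smul_zero]
  · intro h
    exact absurd (Finset.mem_range.2 (Fact.out : p.Prime).pos) h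

private theorem SEC_powJ {p m : ℕ} [Fact p.Prime] {R : Type u} [Ring R] [Algebra (ZMod p) R]
    {J : Submodule (ZMod p) R} (hJ : NilJ p m J) {x : R} (hx : x ∈ J) : x ^ m = 0 := by
  have h := Submodule.pow_mem_pow J hx m
  rw [hJ.nil] at h
  simpa using h

private theorem SEC_texconj (p : ℕ) [Fact p.Prime] {R : Type u} [Ring R] [Algebra (ZMod p) R]
    {g h : R} (y : R) (hgh : g * h = 1) (hhg : h * g = 1) :
    tex p (g * y * h) = g * tex p y * h := by
  have hpow : ∀ j : ℕ, (g * y * h) ^ j = g * y ^ j * h := by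
    intro j
    induction j with
    | zero => simp [hgh]
    | succ j ih =>
      rw [pow_succ, ih, pow_succ]
      calc g * y ^ j * h * (g * y * h) = g * y ^ j * (h * g) * y * h := by
            simp only [mul_assoc]
        _ = g * (y ^ j * y) * h := by rw [hhg]; simp only [mul_assoc, one_mul]
  unfold tex
  rw [Finset.mul_sum, Finset.sum_mul]
  refine Finset.sum_congr rfl fun j _ => ?_
  rw [hpow, mul_smul_comm, smul_mul_assoc]

private theorem SEC_texnat (hEXA : S_EXA.{u}) {p m : ℕ} [Fact p.Prime] {R : Type u} [Ring R]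
    [Algebra (ZMod p) R] {J : Submodule (ZMod p) R} (hJ : NilJ p m J) (hmm : m + m ≤ p + 1)
    {x : R} (hx : x ∈ J) (N : ℕ) : tex p ((N : ZMod p) • x) = tex p x ^ N := by
  induction N with
  | zero => rw [Nat.cast_zero, zero_smul, SEC_tex0, pow_zero]
  | succ N ih =>
    rw [Nat.cast_succ, add_smul, one_smul, pow_succ, ← ih]
    exact hEXA p R _ _ m m ((Commute.refl x).smul_left _)
      (SEC_powJ hJ (J.smul_mem _ hx)) (SEC_powJ hJ hx) hmm

private theorem SEC_exists (p : ℕ) [Fact p.Prime] {R : Type u} [Ring R] [Algebra (ZMod p) R]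
    [Finite R] {M M₁ : Submodule (ZMod p) R} (h : M₁ < M) :
    ∃ (M' : Submodule (ZMod p) R) (x : R), M₁ ≤ M' ∧ M' < M ∧ x ∈ M ∧
      ∀ z ∈ M, ∃ w ∈ M', ∃ t : ZMod p, z = t • x + w := by
  have hfin : Finite (Submodule (ZMod p) R) :=
    Finite.of_injective (fun N : Submodule (ZMod p) R => (N : Set R)) SetLike.coe_injective
  obtain ⟨M', ⟨h1, h2⟩, h3⟩ := (wellFounded_gt (α := Submodule (ZMod p) R)).has_min
    {N | M₁ ≤ N ∧ N < M} ⟨M₁, le_refl _, h⟩
  obtain ⟨x, hxM, hxM'⟩ := SetLike.exists_of_lt h2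
  refine ⟨M', x, h1, h2, hxM, fun z hz => ?_⟩
  have hsup : M' ⊔ Submodule.span (ZMod p) {x} = M := by
    by_contra hne
    have hle : M' ⊔ Submodule.span (ZMod p) {x} ≤ M :=
      sup_le h2.le ((Submodule.span_singleton_le_iff_mem x M).2 hxM)
    refine h3 (M' ⊔ Submodule.span (ZMod p) {x}) ⟨h1.trans le_sup_left, lt_of_le_of_ne hle hne⟩ ?_
    refine lt_of_le_of_ne le_sup_left fun he => hxM' ?_
    rw [he]
    exact Submodule.mem_sup_right (Submodule.mem_span_singleton_self x)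
  rw [← hsup] at hz
  obtain ⟨w, hw, v, hv, hwv⟩ := Submodule.mem_sup.1 hz
  obtain ⟨t, rfl⟩ := Submodule.mem_span_singleton.1 hv
  exact ⟨w, hw, t, by rw [← hwv, add_comm]⟩

/-- the commutators of `M` span a proper subspace -/
private theorem SEC_proper {p m : ℕ} [Fact p.Prime] {R : Type u} [Ring R] [Algebra (ZMod p) R]
    {J M : Submodule (ZMod p) R} (hJ : NilJ p m J) (hMJ : M ≤ J) (hM : IsLieS M)
    (hbot : M ≠ ⊥) :
    Submodule.span (ZMod p) {z | ∃ x ∈ M, ∃ y ∈ M, z = x * y - y * x} < M := by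
  have hle : Submodule.span (ZMod p) {z | ∃ x ∈ M, ∃ y ∈ M, z = x * y - y * x} ≤ M := by
    rw [Submodule.span_le]
    rintro z ⟨x, hx, y, hy, rfl⟩
    exact hM x hx y hy
  refine lt_of_le_of_ne hle fun he => hbot ?_
  have hall : ∀ j : ℕ, M ≤ J ^ (j + 1) := by
    intro j
    induction j with
    | zero => rw [zero_add, pow_one]; exact hMJ
    | succ j ih =>
      rw [← he, Submodule.span_le]
      rintro z ⟨x, hx, y, hy, rfl⟩
      refine Submodule.sub_mem _ ?_ ?_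
      · rw [pow_succ]
        exact Submodule.mul_mem_mul (ih hx) (hMJ hy)
      · rw [pow_succ']
        exact Submodule.mul_mem_mul (hMJ hy) (ih hx)
  have h1 := hall (m - 1)
  have h2 : m - 1 + 1 = m := by have := hJ.two; omega
  rw [h2, hJ.nil] at h1
  exact le_bot_iff.1 h1

theorem p_SEC : S_SEC.{u} := by
  intro hEXA hLOG hEXB hADX hLKK p m _ R _ _ _ J A _ _ ρ hJ hρ hρJ W hW M
  have hm2 := hJ.two
  have hlarge := hJ.large
  have hmm : m + m ≤ p + 1 := by nlinarith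
  have hmp : m ≤ p := by nlinarith
  obtain ⟨q, hq⟩ := hLOG p m hm2 hmp
  obtain ⟨hB1, hB2⟩ := hEXB p m R J q hJ hq
  have hinj : ∀ x ∈ J, ∀ y ∈ J, tex p x = tex p y → x = y := fun x hx y hy h => by
    rw [← (hB1 x hx).2, ← (hB1 y hy).2, h]
  have hfin : Finite (Submodule (ZMod p) R) :=
    Finite.of_injective (fun N : Submodule (ZMod p) R => (N : Set R)) SetLike.coe_injective
  induction M using WellFoundedLT.induction with
  | ind M ih =>
  intro hMW hM
  have hMJ : M ≤ J := hMW.trans hW.1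
  by_cases hbot : M = ⊥
  · subst hbot
    refine ⟨⊥, bot_le, fun x => ⟨fun hx => ?_, ?_⟩⟩
    · rw [Submodule.mem_bot] at hx
      subst hx
      exact ⟨J.zero_mem, 1, Subgroup.one_mem _, by rw [SEC_tex0, map_one]⟩
    · rintro ⟨hxJ, s, hs, hxs⟩
      rw [Subgroup.mem_bot] at hs
      subst hs
      rw [Submodule.mem_bot]
      exact hinj x hxJ 0 J.zero_mem (by rw [hxs, map_one, SEC_tex0])
  obtain ⟨M', x, hM1, hM'M, hxM, hdec⟩ := SEC_exists p (SEC_proper hJ hMJ hM hbot)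
  have hcomm : ∀ x ∈ M, ∀ y ∈ M, x * y - y * x ∈ M' := fun x hx y hy =>
    hM1 (Submodule.subset_span ⟨x, hx, y, hy, rfl⟩)
  have hM'J : M' ≤ J := hM'M.le.trans hMJ
  obtain ⟨S', hS'⟩ := ih M' hM'M (hM'M.le.trans hMW)
    (fun x hx y hy => hcomm x (hM'M.le hx) y (hM'M.le hy))
  have hlog : ∀ s ∈ S', ∃ y ∈ M', tex p y = ρ s := fun s hs =>
    ⟨_, (hS'.2 _).2 ⟨(hB2 (ρ s) (hρJ s)).1, s, hs, (hB2 (ρ s) (hρJ s)).2⟩,
      (hB2 (ρ s) (hρJ s)).2⟩
  have hxJ : x ∈ J := hMJ hxM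
  obtain ⟨_, b, _, hxb⟩ := (hW.2 x).1 (hMW hxM)
  have hneg : ∀ x' ∈ J, tex p x' * tex p (-x') = 1 := fun x' hx' => by
    rw [← hEXA p R x' (-x') m m ((Commute.refl x').neg_right) (SEC_powJ hJ hx')
      (SEC_powJ hJ (J.neg_mem hx')) hmm, add_neg_cancel, SEC_tex0]
  have hneg' : ∀ x' ∈ J, tex p (-x') * tex p x' = 1 := fun x' hx' => by
    have h := hneg (-x') (J.neg_mem hx')
    rwa [neg_neg] at h
  have hinv : ∀ x' ∈ J, ∀ b' : A, tex p x' = ρ b' → tex p (-x') = ρ b'⁻¹ := by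
    intro x' hx' b' hb'
    have h1 : ρ b'⁻¹ * ρ b' = 1 := by rw [← map_mul, inv_mul_cancel, map_one]
    calc tex p (-x') = (ρ b'⁻¹ * ρ b') * tex p (-x') := by rw [h1, one_mul]
      _ = ρ b'⁻¹ * (tex p x' * tex p (-x')) := by rw [mul_assoc, hb']
      _ = ρ b'⁻¹ := by rw [hneg x' hx', mul_one]
  have hconj : ∀ x' ∈ J, ∀ b' : A, tex p x' = ρ b' → (∀ y ∈ M', x' * y - y * x' ∈ M') →
      ∀ s ∈ S', b' * s * b'⁻¹ ∈ S' := by
    intro x' hx' b' hb' hst s hs
    obtain ⟨y, hy, hys⟩ := hlog s hs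
    have hz : tex p x' * y * tex p (-x') - y ∈ M' := hADX p m R J M' x' hJ hx' hst y (hst y hy)
    have hzM : tex p x' * y * tex p (-x') ∈ M' := by
      have h := M'.add_mem hz hy
      rwa [sub_add_cancel] at h
    obtain ⟨_, s', hs', e⟩ := (hS'.2 _).1 hzM
    have h1 : ρ (b' * s * b'⁻¹) = ρ s' := by
      rw [map_mul, map_mul, ← hinv x' hx' b' hb', ← hb', ← hys, ← e,
        SEC_texconj p y (hneg x' hx') (hneg' x' hx')]
    rw [hρ h1]
    exact hs'
  have hbn : ∀ n : ℕ, tex p ((n : ZMod p) • x) = ρ (b ^ n) := fun n => by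
    rw [SEC_texnat hEXA hJ hmm hxJ, hxb, map_pow]
  have hst : ∀ n : ℕ, ∀ y ∈ M', ((n : ZMod p) • x) * y - y * ((n : ZMod p) • x) ∈ M' := by
    intro n y hy
    rw [smul_mul_assoc, mul_smul_comm, ← smul_sub]
    exact M'.smul_mem _ (hcomm x hxM y (hM'M.le hy))
  have hst' : ∀ n : ℕ, ∀ y ∈ M', (-((n : ZMod p) • x)) * y - y * (-((n : ZMod p) • x)) ∈ M' := by
    intro n y hy
    have h := M'.neg_mem (hst n y hy)
    have h2 : (-((n : ZMod p) • x)) * y - y * (-((n : ZMod p) • x)) =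
        -(((n : ZMod p) • x) * y - y * ((n : ZMod p) • x)) := by
      rw [neg_mul, mul_neg]; abel
    rw [h2]
    exact h
  have hnorm : ∀ n : ℕ, ∀ s ∈ S', b ^ n * s * (b ^ n)⁻¹ ∈ S' ∧ (b ^ n)⁻¹ * s * b ^ n ∈ S' := by
    intro n s hs
    refine ⟨hconj _ (J.smul_mem _ hxJ) _ (hbn n) (hst n) s hs, ?_⟩
    have h := hconj _ (J.neg_mem (J.smul_mem _ hxJ)) _
      (hinv _ (J.smul_mem _ hxJ) _ (hbn n)) (hst' n) s hs
    rwa [inv_inv] at h
  have hbp : b ^ p = 1 := by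
    apply hρ
    rw [← hbn, CharP.cast_eq_zero, zero_smul, SEC_tex0, map_one]
  have hL : ∀ n : ℕ, ∀ w ∈ M', ∃ s ∈ S', tex p ((n : ZMod p) • x + w) = ρ (s * b ^ n) :=
    fun n => hLKK p m R J A ρ hJ hρ hρJ S' M' (b ^ n) ((n : ZMod p) • x) hS' (hnorm n)
      (J.smul_mem _ hxJ) (hbn n)
  have hL' : ∀ n : ℕ, ∀ s ∈ S', ∃ w ∈ M', tex p ((n : ZMod p) • x + w) = ρ (s * b ^ n) := by
    intro n
    choose f hf1 hf2 using hL n
    choose g hg1 hg2 using hlog
    set F : M' → M' := fun w => ⟨g (f w.1 w.2) (hf1 w.1 w.2), hg1 _ _⟩ with hF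
    have hFinj : Function.Injective F := by
      intro w1 w2 h12
      have h1 : g (f w1.1 w1.2) (hf1 w1.1 w1.2) = g (f w2.1 w2.2) (hf1 w2.1 w2.2) :=
        congrArg Subtype.val h12
      have h2 : ρ (f w1.1 w1.2) = ρ (f w2.1 w2.2) := by
        rw [← hg2 _ (hf1 w1.1 w1.2), ← hg2 _ (hf1 w2.1 w2.2), h1]
      have h3 : tex p ((n : ZMod p) • x + w1.1) = tex p ((n : ZMod p) • x + w2.1) := by
        rw [hf2 w1.1 w1.2, hf2 w2.1 w2.2, hρ h2]
      have h4 := hinj _ (J.add_mem (J.smul_mem _ hxJ) (hM'J w1.2)) _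
        (J.add_mem (J.smul_mem _ hxJ) (hM'J w2.2)) h3
      exact Subtype.ext (add_left_cancel h4)
    have hFsurj : Function.Surjective F := Finite.surjective_of_injective hFinj
    intro s hs
    obtain ⟨w, hw⟩ := hFsurj ⟨g s hs, hg1 s hs⟩
    have h1 : g (f w.1 w.2) (hf1 w.1 w.2) = g s hs := congrArg Subtype.val hw
    have h2 : ρ (f w.1 w.2) = ρ s := by
      rw [← hg2 _ (hf1 w.1 w.2), ← hg2 s hs, h1]
    refine ⟨w.1, w.2, ?_⟩
    rw [hf2 w.1 w.2, hρ h2]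
  -- the subgroup
  let S : Subgroup A :=
    { carrier := {a | ∃ s ∈ S', ∃ n : ℕ, a = s * b ^ n}
      one_mem' := ⟨1, S'.one_mem, 0, by rw [pow_zero, mul_one]⟩
      mul_mem' := by
        rintro a a' ⟨s, hs, n, rfl⟩ ⟨s', hs', n', rfl⟩
        refine ⟨s * (b ^ n * s' * (b ^ n)⁻¹), S'.mul_mem hs (hnorm n s' hs').1, n + n', ?_⟩
        rw [pow_add]
        group
      inv_mem' := by
        rintro a ⟨s, hs, n, rfl⟩
        refine ⟨(b ^ n)⁻¹ * s⁻¹ * b ^ n, (hnorm n s⁻¹ (S'.inv_mem hs)).2, n * (p - 1), ?_⟩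
        have h1 : b ^ (n * (p - 1)) * b ^ n = 1 := by
          rw [← pow_add]
          have h2 : n * (p - 1) + n = p * n := by
            obtain ⟨k, hk⟩ : ∃ k, p = k + 1 :=
              ⟨p - 1, by have := (Fact.out : p.Prime).pos; omega⟩
            rw [hk]
            simp only [Nat.add_sub_cancel]
            ring
          rw [h2, pow_mul, hbp, one_pow]
        rw [eq_inv_of_mul_eq_one_left h1]
        group }
  refine ⟨S, hMJ, fun z => ⟨fun hz => ⟨hMJ hz, ?_⟩, ?_⟩⟩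
  · obtain ⟨w, hw, t, rfl⟩ := hdec z hz
    obtain ⟨s, hs, e⟩ := hL t.val w hw
    rw [ZMod.natCast_zmod_val] at e
    exact ⟨_, ⟨s, hs, t.val, rfl⟩, e⟩
  · rintro ⟨hzJ, a, ⟨s, hs, n, rfl⟩, e⟩
    obtain ⟨w, hw, e'⟩ := hL' n s hs
    have h1 : z = (n : ZMod p) • x + w :=
      hinj _ hzJ _ (J.add_mem (J.smul_mem _ hxJ) (hM'J hw)) (by rw [e, e'])
    rw [h1]
    exact M.add_mem (M.smul_mem _ hxM) (hM'M.le hw)

end MP_b83a82_al.LP
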