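import Pool.Agent.Lib.MP_b83a82_al.LP.Stm3

set_option autoImplicit false

/-!
# LARGE PRIMES, piece SEE: abelian sections
-/

open Polynomial Module
open scoped commutatorElement

namespace MP_b83a82_al.LP

universe u

private lemma see_pow {p m : ℕ} [Fact p.Prime] {R : Type u} [Ring R] [Algebra (ZMod p) R]
    {J : Submodule (ZMod p) R} (hJ : NilJ p m J) {x : R} (hx : x ∈ J) : x ^ m = 0 := by
  have h := Submodule.pow_mem_pow J hx m
  rw [hJ.nil] at h
  simpa using h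

private lemma see_zero (p : ℕ) [Fact p.Prime] {R : Type u} [Ring R] [Algebra (ZMod p) R] :
    tex p (0 : R) = 1 := by
  unfold tex
  have hp : 0 < p := (Fact.out : p.Prime).pos
  rw [Finset.sum_eq_single_of_mem 0 (Finset.mem_range.mpr hp)]
  · simp
  · intro j _ hj
    simp [hj]

private lemma see_add (hA : S_EXA.{u}) {p m : ℕ} [Fact p.Prime] {R : Type u} [Ring R]
    [Algebra (ZMod p) R] {J : Submodule (ZMod p) R} (hJ : NilJ p m J) {x y : R} (hx : x ∈ J)
    (hy : y ∈ J) (hc : Commute x y) : tex p (x + y) = tex p x * tex p y := by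
  refine hA p R x y m m hc (see_pow hJ hx) (see_pow hJ hy) ?_
  have h1 := hJ.two
  have h2 := hJ.large
  nlinarith

private lemma see_inv (hA : S_EXA.{u}) {p m : ℕ} [Fact p.Prime] {R : Type u} [Ring R]
    [Algebra (ZMod p) R] {J : Submodule (ZMod p) R} (hJ : NilJ p m J) {x : R} (hx : x ∈ J) :
    tex p x * tex p (-x) = 1 ∧ tex p (-x) * tex p x = 1 := by
  constructor
  · rw [← see_add hA hJ hx (J.neg_mem hx) (Commute.neg_right (Commute.refl x)), add_neg_cancel,
      see_zero]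
  · rw [← see_add hA hJ (J.neg_mem hx) hx (Commute.neg_left (Commute.refl x)), neg_add_cancel,
      see_zero]

private lemma see_nsmul (hA : S_EXA.{u}) {p m : ℕ} [Fact p.Prime] {R : Type u} [Ring R]
    [Algebra (ZMod p) R] {J : Submodule (ZMod p) R} (hJ : NilJ p m J) {x : R} (hx : x ∈ J)
    (k : ℕ) : tex p (k • x) = tex p x ^ k := by
  induction k with
  | zero => rw [zero_smul, see_zero, pow_zero]
  | succ k ih =>
    rw [succ_nsmul, see_add hA hJ (J.nsmul_mem hx k) hx ((Commute.refl x).smul_left k), ih,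
      pow_succ]

private lemma see_conj {p : ℕ} [Fact p.Prime] {R : Type u} [Ring R]
    [Algebra (ZMod p) R] {g g' : R} (h1 : g * g' = 1) (h2 : g' * g = 1) (y : R) :
    tex p (g * y * g') = g * tex p y * g' := by
  have hp : ∀ j : ℕ, (g * y * g') ^ j = g * y ^ j * g' := by
    intro j
    induction j with
    | zero => rw [pow_zero, pow_zero, mul_one, h1]
    | succ j ih =>
      rw [pow_succ, ih, pow_succ]
      calc g * y ^ j * g' * (g * y * g') = g * y ^ j * (g' * g) * y * g' := by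
            simp only [mul_assoc]
        _ = g * (y ^ j * y) * g' := by rw [h2, mul_one]; simp only [mul_assoc]
  unfold tex
  rw [Finset.mul_sum, Finset.sum_mul]
  refine Finset.sum_congr rfl fun j _ => ?_
  rw [hp j, mul_smul_comm, smul_mul_assoc]

private lemma see_card {p : ℕ} [Fact p.Prime] {R : Type u} [Ring R] [Algebra (ZMod p) R]
    [Finite R] {J : Submodule (ZMod p) R} {A : Type u} [Group A] [Finite A] {ρ : A →* R}
    {q : (ZMod p)[X]}
    (hB : (∀ x ∈ J, tex p x - 1 ∈ J ∧ aeval (tex p x - 1) q = x) ∧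
      ∀ g : R, g - 1 ∈ J → aeval (g - 1) q ∈ J ∧ tex p (aeval (g - 1) q) = g)
    (hinj : Function.Injective ρ) (hρ : ∀ a, ρ a - 1 ∈ J) (S : Subgroup A)
    (W : Submodule (ZMod p) R) (hW : IsLog p J ρ S W) :
    Nat.card S = p ^ finrank (ZMod p) W := by
  have h1 : ∀ x : W, ∃ s : S, tex p (x : R) = ρ s := by
    intro x
    obtain ⟨_, s, hs, h⟩ := (hW.2 x).mp x.2
    exact ⟨⟨s, hs⟩, h⟩
  choose f hf using h1
  have hbij : Function.Bijective f := by
    constructor
    · intro x y hxy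
      have e : tex p (x : R) = tex p (y : R) := by rw [hf, hf, hxy]
      have ex := (hB.1 x (hW.1 x.2)).2
      have ey := (hB.1 y (hW.1 y.2)).2
      rw [e] at ex
      exact Subtype.ext (ex.symm.trans ey)
    · intro s
      obtain ⟨h2, h3⟩ := hB.2 (ρ s) (hρ s)
      have h4 : aeval (ρ s - 1) q ∈ W := (hW.2 _).mpr ⟨h2, s, s.2, h3⟩
      refine ⟨⟨_, h4⟩, ?_⟩
      have h5 := hf ⟨_, h4⟩
      rw [h3] at h5
      exact Subtype.ext (hinj h5.symm)
  rw [← Nat.card_eq_of_bijective f hbij, Module.natCard_eq_pow_finrank (K := ZMod p), Nat.card_zmod]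

/-- `x ∈ M` acts on `N ≤ M` by conjugation -/
private lemma see_norm (hA : S_EXA.{u}) (hX : R_ADX.{u}) {p m : ℕ} [Fact p.Prime] {R : Type u}
    [Ring R] [Algebra (ZMod p) R] {J : Submodule (ZMod p) R} {A : Type u} [Group A]
    {ρ : A →* R} (hJ : NilJ p m J) (hinj : Function.Injective ρ)
    {T : Subgroup A} {N : Submodule (ZMod p) R} (hN : IsLog p J ρ T N)
    (hlog : ∀ t ∈ T, ∃ z ∈ N, tex p z = ρ t) {x : R} (hx : x ∈ J)
    (hxN : ∀ y ∈ N, x * y - y * x ∈ N) {s : A} (hs : tex p x = ρ s) (t : A) (ht : t ∈ T) :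
    s * t * s⁻¹ ∈ T := by
  obtain ⟨z, hz, hzt⟩ := hlog t ht
  have h1 := hX p m R J N x hJ hx hxN z (hxN z hz)
  have h2 : tex p x * z * tex p (-x) ∈ N := by
    have := N.add_mem h1 hz
    simpa using this
  obtain ⟨_, t', ht', h3⟩ := (hN.2 _).mp h2
  obtain ⟨i1, i2⟩ := see_inv hA hJ hx
  rw [see_conj i1 i2, hs, hzt] at h3
  have h4 : ρ s⁻¹ = tex p (-x) := by
    have h5 : ρ s * ρ s⁻¹ = 1 := by rw [← map_mul, mul_inv_cancel, map_one]
    calc ρ s⁻¹ = (tex p (-x) * tex p x) * ρ s⁻¹ := by rw [i2, one_mul]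
      _ = tex p (-x) * (ρ s * ρ s⁻¹) := by rw [hs, mul_assoc]
      _ = tex p (-x) := by rw [h5, mul_one]
  rw [← h4, ← map_mul, ← map_mul] at h3
  rw [hinj h3]
  exact ht'

theorem p_SEE : S_SEE.{u} := by
  intro hA hL hB hX hK p m _ R _ _ _ J A _ _ ρ hJ hinj hρ S T M N hM hN hNM hMM
  have hmp : m ≤ p := by
    have h1 := hJ.two
    have h2 := hJ.large
    nlinarith
  obtain ⟨q, hq⟩ := hL p m hJ.two hmp
  have hB' := hB p m R J q hJ hq
  have hlog : ∀ (S : Subgroup A) (W : Submodule (ZMod p) R), IsLog p J ρ S W →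
      ∀ s ∈ S, ∃ z ∈ W, tex p z = ρ s := by
    intro S W hW s hs
    obtain ⟨h2, h3⟩ := hB'.2 (ρ s) (hρ s)
    exact ⟨_, (hW.2 _).mpr ⟨h2, s, hs, h3⟩, h3⟩
  have hTS : T ≤ S := by
    intro t ht
    obtain ⟨z, hz, hzt⟩ := hlog T N hN t ht
    obtain ⟨_, s, hs, h⟩ := (hM.2 z).mp (hNM hz)
    rw [hzt] at h
    rw [hinj h]
    exact hs
  refine ⟨⟨hTS, ?_, ?_⟩, ?_⟩
  · intro s hs
    obtain ⟨x, hx, hxs⟩ := hlog S M hM s hs
    have h1 := see_nsmul hA hJ (hM.1 hx) p
    have h2 : (p : ℕ) • x = 0 := by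
      rw [← Nat.cast_smul_eq_nsmul (ZMod p)]
      simp
    rw [h2, see_zero, hxs, ← map_pow] at h1
    have h3 : s ^ p = 1 := hinj (by rw [← h1, map_one])
    rw [h3]
    exact T.one_mem
  · intro s hs s' hs'
    obtain ⟨x, hx, hxs⟩ := hlog S M hM s hs
    obtain ⟨y, hy, hys⟩ := hlog S M hM s' hs'
    have hxJ := hM.1 hx
    have hyJ := hM.1 hy
    obtain ⟨i1, i2⟩ := see_inv hA hJ hxJ
    have hν : tex p x * y * tex p (-x) - y ∈ N :=
      hX p m R J N x hJ hxJ (fun z hz => hMM x hx z (hNM hz)) y (hMM x hx y hy)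
    have hn1 : ∀ t ∈ T, s' * t * s'⁻¹ ∈ T := fun t ht =>
      see_norm hA hX hJ hinj hN (hlog T N hN) hyJ (fun z hz => hMM y hy z (hNM hz)) hys t ht
    have hn2 : ∀ t ∈ T, s'⁻¹ * t * s' ∈ T := by
      intro t ht
      have hyi : tex p (-y) = ρ s'⁻¹ := by
        obtain ⟨j1, j2⟩ := see_inv hA hJ hyJ
        have h5 : ρ s' * ρ s'⁻¹ = 1 := by rw [← map_mul, mul_inv_cancel, map_one]
        calc tex p (-y) = tex p (-y) * (ρ s' * ρ s'⁻¹) := by rw [h5, mul_one]
          _ = (tex p (-y) * tex p y) * ρ s'⁻¹ := by rw [hys, mul_assoc]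
          _ = ρ s'⁻¹ := by rw [j2, one_mul]
      have h := see_norm hA hX hJ hinj hN (hlog T N hN) (J.neg_mem hyJ)
        (fun z hz => hMM (-y) (M.neg_mem hy) z (hNM hz)) hyi t ht
      rwa [inv_inv] at h
    obtain ⟨t, ht, h⟩ := hK p m R J A ρ hJ hinj hρ T N s' y hN (fun t ht => ⟨hn1 t ht, hn2 t ht⟩)
      hyJ hys _ hν
    have e1 : y + (tex p x * y * tex p (-x) - y) = tex p x * y * tex p (-x) := by abel
    rw [e1, see_conj i1 i2, hxs, hys] at h
    have h4 : ρ s⁻¹ = tex p (-x) := by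
      have h5 : ρ s * ρ s⁻¹ = 1 := by rw [← map_mul, mul_inv_cancel, map_one]
      calc ρ s⁻¹ = (tex p (-x) * tex p x) * ρ s⁻¹ := by rw [i2, one_mul]
        _ = tex p (-x) * (ρ s * ρ s⁻¹) := by rw [hxs, mul_assoc]
        _ = tex p (-x) := by rw [h5, mul_one]
    rw [← h4, ← map_mul, ← map_mul] at h
    have h6 : s * s' * s⁻¹ = t * s' := hinj h
    have h7 : ⁅s, s'⁆ = t := by
      rw [commutatorElement_def, h6, mul_inv_cancel_right]
    rw [h7]
    exact ht
  · have c1 := see_card hB' hinj hρ S M hM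
    have c2 := see_card hB' hinj hρ T N hN
    rw [← c1, ← c2]
    have h1 := Subgroup.card_mul_index (T.subgroupOf S)
    rw [Nat.card_congr (Subgroup.subgroupOfEquivOfLe hTS).toEquiv] at h1
    rw [Subgroup.relIndex, mul_comm]
    exact h1

end MP_b83a82_al.LP
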