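import Pool.Agent.Lib.MP_b83a82_al.LP.Stm2

set_option autoImplicit false

/-!
# LARGE PRIMES, piece SLB: the slab lemma
-/

namespace MP_b83a82_al.LP

private theorem SLB_low {n : ℕ} (w : Fin n → ℝ) (m : ℝ) (hm0 : 0 ≤ m)
    (hm : ∀ t : ℝ, 0 < t →
      ((Finset.univ.filter fun i => t ≤ w i ∧ w i < 2 * t).card : ℝ) ≤ m) (R : ℕ) :
    ∀ W : ℝ, 0 < W → (∀ j, 0 < w j → W ≤ 2 ^ R * w j) →
      ∑ j, (if 0 < w j ∧ w j < W then w j else 0) ≤ 2 * m * W := by
  induction R with
  | zero =>
      intro W hW h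
      have h0 : ∑ j, (if 0 < w j ∧ w j < W then w j else 0) = 0 := by
        refine Finset.sum_eq_zero fun j _ => ?_
        rw [if_neg]
        rintro ⟨h1, h2⟩
        have := h j h1
        rw [pow_zero, one_mul] at this
        linarith
      rw [h0]
      positivity
  | succ R ih =>
      intro W hW h
      have hW2 : 0 < W / 2 := by positivity
      have h1 := ih (W / 2) hW2 (fun j hj => by
        have := h j hj
        rw [pow_succ] at this
        linarith)
      have h2 := hm (W / 2) hW2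
      have h3 : ∑ j, (if W / 2 ≤ w j ∧ w j < 2 * (W / 2) then W else 0) ≤ m * W := by
        rw [← Finset.sum_filter, Finset.sum_const, nsmul_eq_mul]
        exact mul_le_mul_of_nonneg_right h2 hW.le
      have h4 : ∑ j, (if 0 < w j ∧ w j < W then w j else 0) ≤
          ∑ j, ((if 0 < w j ∧ w j < W / 2 then w j else 0) +
            (if W / 2 ≤ w j ∧ w j < 2 * (W / 2) then W else 0)) := by
        refine Finset.sum_le_sum fun j _ => ?_
        by_cases ha : 0 < w j ∧ w j < W
        · by_cases hb : w j < W / 2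
          · rw [if_pos ha, if_pos ⟨ha.1, hb⟩, if_neg (fun hc => by linarith [hc.1]), add_zero]
          · rw [if_pos ha, if_neg (fun hc => hb hc.2),
              if_pos ⟨not_lt.mp hb, by linarith [ha.2]⟩, zero_add]
            exact ha.2.le
        · rw [if_neg ha]
          have : 0 ≤ (if 0 < w j ∧ w j < W / 2 then w j else 0) := by
            split_ifs with hc
            · exact hc.1.le
            · exact le_rfl
          have : 0 ≤ (if W / 2 ≤ w j ∧ w j < 2 * (W / 2) then W else 0) := by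
            split_ifs
            · exact hW.le
            · exact le_rfl
          positivity
      rw [Finset.sum_add_distrib] at h4
      linarith

private theorem SLB_exR {n : ℕ} (w : Fin n → ℝ) (W : ℝ) :
    ∃ R : ℕ, ∀ j, 0 < w j → W ≤ 2 ^ R * w j := by
  have h1 : ∀ j : Fin n, ∃ R : ℕ, 0 < w j → W ≤ 2 ^ R * w j := by
    intro j
    by_cases hj : 0 < w j
    · obtain ⟨R, hR⟩ := pow_unbounded_of_one_lt (W / w j) (one_lt_two : (1 : ℝ) < 2)
      refine ⟨R, fun _ => ?_⟩
      rw [div_lt_iff₀ hj] at hR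
      exact hR.le
    · exact ⟨0, fun h => absurd h hj⟩
  choose R hR using h1
  refine ⟨∑ j, R j, fun j hj => (hR j hj).trans ?_⟩
  refine mul_le_mul_of_nonneg_right ?_ hj.le
  exact pow_le_pow_right₀ one_le_two
    (Finset.single_le_sum (f := R) (fun _ _ => Nat.zero_le _) (Finset.mem_univ j))

private theorem SLB_le {n : ℕ} (w : Fin n → ℝ) (m : ℝ) (hm0 : 0 ≤ m)
    (hm : ∀ t : ℝ, 0 < t →
      ((Finset.univ.filter fun i => t ≤ w i ∧ w i < 2 * t).card : ℝ) ≤ m)
    (W : ℝ) (hW : 0 < W) :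
    ∑ j, (if 0 < w j ∧ w j ≤ W then w j else 0) ≤ 2 * m * W := by
  refine le_of_forall_pos_le_add fun ε hε => ?_
  have hd : 0 < 2 * m + 1 := by linarith
  have hW' : W < W + ε / (2 * m + 1) := by
    have : 0 < ε / (2 * m + 1) := by positivity
    linarith
  obtain ⟨R, hR⟩ := SLB_exR w (W + ε / (2 * m + 1))
  have h1 := SLB_low w m hm0 hm R (W + ε / (2 * m + 1)) (hW.trans hW') hR
  have h2 : ∑ j, (if 0 < w j ∧ w j ≤ W then w j else 0) ≤
      ∑ j, (if 0 < w j ∧ w j < W + ε / (2 * m + 1) then w j else 0) := by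
    refine Finset.sum_le_sum fun j _ => ?_
    by_cases ha : 0 < w j ∧ w j ≤ W
    · rw [if_pos ha, if_pos ⟨ha.1, lt_of_le_of_lt ha.2 hW'⟩]
    · rw [if_neg ha]
      split_ifs with hc
      · exact hc.1.le
      · exact le_rfl
  have h3 : 2 * m * (ε / (2 * m + 1)) ≤ ε := by
    rw [← mul_div_assoc, div_le_iff₀ hd]
    nlinarith
  have h4 : 2 * m * (W + ε / (2 * m + 1)) = 2 * m * W + 2 * m * (ε / (2 * m + 1)) := by ring
  linarith

private theorem SLB_sq {n : ℕ} (w : Fin n → ℝ) (m : ℝ) (hm0 : 0 ≤ m)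
    (hm : ∀ t : ℝ, 0 < t →
      ((Finset.univ.filter fun i => t ≤ w i ∧ w i < 2 * t).card : ℝ) ≤ m)
    (hs : 0 < ∑ i, w i) : (∑ i, w i) ^ 2 ≤ 4 * m * ∑ i, w i ^ 2 := by
  have hp : ∀ i, 0 ≤ (if 0 < w i then w i else 0) := by
    intro i
    split_ifs with h
    · exact h.le
    · exact le_rfl
  have h1 : ∑ i, w i ≤ ∑ i, (if 0 < w i then w i else 0) := by
    refine Finset.sum_le_sum fun i _ => ?_
    split_ifs with h
    · exact le_rfl
    · exact not_lt.mp h
  have h2 : (∑ i, w i) ^ 2 ≤ (∑ i, (if 0 < w i then w i else 0)) ^ 2 :=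
    pow_le_pow_left₀ hs.le h1 2
  have h3 : (∑ i, (if 0 < w i then w i else 0)) ^ 2 ≤
      ∑ i, ∑ j, ((if 0 < w i then w i else 0) * (if 0 < w j ∧ w j ≤ w i then w j else 0) +
        (if 0 < w j then w j else 0) * (if 0 < w i ∧ w i ≤ w j then w i else 0)) := by
    rw [sq, Finset.sum_mul_sum]
    refine Finset.sum_le_sum fun i _ => Finset.sum_le_sum fun j _ => ?_
    by_cases hi : 0 < w i
    · by_cases hj : 0 < w j
      · rcases le_total (w j) (w i) with h | h
        · rw [if_pos hi, if_pos hj, if_pos ⟨hj, h⟩]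
          have : 0 ≤ (if 0 < w i ∧ w i ≤ w j then w i else 0) := by
            split_ifs
            · exact hi.le
            · exact le_rfl
          nlinarith
        · rw [if_pos hi, if_pos hj, if_pos (⟨hi, h⟩ : 0 < w i ∧ w i ≤ w j)]
          have : 0 ≤ (if 0 < w j ∧ w j ≤ w i then w j else 0) := by
            split_ifs
            · exact hj.le
            · exact le_rfl
          nlinarith
      · rw [if_neg hj, if_neg (fun h : 0 < w j ∧ w j ≤ w i => hj h.1)]
        simp
    · rw [if_neg hi, if_neg (fun h : 0 < w i ∧ w i ≤ w j => hi h.1)]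
      simp
  have h4 : ∑ i, ∑ j, ((if 0 < w i then w i else 0) * (if 0 < w j ∧ w j ≤ w i then w j else 0) +
        (if 0 < w j then w j else 0) * (if 0 < w i ∧ w i ≤ w j then w i else 0)) =
      2 * ∑ i, (if 0 < w i then w i else 0) *
        ∑ j, (if 0 < w j ∧ w j ≤ w i then w j else 0) := by
    simp only [Finset.sum_add_distrib]
    rw [Finset.sum_comm (f := fun i j =>
      (if 0 < w j then w j else 0) * (if 0 < w i ∧ w i ≤ w j then w i else 0)), two_mul]
    simp only [Finset.mul_sum]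
  have h5 : ∑ i, (if 0 < w i then w i else 0) *
        ∑ j, (if 0 < w j ∧ w j ≤ w i then w j else 0) ≤ ∑ i, 2 * m * w i ^ 2 := by
    refine Finset.sum_le_sum fun i _ => ?_
    by_cases hi : 0 < w i
    · rw [if_pos hi]
      have := mul_le_mul_of_nonneg_left (SLB_le w m hm0 hm (w i) hi) hi.le
      nlinarith
    · rw [if_neg hi, zero_mul]
      positivity
  rw [← Finset.mul_sum] at h5
  rw [h4] at h3
  linarith

/-- **SLB.** Slabs. -/
theorem p_SLB : S_SLB := by
  intro n w hw
  obtain ⟨hs, hg⟩ := hw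
  by_contra hc
  push Not at hc
  have hn : 0 < n := by
    have := hc 1 one_pos
    omega
  have hm0 : (0 : ℝ) ≤ ((n : ℝ) - 1) / 136 := by
    have : (1 : ℝ) ≤ n := by exact_mod_cast hn
    have : (0 : ℝ) ≤ (n : ℝ) - 1 := by linarith
    positivity
  have hm : ∀ t : ℝ, 0 < t →
      ((Finset.univ.filter fun i => t ≤ w i ∧ w i < 2 * t).card : ℝ) ≤ ((n : ℝ) - 1) / 136 := by
    intro t ht
    rw [le_div_iff₀ (by norm_num)]
    have h1 : 136 * (Finset.univ.filter fun i => t ≤ w i ∧ w i < 2 * t).card + 1 ≤ n := hc t ht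
    have h2 : (136 : ℝ) * ((Finset.univ.filter fun i => t ≤ w i ∧ w i < 2 * t).card : ℝ) + 1 ≤
        n := by exact_mod_cast h1
    linarith
  have h1 := SLB_sq w _ hm0 hm hs
  have h2 : 0 < (∑ i, w i) ^ 2 := by positivity
  have h3 : 0 ≤ ∑ i, w i ^ 2 := Finset.sum_nonneg fun i _ => sq_nonneg _
  have h4 : 0 < ∑ i, w i ^ 2 := by
    rcases h3.lt_or_eq with h | h
    · exact h
    · rw [← h, mul_zero] at h1
      linarith
  have h5 : (n : ℝ) * ∑ i, w i ^ 2 ≤ 34 * (4 * (((n : ℝ) - 1) / 136) * ∑ i, w i ^ 2) := by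
    linarith
  nlinarith

end MP_b83a82_al.LP
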