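import Pool.Agent.Lib.MP_b83a82_al.LP.Stm1

/-!
# SLO: the slope bound
-/

set_option autoImplicit false

open Matrix

namespace MP_b83a82_al.LP

private lemma SLO_elem {n : ℕ} (i j : Fin n) :
    Continuous fun u : Matrix (Fin n) (Fin n) ℂ => u i j :=
  continuous_id.matrix_elem i j

private lemma SLO_bc {n : ℕ} (c : SC n ℂ) (i j l : Fin n) :
    Continuous fun u : Matrix (Fin n) (Fin n) ℂ => bc c u uᴴ i j l := by
  unfold bc
  refine continuous_finset_sum _ fun a _ => continuous_finset_sum _ fun b _ =>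
    continuous_finset_sum _ fun s _ => ?_
  have h1 := SLO_elem a i
  have h2 := SLO_elem b j
  have h3 : Continuous fun u : Matrix (Fin n) (Fin n) ℂ => uᴴ l s := by
    simp only [conjTranspose_apply]
    exact (SLO_elem s l).star
  exact ((h1.mul h2).mul continuous_const).mul h3

private lemma SLO_cpt (n : ℕ) : IsCompact {u : Matrix (Fin n) (Fin n) ℂ | Un u} := by
  have hcl : IsClosed {u : Matrix (Fin n) (Fin n) ℂ | Un u} := by
    have h1 : IsClosed {u : Matrix (Fin n) (Fin n) ℂ | uᴴ * u = 1} :=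
      isClosed_eq (continuous_id.matrix_conjTranspose.matrix_mul continuous_id) continuous_const
    have h2 : IsClosed {u : Matrix (Fin n) (Fin n) ℂ | u * uᴴ = 1} :=
      isClosed_eq (continuous_id.matrix_mul continuous_id.matrix_conjTranspose) continuous_const
    exact h1.inter h2
  have hsub : {u : Matrix (Fin n) (Fin n) ℂ | Un u} ⊆
      Set.pi Set.univ fun _ => Set.pi Set.univ fun _ => Metric.closedBall (0 : ℂ) 1 := by
    intro u hu i _ j _
    have hu2 : u ∈ Matrix.unitaryGroup (Fin n) ℂ := by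
      rw [Matrix.mem_unitaryGroup_iff]
      exact hu.2
    have h := entry_norm_bound_of_unitary hu2 i j
    exact mem_closedBall_zero_iff.mpr h
  exact (isCompact_univ_pi fun _ => isCompact_univ_pi fun _ =>
    isCompact_closedBall (0 : ℂ) 1).of_isClosed_subset hcl hsub

private lemma SLO_abs {n : ℕ} {δ : Fin n → ℝ} (h : ∑ i, δ i ^ 2 = 1) (i : Fin n) : |δ i| ≤ 1 := by
  have h1 : δ i ^ 2 ≤ ∑ i, δ i ^ 2 :=
    Finset.single_le_sum (f := fun i => δ i ^ 2) (fun j _ => sq_nonneg _) (Finset.mem_univ i)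
  rw [h] at h1
  exact abs_le_of_sq_le_sq (by simpa using h1) (by norm_num) |> fun h => abs_le.mpr (abs_le.mp h)

private lemma SLO_sph (n : ℕ) :
    IsCompact {δ : Fin n → ℝ | ∑ i, δ i = 0 ∧ ∑ i, δ i ^ 2 = 1} := by
  have h1 : IsClosed {δ : Fin n → ℝ | ∑ i, δ i = 0} :=
    isClosed_eq (by fun_prop) continuous_const
  have h2 : IsClosed {δ : Fin n → ℝ | ∑ i, δ i ^ 2 = 1} :=
    isClosed_eq (by fun_prop) continuous_const
  have hsub : {δ : Fin n → ℝ | ∑ i, δ i = 0 ∧ ∑ i, δ i ^ 2 = 1} ⊆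
      Set.pi Set.univ fun _ => Set.Icc (-1 : ℝ) 1 := by
    intro δ hδ
    rw [Set.mem_pi]
    intro i _
    exact abs_le.mp (SLO_abs hδ.2 i)
  exact (isCompact_univ_pi fun _ => isCompact_Icc).of_isClosed_subset (h1.inter h2) hsub

private lemma SLO_le3 {n : ℕ} (f : Fin n → Fin n → Fin n → ℝ) (hf : ∀ i j l, 0 ≤ f i j l)
    (i j l : Fin n) : f i j l ≤ ∑ i, ∑ j, ∑ l, f i j l := by
  have h1 : f i j l ≤ ∑ l, f i j l :=
    Finset.single_le_sum (f := fun l => f i j l) (fun l _ => hf i j l) (Finset.mem_univ l)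
  have h2 : ∑ l, f i j l ≤ ∑ j, ∑ l, f i j l :=
    Finset.single_le_sum (f := fun j => ∑ l, f i j l)
      (fun j _ => Finset.sum_nonneg fun l _ => hf i j l) (Finset.mem_univ j)
  have h3 : ∑ j, ∑ l, f i j l ≤ ∑ i, ∑ j, ∑ l, f i j l :=
    Finset.single_le_sum (f := fun i => ∑ j, ∑ l, f i j l)
      (fun i _ => Finset.sum_nonneg fun j _ => Finset.sum_nonneg fun l _ => hf i j l)
      (Finset.mem_univ i)
  exact h1.trans (h2.trans h3)

/-- the continuous function -/
private noncomputable def SLO_G {n : ℕ} (c : SC n ℂ) (σ : ℝ)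
    (x : Matrix (Fin n) (Fin n) ℂ × (Fin n → ℝ)) : ℝ :=
  ∑ i, ∑ j, ∑ l, ‖bc c x.1 x.1ᴴ i j l‖ ^ 2 * max 0 (2 * (x.2 i + x.2 j - x.2 l) + σ)

private lemma SLO_Gcont {n : ℕ} (c : SC n ℂ) (σ : ℝ) : Continuous (SLO_G c σ) := by
  unfold SLO_G
  refine continuous_finset_sum _ fun i _ => continuous_finset_sum _ fun j _ =>
    continuous_finset_sum _ fun l _ => ?_
  have h1 : Continuous fun x : Matrix (Fin n) (Fin n) ℂ × (Fin n → ℝ) =>
      ‖bc c x.1 x.1ᴴ i j l‖ ^ 2 := (((SLO_bc c i j l).comp continuous_fst).norm).pow 2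
  have h2 : Continuous fun x : Matrix (Fin n) (Fin n) ℂ × (Fin n → ℝ) =>
      max 0 (2 * (x.2 i + x.2 j - x.2 l) + σ) := by fun_prop
  exact h1.mul h2

private lemma SLO_nrm {n : ℕ} (c : SC n ℂ) (u : Matrix (Fin n) (Fin n) ℂ) (d : Fin n → ℝ) :
    nrm (ud c u d) =
      ∑ i, ∑ j, ∑ l, ‖bc c u uᴴ i j l‖ ^ 2 * Real.exp (2 * (d i + d j - d l)) := by
  unfold nrm ud sc
  refine Finset.sum_congr rfl fun i _ => Finset.sum_congr rfl fun j _ =>
    Finset.sum_congr rfl fun l _ => ?_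
  rw [norm_mul, mul_pow, Complex.norm_real, Real.norm_eq_abs, abs_of_pos (Real.exp_pos _),
    ← Real.exp_nat_mul]
  norm_num

theorem p_SLO : S_SLO := by
  intro n c hn hng
  set σ : ℝ := 2 / Real.sqrt (33 * n) with hσ
  have hn0 : (0 : ℝ) < n := by exact_mod_cast hn
  have hs0 : 0 < Real.sqrt (33 * n) := Real.sqrt_pos.mpr (by positivity)
  have hσ0 : 0 < σ := by positivity
  have hσ2 : σ ^ 2 = 4 / (33 * n) := by
    rw [hσ, div_pow, Real.sq_sqrt (by positivity)]
    norm_num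
  -- positivity of the first function
  have hG : ∀ x ∈ {u : Matrix (Fin n) (Fin n) ℂ | Un u} ×ˢ
      {δ : Fin n → ℝ | ∑ i, δ i = 0 ∧ ∑ i, δ i ^ 2 = 1}, 0 < SLO_G c σ x := by
    rintro ⟨u, δ⟩ ⟨hu, hδ0, hδ1⟩
    have hu' : Un u := hu
    have hδ0' : ∑ i, δ i = 0 := hδ0
    have hδ1' : ∑ i, δ i ^ 2 = 1 := hδ1
    have hnn : ∀ i j l, 0 ≤ ‖bc c u uᴴ i j l‖ ^ 2 * max 0 (2 * (δ i + δ j - δ l) + σ) :=
      fun i j l => mul_nonneg (sq_nonneg _) (le_max_left _ _)
    obtain ⟨i, j, l, h1, h2⟩ : ∃ i j l, bc c u uᴴ i j l ≠ 0 ∧ 0 < 2 * (δ i + δ j - δ l) + σ := by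
      by_contra hcon
      push Not at hcon
      apply hng
      have hw1 : ∑ i, (δ i + σ / 2) = n * σ / 2 := by
        rw [Finset.sum_add_distrib, hδ0', Finset.sum_const, Finset.card_univ, Fintype.card_fin,
          nsmul_eq_mul]
        ring
      have hw2 : ∑ i, (δ i + σ / 2) ^ 2 = 1 + n * σ ^ 2 / 4 := by
        have e : ∀ i, (δ i + σ / 2) ^ 2 = δ i ^ 2 + σ * δ i + σ ^ 2 / 4 := fun i => by ring
        simp only [e]
        rw [Finset.sum_add_distrib, Finset.sum_add_distrib, hδ1', ← Finset.mul_sum, hδ0',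
          Finset.sum_const, Finset.card_univ, Fintype.card_fin, nsmul_eq_mul]
        ring
      refine ⟨u, uᴴ, hu'.2, fun i => δ i + σ / 2, ⟨?_, ?_⟩, ?_⟩
      · show 0 < ∑ i, (δ i + σ / 2)
        rw [hw1]
        positivity
      · show (n : ℝ) * ∑ i, (δ i + σ / 2) ^ 2 ≤ 34 * (∑ i, (δ i + σ / 2)) ^ 2
        have e1 : ((n : ℝ) * σ / 2) ^ 2 = (n : ℝ) ^ 2 * σ ^ 2 / 4 := by ring
        rw [hw1, hw2, e1, hσ2]
        apply le_of_eq
        field_simp
        ring
      · intro i j l hne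
        have := hcon i j l hne
        show δ i + σ / 2 + (δ j + σ / 2) ≤ δ l + σ / 2
        linarith
    have h3 : 0 < ‖bc c u uᴴ i j l‖ ^ 2 * max 0 (2 * (δ i + δ j - δ l) + σ) := by
      apply mul_pos (pow_pos (norm_pos_iff.mpr h1) 2)
      exact lt_of_lt_of_le h2 (le_max_right _ _)
    exact lt_of_lt_of_le h3 (SLO_le3 (fun i j l => ‖bc c u uᴴ i j l‖ ^ 2 *
      max 0 (2 * (δ i + δ j - δ l) + σ)) hnn i j l)
  obtain ⟨ε₀, hε₀, hG2⟩ := ((SLO_cpt n).prod (SLO_sph n)).exists_forall_le'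
    (SLO_Gcont c σ).continuousOn hG
  -- positivity of the second function
  have hN : ∀ u ∈ {u : Matrix (Fin n) (Fin n) ℂ | Un u}, 0 < nrm (bc c u uᴴ) := by
    intro u hu
    have hu' : Un u := hu
    have hnn : ∀ i j l, 0 ≤ ‖bc c u uᴴ i j l‖ ^ 2 := fun i j l => sq_nonneg _
    obtain ⟨i, j, l, h1⟩ : ∃ i j l, bc c u uᴴ i j l ≠ 0 := by
      by_contra hcon
      push Not at hcon
      apply hng
      refine ⟨u, uᴴ, hu'.2, fun _ => 1, ⟨?_, ?_⟩, ?_⟩
      · simp [hn0]
      · simp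
        nlinarith
      · intro i j l hne
        exact absurd (hcon i j l) hne
    exact lt_of_lt_of_le (pow_pos (norm_pos_iff.mpr h1) 2)
      (SLO_le3 (fun i j l => ‖bc c u uᴴ i j l‖ ^ 2) hnn i j l)
  have hNc : Continuous fun u : Matrix (Fin n) (Fin n) ℂ => nrm (bc c u uᴴ) := by
    unfold nrm
    exact continuous_finset_sum _ fun i _ => continuous_finset_sum _ fun j _ =>
      continuous_finset_sum _ fun l _ => ((SLO_bc c i j l).norm).pow 2
  obtain ⟨ε₁, hε₁, hN2⟩ := (SLO_cpt n).exists_forall_le' hNc.continuousOn hN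
  have h6 : 0 < 6 + σ := by linarith
  refine ⟨min ε₁ (ε₀ / (6 + σ)), lt_min hε₁ (by positivity), fun u d hu hd => ?_⟩
  set r : ℝ := Real.sqrt (∑ i, d i ^ 2) with hr
  have hr0 : 0 ≤ r := Real.sqrt_nonneg _
  have hr2 : r ^ 2 = ∑ i, d i ^ 2 := Real.sq_sqrt (Finset.sum_nonneg fun i _ => sq_nonneg _)
  change min ε₁ (ε₀ / (6 + σ)) * Real.exp (-σ * r) ≤ nrm (ud c u d)
  rcases hr0.eq_or_lt with h0 | hrpos
  · -- `d = 0`
    have hd0 : ∀ i, d i = 0 := by
      intro i
      have h1 : ∑ i, d i ^ 2 = 0 := by rw [← hr2, ← h0]; norm_num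
      rw [Finset.sum_eq_zero_iff_of_nonneg (fun i _ => sq_nonneg _)] at h1
      have := h1 i (Finset.mem_univ i)
      exact pow_eq_zero_iff (two_ne_zero) |>.mp this
    have e : nrm (ud c u d) = nrm (bc c u uᴴ) := by
      rw [SLO_nrm]
      unfold nrm
      simp only [hd0]
      simp
    rw [e, ← h0, mul_zero, Real.exp_zero, mul_one]
    exact (min_le_left _ _).trans (hN2 u hu)
  · have hδ0 : ∑ i, d i / r = 0 := by rw [← Finset.sum_div, hd, zero_div]
    have hδ1 : ∑ i, (d i / r) ^ 2 = 1 := by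
      simp only [div_pow]
      rw [← Finset.sum_div, ← hr2, div_self (pow_pos hrpos 2).ne']
    have hg := hG2 (u, fun i => d i / r) ⟨hu, hδ0, hδ1⟩
    rw [SLO_nrm]
    have key : Real.exp (-σ * r) / (6 + σ) * SLO_G c σ (u, fun i => d i / r) ≤
        ∑ i, ∑ j, ∑ l, ‖bc c u uᴴ i j l‖ ^ 2 * Real.exp (2 * (d i + d j - d l)) := by
      unfold SLO_G
      rw [Finset.mul_sum]
      refine Finset.sum_le_sum fun i _ => ?_
      rw [Finset.mul_sum]
      refine Finset.sum_le_sum fun j _ => ?_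
      rw [Finset.mul_sum]
      refine Finset.sum_le_sum fun l _ => ?_
      show Real.exp (-σ * r) / (6 + σ) * (‖bc c u uᴴ i j l‖ ^ 2 *
        max 0 (2 * (d i / r + d j / r - d l / r) + σ)) ≤ _
      set x : ℝ := d i / r + d j / r - d l / r with hx
      have hxd : d i + d j - d l = r * x := by
        rw [hx]
        field_simp
      rw [hxd]
      have ai := abs_le.mp (SLO_abs hδ1 i)
      have aj := abs_le.mp (SLO_abs hδ1 j)
      have al := abs_le.mp (SLO_abs hδ1 l)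
      have hx3 : x ≤ 3 := by
        rw [hx]
        linarith [ai.2, aj.2, al.1]
      have hmain : Real.exp (-σ * r) / (6 + σ) * max 0 (2 * x + σ) ≤
          Real.exp (2 * (r * x)) := by
        rcases le_total (2 * x + σ) 0 with hle | hge
        · rw [max_eq_left hle, mul_zero]
          exact (Real.exp_pos _).le
        · rw [max_eq_right hge]
          have e1 : Real.exp (-σ * r) ≤ Real.exp (2 * (r * x)) := by
            rw [Real.exp_le_exp]
            nlinarith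
          have e2 : (2 * x + σ) / (6 + σ) ≤ 1 := by
            rw [div_le_one h6]
            linarith
          calc Real.exp (-σ * r) / (6 + σ) * (2 * x + σ)
              = Real.exp (-σ * r) * ((2 * x + σ) / (6 + σ)) := by ring
            _ ≤ Real.exp (-σ * r) * 1 := by gcongr
            _ ≤ Real.exp (2 * (r * x)) := by rw [mul_one]; exact e1
      calc Real.exp (-σ * r) / (6 + σ) * (‖bc c u uᴴ i j l‖ ^ 2 * max 0 (2 * x + σ))
          = ‖bc c u uᴴ i j l‖ ^ 2 *
            (Real.exp (-σ * r) / (6 + σ) * max 0 (2 * x + σ)) := by ring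
        _ ≤ ‖bc c u uᴴ i j l‖ ^ 2 * Real.exp (2 * (r * x)) := by gcongr
    refine le_trans ?_ key
    calc min ε₁ (ε₀ / (6 + σ)) * Real.exp (-σ * r) ≤ ε₀ / (6 + σ) * Real.exp (-σ * r) := by
          gcongr
          exact min_le_right _ _
      _ = Real.exp (-σ * r) / (6 + σ) * ε₀ := by ring
      _ ≤ Real.exp (-σ * r) / (6 + σ) * SLO_G c σ (u, fun i => d i / r) := by gcongr

end MP_b83a82_al.LP
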