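import Pool.Agent.Lib.MP_b83a82_al.LP.Stm1

set_option autoImplicit false

/-!
# LARGE PRIMES, piece STR: unitary strict triangularisation of a nilpotent family
-/

open Matrix

namespace MP_b83a82_al.LP

private theorem STR_list {n K : ℕ} {ι : Type} (E : ι → Matrix (Fin n) (Fin n) ℂ) :
    (∀ f : Fin K → ι, (List.ofFn fun t => E (f t)).prod = 0) ↔
      ∀ l : List ι, l.length = K → (l.map E).prod = 0 := by
  constructor
  · rintro h l rfl
    have h1 := h l.get
    have h2 : (List.ofFn fun t => E (l.get t)) = l.map E := by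
      have h3 : (fun t => E (l.get t)) = E ∘ l.get := rfl
      rw [h3, ← List.map_ofFn, List.ofFn_get]
    rwa [h2] at h1
  · intro h f
    have h1 := h (List.ofFn f) (List.length_ofFn)
    rw [List.map_ofFn] at h1
    exact h1

private theorem STR_ker {n : ℕ} {ι : Type} (E : ι → Matrix (Fin (n + 1)) (Fin (n + 1)) ℂ) :
    ∀ K : ℕ, (∀ l : List ι, l.length = K → (l.map E).prod = 0) →
      ∃ x : Fin (n + 1) → ℂ, x ≠ 0 ∧ ∀ i, E i *ᵥ x = 0
  | 0, h => by
    have h1 := h [] rfl
    rw [List.map_nil, List.prod_nil] at h1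
    exact absurd h1 one_ne_zero
  | K + 1, h => by
    by_cases hK : ∀ l : List ι, l.length = K → (l.map E).prod = 0
    · exact STR_ker E K hK
    · push Not at hK
      obtain ⟨l, hl, hP⟩ := hK
      obtain ⟨b, hb⟩ : ∃ b, (fun a => (l.map E).prod a b) ≠ 0 := by
        by_contra hc
        push Not at hc
        exact hP (Matrix.ext fun a b => congrFun (hc b) a)
      refine ⟨_, hb, fun i => ?_⟩
      have h1 := h (i :: l) (by rw [List.length_cons, hl])
      rw [List.map_cons, List.prod_cons] at h1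
      funext a
      have h2 := congrFun (congrFun h1 a) b
      rw [Matrix.mul_apply] at h2
      exact h2

private theorem STR_uni {n : ℕ} (x : Fin (n + 1) → ℂ) (hx : x ≠ 0) :
    ∃ (u : Matrix (Fin (n + 1)) (Fin (n + 1)) ℂ) (c : ℂ), Un u ∧
      ∀ a, u a (Fin.last n) = c * x a := by
  obtain ⟨y, hy⟩ : ∃ y : EuclideanSpace ℂ (Fin (n + 1)), ∀ a, y a = x a :=
    ⟨WithLp.toLp 2 x, fun _ => rfl⟩
  have hy0 : y ≠ 0 := by
    intro h
    apply hx
    funext a
    rw [← hy a, h]
    rfl
  have hv : ‖((‖y‖⁻¹ : ℝ) : ℂ) • y‖ = 1 := by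
    rw [norm_smul, Complex.norm_real, Real.norm_of_nonneg (by positivity)]
    exact inv_mul_cancel₀ (norm_ne_zero_iff.mpr hy0)
  obtain ⟨b, hb⟩ := Orthonormal.exists_orthonormalBasis_extension_of_card_eq (𝕜 := ℂ)
    (E := EuclideanSpace ℂ (Fin (n + 1))) (ι := Fin (n + 1)) (by simp)
    (v := fun _ => ((‖y‖⁻¹ : ℝ) : ℂ) • y) (s := {Fin.last n})
    ⟨fun _ => hv, fun i j hij => absurd (Subsingleton.elim i j) hij⟩
  have h1 : (Matrix.of fun a j => (b j) a)ᴴ * (Matrix.of fun a j => (b j) a) =
      (1 : Matrix (Fin (n + 1)) (Fin (n + 1)) ℂ) := by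
    ext i j
    have h2 := orthonormal_iff_ite.mp b.orthonormal i j
    rw [PiLp.inner_apply] at h2
    rw [Matrix.mul_apply, Matrix.one_apply, ← h2]
    refine Finset.sum_congr rfl fun a _ => ?_
    rw [Matrix.conjTranspose_apply, Matrix.of_apply, Matrix.of_apply, mul_comm]
    rfl
  refine ⟨Matrix.of fun a j => (b j) a, ((‖y‖⁻¹ : ℝ) : ℂ), ⟨h1, mul_eq_one_comm.mp h1⟩,
    fun a => ?_⟩
  rw [Matrix.of_apply, hb (Fin.last n) rfl, ← hy a]
  rfl

/-- the matrix `[[A, 0], [0, 1]]` -/
private def STR_D {n : ℕ} (A : Matrix (Fin n) (Fin n) ℂ) :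
    Matrix (Fin (n + 1)) (Fin (n + 1)) ℂ := fun a b =>
  Fin.lastCases (motive := fun _ => ℂ) (Fin.lastCases (motive := fun _ => ℂ) 1 (fun _ => 0) b)
    (fun a' => Fin.lastCases (motive := fun _ => ℂ) 0 (fun b' => A a' b') b) a

private theorem STR_D11 {n : ℕ} (A : Matrix (Fin n) (Fin n) ℂ) (a b : Fin n) :
    STR_D A a.castSucc b.castSucc = A a b := by
  simp [STR_D]

private theorem STR_D12 {n : ℕ} (A : Matrix (Fin n) (Fin n) ℂ) (a : Fin n) :
    STR_D A a.castSucc (Fin.last n) = 0 := by
  simp [STR_D]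

private theorem STR_D21 {n : ℕ} (A : Matrix (Fin n) (Fin n) ℂ) (b : Fin n) :
    STR_D A (Fin.last n) b.castSucc = 0 := by
  simp [STR_D]

private theorem STR_D22 {n : ℕ} (A : Matrix (Fin n) (Fin n) ℂ) :
    STR_D A (Fin.last n) (Fin.last n) = 1 := by
  simp [STR_D]

private theorem STR_Dun {n : ℕ} (A : Matrix (Fin n) (Fin n) ℂ) (hA : Un A) : Un (STR_D A) := by
  have h : (STR_D A)ᴴ * STR_D A = 1 := by
    ext i j
    rw [Matrix.mul_apply, Fin.sum_univ_castSucc]
    simp only [Matrix.conjTranspose_apply]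
    refine Fin.lastCases ?_ (fun i => ?_) i
    · refine Fin.lastCases ?_ (fun j => ?_) j
      · simp [STR_D12, STR_D22]
      · simp [STR_D12, STR_D21, STR_D22, Matrix.one_apply, (Fin.castSucc_lt_last j).ne']
    · refine Fin.lastCases ?_ (fun j => ?_) j
      · simp [STR_D12, STR_D21, STR_D22, Matrix.one_apply, (Fin.castSucc_lt_last i).ne]
      · have h1 := congrFun (congrFun hA.1 i) j
        rw [Matrix.mul_apply] at h1
        simp only [Matrix.conjTranspose_apply] at h1
        simp only [STR_D11, STR_D21, star_zero, zero_mul, add_zero, h1, Matrix.one_apply,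
          Fin.castSucc_inj]
  exact ⟨h, mul_eq_one_comm.mp h⟩

theorem p_STR : S_STR := by
  intro n
  induction n with
  | zero =>
    intro K ι E _
    exact ⟨1, ⟨by simp, by simp⟩, fun i l => l.elim0⟩
  | succ n ih =>
    intro K ι E hE
    rw [STR_list] at hE
    obtain ⟨x, hx0, hx⟩ := STR_ker E K hE
    obtain ⟨u₁, c, hu₁, hcol⟩ := STR_uni x hx0
    -- the matrices in the new basis
    obtain ⟨M, hM⟩ : ∃ M : ι → Matrix (Fin (n + 1)) (Fin (n + 1)) ℂ,
        ∀ i, M i = u₁ᴴ * E i * u₁ := ⟨_, fun _ => rfl⟩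
    have hM0 : ∀ i a, M i a (Fin.last n) = 0 := by
      intro i a
      rw [hM, Matrix.mul_assoc, Matrix.mul_apply]
      refine Finset.sum_eq_zero fun d _ => ?_
      have h1 : (E i * u₁) d (Fin.last n) = c * (E i *ᵥ x) d := by
        rw [Matrix.mul_apply, Matrix.mulVec, dotProduct, Finset.mul_sum]
        refine Finset.sum_congr rfl fun s _ => ?_
        rw [hcol]
        ring
      rw [h1, hx i, Pi.zero_apply, mul_zero, mul_zero]
    have hMprod : ∀ l : List ι, (l.map M).prod = u₁ᴴ * (l.map E).prod * u₁ := by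
      intro l
      induction l with
      | nil => rw [List.map_nil, List.map_nil, List.prod_nil, mul_one, hu₁.1]
      | cons i l ihl =>
        rw [List.map_cons, List.map_cons, List.prod_cons, List.prod_cons, ihl, hM]
        calc u₁ᴴ * E i * u₁ * (u₁ᴴ * (l.map E).prod * u₁) =
            u₁ᴴ * E i * (u₁ * u₁ᴴ) * (l.map E).prod * u₁ := by simp only [Matrix.mul_assoc]
          _ = u₁ᴴ * (E i * (l.map E).prod) * u₁ := by
            rw [hu₁.2, Matrix.mul_one]
            simp only [Matrix.mul_assoc]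
    -- the corner
    obtain ⟨E', hE'⟩ : ∃ E' : ι → Matrix (Fin n) (Fin n) ℂ,
        ∀ i, E' i = (M i).submatrix Fin.castSucc Fin.castSucc := ⟨_, fun _ => rfl⟩
    have hE'prod : ∀ l : List ι, (l.map E').prod =
        ((l.map M).prod).submatrix Fin.castSucc Fin.castSucc := by
      intro l
      induction l with
      | nil =>
        rw [List.map_nil, List.map_nil, List.prod_nil, List.prod_nil,
          Matrix.submatrix_one _ (Fin.castSucc_injective n)]
      | cons i l ihl =>
        rw [List.map_cons, List.map_cons, List.prod_cons, List.prod_cons, ihl, hE']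
        ext a b
        rw [Matrix.submatrix_apply, Matrix.mul_apply, Matrix.mul_apply, Fin.sum_univ_castSucc,
          hM0, zero_mul, add_zero]
        rfl
    have hE'K : ∀ f : Fin K → ι, (List.ofFn fun t => E' (f t)).prod = 0 := by
      rw [STR_list]
      intro l hl
      rw [hE'prod, hMprod, hE l hl, Matrix.mul_zero, Matrix.zero_mul]
      rfl
    obtain ⟨u', hu', htri⟩ := ih K ι E' hE'K
    have hD := STR_Dun u' hu'
    refine ⟨u₁ * STR_D u', ⟨?_, ?_⟩, ?_⟩
    · rw [Matrix.conjTranspose_mul]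
      calc (STR_D u')ᴴ * u₁ᴴ * (u₁ * STR_D u') = (STR_D u')ᴴ * (u₁ᴴ * u₁) * STR_D u' := by
            simp only [Matrix.mul_assoc]
        _ = 1 := by rw [hu₁.1, Matrix.mul_one, hD.1]
    · rw [Matrix.conjTranspose_mul]
      calc u₁ * STR_D u' * ((STR_D u')ᴴ * u₁ᴴ) = u₁ * (STR_D u' * (STR_D u')ᴴ) * u₁ᴴ := by
            simp only [Matrix.mul_assoc]
        _ = 1 := by rw [hD.2, Matrix.mul_one, hu₁.2]
    · intro i l j h
      have he : (u₁ * STR_D u')ᴴ * E i * (u₁ * STR_D u') =
          (STR_D u')ᴴ * (M i * STR_D u') := by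
        rw [Matrix.conjTranspose_mul, hM]
        simp only [Matrix.mul_assoc]
      rw [he] at h
      revert h
      refine Fin.lastCases ?_ (fun j' => ?_) j
      · intro h
        refine absurd ?_ h
        rw [Matrix.mul_apply]
        refine Finset.sum_eq_zero fun a _ => ?_
        have h1 : (M i * STR_D u') a (Fin.last n) = 0 := by
          rw [Matrix.mul_apply, Fin.sum_univ_castSucc, hM0, zero_mul, add_zero]
          refine Finset.sum_eq_zero fun b _ => ?_
          rw [STR_D12, mul_zero]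
        rw [h1, mul_zero]
      · refine Fin.lastCases ?_ (fun l' => ?_) l
        · intro _
          exact Fin.castSucc_lt_last j'
        · intro h
          rw [Fin.castSucc_lt_castSucc_iff]
          refine htri i l' j' ?_
          intro h0
          apply h
          rw [Matrix.mul_assoc, Matrix.mul_apply] at h0
          rw [Matrix.mul_apply, Fin.sum_univ_castSucc]
          have h2 : (STR_D u')ᴴ l'.castSucc (Fin.last n) = 0 := by
            rw [Matrix.conjTranspose_apply, STR_D21, star_zero]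
          rw [h2, zero_mul, add_zero, ← h0]
          refine Finset.sum_congr rfl fun a _ => ?_
          rw [Matrix.conjTranspose_apply, Matrix.conjTranspose_apply, STR_D11, Matrix.mul_apply,
            Matrix.mul_apply, Fin.sum_univ_castSucc, STR_D21, mul_zero, add_zero]
          congr 1
          refine Finset.sum_congr rfl fun b _ => ?_
          rw [STR_D11, hE']
          rfl

end MP_b83a82_al.LP
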