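import Pool.Agent.Lib.MP_b83a82_al.LP.Stm1

set_option autoImplicit false

open Matrix

namespace MP_b83a82_al.LP

section

variable {n : ℕ}

/-- the action on families -/
private noncomputable def act (X : Matrix (Fin n) (Fin n) ℂ)
    (T : Fin n → Matrix (Fin n) (Fin n) ℂ) (y : Fin n) : Matrix (Fin n) (Fin n) ℂ :=
  X * T y - T y * X - ∑ a, X a y • T a

/-- the inner product -/
private noncomputable def ip (T S : Fin n → Matrix (Fin n) (Fin n) ℂ) : ℂ :=
  ∑ y, trace (T y * (S y)ᴴ)

private lemma act_adj (X : Matrix (Fin n) (Fin n) ℂ) (T S : Fin n → Matrix (Fin n) (Fin n) ℂ) :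
    ip (act X T) S = ip T (act Xᴴ S) := by
  unfold ip act
  simp only [Matrix.sub_mul, Matrix.conjTranspose_sub, Matrix.mul_sub, Matrix.trace_sub,
    Finset.sum_sub_distrib]
  congr 1
  · congr 1
    · refine Finset.sum_congr rfl fun y _ => ?_
      rw [Matrix.conjTranspose_mul, Matrix.conjTranspose_conjTranspose, Matrix.mul_assoc,
        Matrix.trace_mul_comm, Matrix.mul_assoc]
    · refine Finset.sum_congr rfl fun y _ => ?_
      rw [Matrix.conjTranspose_mul, Matrix.conjTranspose_conjTranspose, Matrix.mul_assoc]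
  · simp only [Finset.sum_mul, Matrix.conjTranspose_sum, Finset.mul_sum, Matrix.trace_sum,
      Matrix.smul_mul, Matrix.trace_smul, Matrix.conjTranspose_smul, Matrix.mul_smul]
    rw [Finset.sum_comm]
    refine Finset.sum_congr rfl fun a _ => Finset.sum_congr rfl fun y _ => ?_
    rw [Matrix.conjTranspose_apply, star_star]

private lemma act_comm (X Y : Matrix (Fin n) (Fin n) ℂ)
    (T : Fin n → Matrix (Fin n) (Fin n) ℂ) :
    act X (act Y T) = fun y => act Y (act X T) y + act (X * Y - Y * X) T y := by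
  funext y
  unfold act
  have e1 : ∀ Z W : Matrix (Fin n) (Fin n) ℂ,
      ∑ a, Z a y • (W * T a - T a * W - ∑ b, W b a • T b) =
        W * (∑ a, Z a y • T a) - (∑ a, Z a y • T a) * W - ∑ b, (W * Z) b y • T b := by
    intro Z W
    simp only [smul_sub, Finset.sum_sub_distrib, Finset.mul_sum, Finset.sum_mul,
      Matrix.mul_smul, Matrix.smul_mul]
    congr 1
    simp only [Finset.smul_sum, smul_smul, Matrix.mul_apply, Finset.sum_smul]
    rw [Finset.sum_comm]
    refine Finset.sum_congr rfl fun a _ => Finset.sum_congr rfl fun b _ => ?_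
    rw [mul_comm]
  rw [e1, e1]
  simp only [Matrix.sub_apply, sub_smul, Finset.sum_sub_distrib, Matrix.mul_sub, Matrix.sub_mul,
    Matrix.mul_assoc]
  abel

private lemma tr_alt {c : SC n ℂ} (hc : ∀ i j l, c i j l = -c j i l) (a y : Fin n) :
    trace (adM c a * (adM c y)ᴴ) = mA c y a := by
  unfold mA
  simp only [Matrix.trace, Matrix.diag, Matrix.mul_apply, Matrix.sum_apply,
    Matrix.conjTranspose_apply, adM, Matrix.of_apply]
  rw [Finset.sum_comm]
  refine Finset.sum_congr rfl fun s _ => Finset.sum_congr rfl fun l _ => ?_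
  rw [hc a s l, hc y s l, star_neg]
  ring

private lemma ip_act {c : SC n ℂ} (hc : ∀ i j l, c i j l = -c j i l)
    (X : Matrix (Fin n) (Fin n) ℂ) : ip (act X (adM c)) (adM c) = trace (X * mQ c) := by
  unfold ip act mQ
  simp only [Matrix.sub_mul, Matrix.trace_sub, Finset.sum_sub_distrib, Matrix.mul_sub,
    Matrix.mul_smul, Matrix.trace_smul]
  have h1 : ∑ y, trace (X * adM c y * (adM c y)ᴴ) = trace (X * mB c) := by
    unfold mB
    rw [Finset.mul_sum, Matrix.trace_sum]
    refine Finset.sum_congr rfl fun y _ => ?_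
    rw [Matrix.mul_assoc]
  have h2 : ∑ y, trace (adM c y * X * (adM c y)ᴴ) = trace (X * mA c) := by
    unfold mA
    rw [Finset.mul_sum, Matrix.trace_sum]
    refine Finset.sum_congr rfl fun y _ => ?_
    rw [Matrix.mul_assoc, Matrix.trace_mul_comm, Matrix.mul_assoc]
  have h3 : ∑ y, trace ((∑ a, X a y • adM c a) * (adM c y)ᴴ) = trace (X * mA c) := by
    simp only [Finset.sum_mul, Matrix.smul_mul, Matrix.trace_sum, Matrix.trace_smul, tr_alt hc,
      smul_eq_mul]
    rw [Finset.sum_comm]
    simp only [Matrix.trace, Matrix.diag, Matrix.mul_apply]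
  rw [h1, h2, h3, smul_eq_mul]
  ring

end

theorem p_TR1 : S_TR1 := by
  intro n K c hc
  have hJ : ∀ x, act (adM c x) (adM c) = 0 := by
    intro x
    funext y
    unfold act
    rw [hc.jac x y]
    simp only [adM, Matrix.of_apply, Pi.zero_apply, sub_self]
  have h1 : ∀ x, ∑ y, trace (mR c x y * (mR c x y)ᴴ) =
      trace ((adM c x * (adM c x)ᴴ - (adM c x)ᴴ * adM c x) * mQ c) := by
    intro x
    have e1 : (∑ y, trace (mR c x y * (mR c x y)ᴴ)) =
        ip (act (adM c x)ᴴ (adM c)) (act (adM c x)ᴴ (adM c)) := rfl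
    have e2 : ip (act (adM c x)ᴴ (adM c)) (act (adM c x)ᴴ (adM c)) =
        ip (act (adM c x) (act (adM c x)ᴴ (adM c))) (adM c) := by
      rw [act_adj (adM c x)]
    rw [e1, e2, act_comm, hJ x, ← ip_act hc.alt]
    unfold ip
    refine Finset.sum_congr rfl fun y _ => ?_
    have e3 : act (adM c x)ᴴ (0 : Fin n → Matrix (Fin n) (Fin n) ℂ) y = 0 := by
      unfold act
      simp
    beta_reduce
    rw [e3, zero_add]
  simp only [h1]
  rw [← Matrix.trace_sum, ← Finset.sum_mul, Finset.sum_sub_distrib]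
  rfl

end MP_b83a82_al.LP
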