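import Pool.Agent.Lib.MP_b83a82_al.LP.Stm1

set_option autoImplicit false

open Matrix

namespace MP_b83a82_al.LP

section

variable {n : ℕ}

private noncomputable def nsq (Z : Matrix (Fin n) (Fin n) ℂ) : ℝ := (trace (Z * Zᴴ)).re

private lemma nsq_eq (Z : Matrix (Fin n) (Fin n) ℂ) : nsq Z = ∑ i, ∑ j, ‖Z i j‖ ^ 2 := by
  unfold nsq
  simp only [Matrix.trace, Matrix.diag, Matrix.mul_apply, Matrix.conjTranspose_apply,
    Complex.re_sum]
  refine Finset.sum_congr rfl fun i _ => Finset.sum_congr rfl fun j _ => ?_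
  have h : Z i j * star (Z i j) = ((‖Z i j‖ ^ 2 : ℝ) : ℂ) := by
    rw [Complex.star_def, Complex.mul_conj, Complex.normSq_eq_norm_sq]
  rw [h, Complex.ofReal_re]

private lemma nsq_nonneg (Z : Matrix (Fin n) (Fin n) ℂ) : 0 ≤ nsq Z := by
  rw [nsq_eq]
  positivity

private lemma nsq_sub (Z W : Matrix (Fin n) (Fin n) ℂ) :
    nsq (Z - W) ≤ 2 * nsq Z + 2 * nsq W := by
  rw [nsq_eq, nsq_eq, nsq_eq, Finset.mul_sum, Finset.mul_sum, ← Finset.sum_add_distrib]
  refine Finset.sum_le_sum fun i _ => ?_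
  rw [Finset.mul_sum, Finset.mul_sum, ← Finset.sum_add_distrib]
  refine Finset.sum_le_sum fun j _ => ?_
  rw [Matrix.sub_apply]
  have h := norm_sub_le (Z i j) (W i j)
  nlinarith [norm_nonneg (Z i j - W i j), norm_nonneg (Z i j), norm_nonneg (W i j),
    sq_nonneg (‖Z i j‖ - ‖W i j‖)]

private lemma nsq_conj (Z : Matrix (Fin n) (Fin n) ℂ) : nsq Zᴴ = nsq Z := by
  unfold nsq
  rw [Matrix.conjTranspose_conjTranspose, Matrix.trace_mul_comm]

private lemma tr_alt2 {c : SC n ℂ} (hc : ∀ i j l, c i j l = -c j i l) (a y : Fin n) :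
    trace (adM c a * (adM c y)ᴴ) = mA c y a := by
  unfold mA
  simp only [Matrix.trace, Matrix.diag, Matrix.mul_apply, Matrix.sum_apply,
    Matrix.conjTranspose_apply, adM, Matrix.of_apply]
  rw [Finset.sum_comm]
  refine Finset.sum_congr rfl fun s _ => Finset.sum_congr rfl fun l _ => ?_
  rw [hc a s l, hc y s l, star_neg]
  ring

private noncomputable def mT (c : SC n ℂ) (x y : Fin n) : Matrix (Fin n) (Fin n) ℂ :=
  ∑ a, (adM c x)ᴴ a y • adM c a

private lemma mT_sum {c : SC n ℂ} (hc : ∀ i j l, c i j l = -c j i l) :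
    ∑ x, ∑ y, trace (mT c x y * (mT c x y)ᴴ) = trace (mA c * mA c) := by
  have h1 : ∀ x y, trace (mT c x y * (mT c x y)ᴴ) =
      ∑ a, ∑ b, (adM c x)ᴴ a y * star ((adM c x)ᴴ b y) * mA c b a := by
    intro x y
    unfold mT
    rw [Matrix.conjTranspose_sum, Finset.sum_mul_sum, Matrix.trace_sum]
    refine Finset.sum_congr rfl fun a _ => ?_
    rw [Matrix.trace_sum]
    refine Finset.sum_congr rfl fun b _ => ?_
    rw [Matrix.conjTranspose_smul, Matrix.smul_mul, Matrix.mul_smul, Matrix.trace_smul,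
      Matrix.trace_smul, tr_alt2 hc, smul_eq_mul, smul_eq_mul, mul_assoc]
  have h2 : ∀ a b, ∑ x, ∑ y, (adM c x)ᴴ a y * star ((adM c x)ᴴ b y) = mA c a b := by
    intro a b
    unfold mA
    rw [Matrix.sum_apply]
    refine Finset.sum_congr rfl fun x _ => ?_
    rw [Matrix.mul_apply]
    refine Finset.sum_congr rfl fun y _ => ?_
    rw [Matrix.conjTranspose_apply, Matrix.conjTranspose_apply, star_star]
  calc ∑ x, ∑ y, trace (mT c x y * (mT c x y)ᴴ)
      = ∑ x, ∑ y, ∑ a, ∑ b, (adM c x)ᴴ a y * star ((adM c x)ᴴ b y) * mA c b a := by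
        simp only [h1]
    _ = ∑ x, ∑ a, ∑ y, ∑ b, (adM c x)ᴴ a y * star ((adM c x)ᴴ b y) * mA c b a :=
        Finset.sum_congr rfl fun x _ => Finset.sum_comm
    _ = ∑ a, ∑ x, ∑ y, ∑ b, (adM c x)ᴴ a y * star ((adM c x)ᴴ b y) * mA c b a :=
        Finset.sum_comm
    _ = ∑ a, ∑ x, ∑ b, ∑ y, (adM c x)ᴴ a y * star ((adM c x)ᴴ b y) * mA c b a :=
        Finset.sum_congr rfl fun a _ => Finset.sum_congr rfl fun x _ => Finset.sum_comm
    _ = ∑ a, ∑ b, ∑ x, ∑ y, (adM c x)ᴴ a y * star ((adM c x)ᴴ b y) * mA c b a :=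
        Finset.sum_congr rfl fun a _ => Finset.sum_comm
    _ = ∑ a, ∑ b, mA c a b * mA c b a := by
        refine Finset.sum_congr rfl fun a _ => Finset.sum_congr rfl fun b _ => ?_
        rw [← h2 a b, Finset.sum_mul]
        refine Finset.sum_congr rfl fun x _ => ?_
        rw [Finset.sum_mul]
    _ = trace (mA c * mA c) := by
        simp only [Matrix.trace, Matrix.diag, Matrix.mul_apply]

end

theorem p_TR2 : S_TR2 := by
  intro n K c hc htri
  have hz : ∀ x y, ¬ x < y → mT c x y = 0 := by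
    intro x y hxy
    unfold mT
    refine Finset.sum_eq_zero fun a _ => ?_
    have : c x a y = 0 := by
      by_contra h
      exact hxy (htri x a y h).1
    rw [Matrix.conjTranspose_apply]
    simp only [adM, Matrix.of_apply, this, star_zero, zero_smul]
  have hR : ∀ x y, mR c x y = (adM c x)ᴴ * adM c y - adM c y * (adM c x)ᴴ - mT c x y :=
    fun x y => rfl
  have hT : ∀ x y, x < y → mT c x y = (mR c y x)ᴴ - mR c x y := by
    intro x y hxy
    have e1 : mT c y x = 0 := hz y x (not_lt.mpr hxy.le)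
    rw [hR y x, hR x y, e1, sub_zero, Matrix.conjTranspose_sub, Matrix.conjTranspose_mul,
      Matrix.conjTranspose_mul, Matrix.conjTranspose_conjTranspose]
    abel
  have h1 : ∀ x y, nsq (mT c x y) ≤
      (if x < y then 2 * nsq (mR c y x) + 2 * nsq (mR c x y) else 0) := by
    intro x y
    split_ifs with hxy
    · rw [hT x y hxy]
      have := nsq_sub ((mR c y x)ᴴ) (mR c x y)
      rwa [nsq_conj] at this
    · rw [hz x y hxy]
      simp [nsq]
  have h2 : ∑ x, ∑ y, nsq (mT c x y) = (trace (mA c * mA c)).re := by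
    rw [← mT_sum hc.alt, Complex.re_sum]
    refine Finset.sum_congr rfl fun x _ => ?_
    rw [Complex.re_sum]
    rfl
  have h3 : (∑ x, ∑ y, trace (mR c x y * (mR c x y)ᴴ)).re = ∑ x, ∑ y, nsq (mR c x y) := by
    rw [Complex.re_sum]
    refine Finset.sum_congr rfl fun x _ => ?_
    rw [Complex.re_sum]
    rfl
  rw [← h2, h3]
  have h4 : ∑ x, ∑ y, (if x < y then 2 * nsq (mR c y x) + 2 * nsq (mR c x y) else 0) =
      ∑ x, ∑ y, (if y < x then 2 * nsq (mR c x y) else 0) +
        ∑ x, ∑ y, (if x < y then 2 * nsq (mR c x y) else 0) := by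
    rw [Finset.sum_comm (f := fun x y => if y < x then 2 * nsq (mR c x y) else 0),
      ← Finset.sum_add_distrib]
    refine Finset.sum_congr rfl fun x _ => ?_
    rw [← Finset.sum_add_distrib]
    refine Finset.sum_congr rfl fun y _ => ?_
    split_ifs <;> ring
  calc ∑ x, ∑ y, nsq (mT c x y)
      ≤ ∑ x, ∑ y, (if x < y then 2 * nsq (mR c y x) + 2 * nsq (mR c x y) else 0) :=
        Finset.sum_le_sum fun x _ => Finset.sum_le_sum fun y _ => h1 x y
    _ = ∑ x, ∑ y, (if y < x then 2 * nsq (mR c x y) else 0) +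
        ∑ x, ∑ y, (if x < y then 2 * nsq (mR c x y) else 0) := h4
    _ = ∑ x, ∑ y, ((if y < x then 2 * nsq (mR c x y) else 0) +
        (if x < y then 2 * nsq (mR c x y) else 0)) := by
        rw [← Finset.sum_add_distrib]
        refine Finset.sum_congr rfl fun x _ => ?_
        rw [← Finset.sum_add_distrib]
    _ ≤ ∑ x, ∑ y, 2 * nsq (mR c x y) := by
        refine Finset.sum_le_sum fun x _ => Finset.sum_le_sum fun y _ => ?_
        have h5 := nsq_nonneg (mR c x y)
        rcases lt_trichotomy x y with h | h | h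
        · rw [if_neg (not_lt.mpr h.le), if_pos h]
          linarith
        · subst h
          simp only [lt_self_iff_false, if_false]
          linarith
        · rw [if_pos h, if_neg (not_lt.mpr h.le)]
          linarith
    _ = 2 * ∑ x, ∑ y, nsq (mR c x y) := by
        rw [Finset.mul_sum]
        refine Finset.sum_congr rfl fun x _ => ?_
        rw [Finset.mul_sum]

end MP_b83a82_al.LP
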