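import Pool.Agent.Lib.MP_b83a82_al.LP.Stm3

set_option autoImplicit false

open Polynomial Module

namespace MP_b83a82_al.LP

universe u

section

variable {p : ℕ} [Fact p.Prime] {R : Type u} [Ring R] [Algebra (ZMod p) R]

/-- the commutator on a subspace closed under commutators -/
private noncomputable def TRA_D (W : Submodule (ZMod p) R) (hW : IsLieS W) : W →ₗ[ZMod p] W →ₗ[ZMod p] W :=
  LinearMap.mk₂ (ZMod p) (fun x y => ⟨(x : R) * y - y * x, hW x x.2 y y.2⟩)
    (by
      intro a b c
      apply Subtype.ext
      simp only [Submodule.coe_add]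
      noncomm_ring)
    (by
      intro a b c
      apply Subtype.ext
      simp only [Submodule.coe_smul, Algebra.smul_mul_assoc, Algebra.mul_smul_comm, smul_sub])
    (by
      intro a b c
      apply Subtype.ext
      simp only [Submodule.coe_add]
      noncomm_ring)
    (by
      intro a b c
      apply Subtype.ext
      simp only [Submodule.coe_smul, Algebra.smul_mul_assoc, Algebra.mul_smul_comm, smul_sub])

private theorem TRA_D_apply (W : Submodule (ZMod p) R) (hW : IsLieS W) (x y : W) :
    ((TRA_D W hW x y : W) : R) = (x : R) * y - y * x := rfl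

private theorem TRA_D_jac (W : Submodule (ZMod p) R) (hW : IsLieS W) (x y : W) :
    TRA_D W hW x * TRA_D W hW y - TRA_D W hW y * TRA_D W hW x = TRA_D W hW (TRA_D W hW x y) := by
  apply LinearMap.ext
  intro z
  apply Subtype.ext
  simp only [LinearMap.sub_apply, Module.End.mul_apply, Submodule.coe_sub, TRA_D_apply]
  noncomm_ring

private theorem TRA_D_pow (J W : Submodule (ZMod p) R) (hWJ : W ≤ J) (hW : IsLieS W)
    (l : List W) (y : W) : (((l.map (TRA_D W hW)).prod y : W) : R) ∈ J ^ (l.length + 1) := by
  induction l with
  | nil =>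
    simp only [List.map_nil, List.prod_nil, List.length_nil, zero_add, pow_one,
      Module.End.one_apply]
    exact hWJ y.2
  | cons x l ih =>
    rw [List.map_cons, List.prod_cons, Module.End.mul_apply, TRA_D_apply, List.length_cons]
    refine Submodule.sub_mem _ ?_ ?_
    · rw [pow_succ']
      exact Submodule.mul_mem_mul (hWJ x.2) ih
    · rw [pow_succ]
      exact Submodule.mul_mem_mul ih (hWJ x.2)

end

theorem p_TRA : S_TRA.{u} := by
  intro p m _ R _ _ _ J W hJ hWJ hW h
  have : FiniteDimensional (ZMod p) R := Module.Finite.of_finite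
  set n := finrank (ZMod p) W with hn
  let b : Basis (Fin n) (ZMod p) W := finBasis (ZMod p) W
  let D := TRA_D W hW
  let c : SC n (ZMod p) := fun i j l => b.repr (D (b i) (b j)) l
  have hadM : ∀ i, adM c i = LinearMap.toMatrixAlgEquiv b (D (b i)) := by
    intro i
    ext l j
    rw [LinearMap.toMatrixAlgEquiv_apply]
    rfl
  have hsum : ∀ i j, D (b i) (b j) = ∑ s, c i j s • b s := by
    intro i j
    exact (b.sum_repr (D (b i) (b j))).symm
  have hc : LieC m c := by
    refine ⟨?_, ?_, ?_⟩
    · intro i j l
      have h1 : D (b i) (b j) = -D (b j) (b i) := by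
        apply Subtype.ext
        rw [Submodule.coe_neg, TRA_D_apply, TRA_D_apply]
        abel
      show b.repr (D (b i) (b j)) l = -b.repr (D (b j) (b i)) l
      rw [h1, map_neg, Finsupp.neg_apply]
    · intro i j
      rw [hadM, hadM, ← map_mul (LinearMap.toMatrixAlgEquiv b), ← map_mul (LinearMap.toMatrixAlgEquiv b),
        ← map_sub (LinearMap.toMatrixAlgEquiv b)]
      have h2 : D (b i) * D (b j) - D (b j) * D (b i) = D (D (b i) (b j)) := TRA_D_jac W hW _ _
      rw [h2, hsum, map_sum, map_sum]
      refine Finset.sum_congr rfl fun s _ => ?_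
      rw [hadM, map_smul, map_smul]
    · intro f
      have h3 : (List.ofFn fun t => adM c (f t)) =
          (((List.ofFn fun t => b (f t)).map D).map (LinearMap.toMatrixAlgEquiv b)) := by
        rw [List.map_map, List.map_ofFn]
        congr 1
        funext t
        exact hadM (f t)
      rw [h3, ← map_list_prod]
      have h4 : ((List.ofFn fun t => b (f t)).map D).prod = 0 := by
        apply LinearMap.ext
        intro y
        apply Subtype.ext
        have h5 := TRA_D_pow J W hWJ hW (List.ofFn fun t => b (f t)) y
        rw [List.length_ofFn, pow_succ, hJ.nil, Submodule.bot_mul, Submodule.mem_bot] at h5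
        exact h5
      rw [h4, map_zero]
  obtain ⟨M0, N0, hNM, hbr, hdim⟩ := h c hc
  let g : (Fin n → ZMod p) →ₗ[ZMod p] R := W.subtype ∘ₗ b.equivFun.symm.toLinearMap
  have hg : Function.Injective g := by
    intro x y hxy
    exact b.equivFun.symm.injective (Subtype.ext hxy)
  have hgW : ∀ x, g x ∈ W := fun x => (b.equivFun.symm x).2
  have hgbr : ∀ x y, g (br c x y) = g x * g y - g y * g x := by
    intro x y
    have h6 : D (b.equivFun.symm x) (b.equivFun.symm y) = b.equivFun.symm (br c x y) := by
      rw [Basis.equivFun_symm_apply, Basis.equivFun_symm_apply, Basis.equivFun_symm_apply]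
      simp only [map_sum, LinearMap.sum_apply, map_smul, LinearMap.smul_apply, hsum, br,
        Finset.sum_smul, Finset.smul_sum, smul_smul]
      rw [Finset.sum_comm]
      symm
      rw [Finset.sum_comm]
      refine Finset.sum_congr rfl fun i _ => ?_
      rw [Finset.sum_comm]
      refine Finset.sum_congr rfl fun j _ => Finset.sum_congr rfl fun l _ => ?_
      congr 1
      ring
    have h7 := congrArg (fun z : W => (z : R)) h6
    exact h7.symm
  refine ⟨M0.map g, N0.map g, Submodule.map_mono hNM, ?_, ?_, ?_⟩
  · rintro _ ⟨x, -, rfl⟩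
    exact hgW x
  · rintro _ ⟨x, hx, rfl⟩ _ ⟨y, hy, rfl⟩
    exact ⟨br c x y, hbr x hx y hy, hgbr x y⟩
  · rw [← (Submodule.equivMapOfInjective g hg M0).finrank_eq,
      ← (Submodule.equivMapOfInjective g hg N0).finrank_eq]
    exact hdim

end MP_b83a82_al.LP
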