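import Pool.Agent.Lib.MP_b83a82_al.LP.Stm1

set_option autoImplicit false

open Matrix

namespace MP_b83a82_al.LP

theorem p_UIN : S_UIN := by
  intro hB n c
  have hns : ∀ z : ℂ, star z * z = ((‖z‖ ^ 2 : ℝ) : ℂ) := by
    intro z
    rw [Complex.star_def, mul_comm, Complex.mul_conj, Complex.normSq_eq_norm_sq]
  have hA : ∀ c : SC n ℂ, ((nrm c : ℝ) : ℂ) = trace (mA c) := by
    intro c
    unfold nrm mA
    simp only [Matrix.trace, Matrix.diag, Matrix.sum_apply, Matrix.mul_apply,
      Matrix.conjTranspose_apply, adM, Matrix.of_apply, hns]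
    rw [Finset.sum_comm]
    push_cast
    rfl
  have hBt : ((nrm c : ℝ) : ℂ) = trace (mB c) := by
    rw [hA]
    unfold mA mB
    rw [Matrix.trace_sum, Matrix.trace_sum]
    refine Finset.sum_congr rfl fun i _ => ?_
    rw [Matrix.trace_mul_comm]
  refine ⟨hA c, hBt, ?_⟩
  intro u hu
  have hadM : ∀ i, adM (bc c u uᴴ) i = uᴴ * (∑ a, u a i • adM c a) * u :=
    (hB ℂ n c u uᴴ).1
  have horth : ∀ a b, ∑ i, star (u a i) * u b i = if a = b then 1 else 0 := by
    intro a b
    have h1 := congrFun (congrFun hu.2 b) a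
    rw [Matrix.mul_apply, Matrix.one_apply] at h1
    simp only [Matrix.conjTranspose_apply] at h1
    calc ∑ i, star (u a i) * u b i = ∑ i, u b i * star (u a i) :=
          Finset.sum_congr rfl fun i _ => mul_comm _ _
      _ = if b = a then 1 else 0 := h1
      _ = if a = b then 1 else 0 := by
          by_cases h : a = b
          · rw [if_pos h, if_pos h.symm]
          · rw [if_neg h, if_neg (Ne.symm h)]
  have key : ∀ F : Fin n → Matrix (Fin n) (Fin n) ℂ,
      ∀ G : Fin n → Matrix (Fin n) (Fin n) ℂ,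
      ∑ i, (∑ a, star (u a i) • F a) * (∑ b, u b i • G b) = ∑ a, F a * G a := by
    intro F G
    calc ∑ i, (∑ a, star (u a i) • F a) * (∑ b, u b i • G b)
        = ∑ i, ∑ a, ∑ b, (star (u a i) * u b i) • (F a * G b) := by
          refine Finset.sum_congr rfl fun i _ => ?_
          rw [Finset.sum_mul_sum]
          refine Finset.sum_congr rfl fun a _ => Finset.sum_congr rfl fun b _ => ?_
          rw [Matrix.smul_mul, Matrix.mul_smul, smul_smul]
      _ = ∑ a, ∑ i, ∑ b, (star (u a i) * u b i) • (F a * G b) := Finset.sum_comm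
      _ = ∑ a, ∑ b, ∑ i, (star (u a i) * u b i) • (F a * G b) :=
          Finset.sum_congr rfl fun a _ => Finset.sum_comm
      _ = ∑ a, ∑ b, (if a = b then (1 : ℂ) else 0) • (F a * G b) := by
          refine Finset.sum_congr rfl fun a _ => Finset.sum_congr rfl fun b _ => ?_
          rw [← Finset.sum_smul, horth]
      _ = ∑ a, F a * G a := by
          refine Finset.sum_congr rfl fun a _ => ?_
          simp
  have key2 : ∀ F : Fin n → Matrix (Fin n) (Fin n) ℂ,
      ∀ G : Fin n → Matrix (Fin n) (Fin n) ℂ,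
      ∑ i, (∑ b, u b i • G b) * (∑ a, star (u a i) • F a) = ∑ a, G a * F a := by
    intro F G
    calc ∑ i, (∑ b, u b i • G b) * (∑ a, star (u a i) • F a)
        = ∑ i, ∑ b, ∑ a, (star (u a i) * u b i) • (G b * F a) := by
          refine Finset.sum_congr rfl fun i _ => ?_
          rw [Finset.sum_mul_sum]
          refine Finset.sum_congr rfl fun a _ => Finset.sum_congr rfl fun b _ => ?_
          rw [Matrix.smul_mul, Matrix.mul_smul, smul_smul, mul_comm]
      _ = ∑ b, ∑ i, ∑ a, (star (u a i) * u b i) • (G b * F a) := Finset.sum_comm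
      _ = ∑ b, ∑ a, ∑ i, (star (u a i) * u b i) • (G b * F a) :=
          Finset.sum_congr rfl fun a _ => Finset.sum_comm
      _ = ∑ b, ∑ a, (if a = b then (1 : ℂ) else 0) • (G b * F a) := by
          refine Finset.sum_congr rfl fun a _ => Finset.sum_congr rfl fun b _ => ?_
          rw [← Finset.sum_smul, horth]
      _ = ∑ a, G a * F a := by
          refine Finset.sum_congr rfl fun a _ => ?_
          simp
  have hH : ∀ i, (∑ a, u a i • adM c a)ᴴ = ∑ a, star (u a i) • (adM c a)ᴴ := by
    intro i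
    rw [Matrix.conjTranspose_sum]
    refine Finset.sum_congr rfl fun a _ => ?_
    rw [Matrix.conjTranspose_smul]
  have h1 : mA (bc c u uᴴ) = uᴴ * mA c * u := by
    unfold mA
    rw [← key (fun a => (adM c a)ᴴ) (fun a => adM c a), Finset.mul_sum, Finset.sum_mul]
    refine Finset.sum_congr rfl fun i _ => ?_
    rw [hadM, Matrix.conjTranspose_mul, Matrix.conjTranspose_mul,
      Matrix.conjTranspose_conjTranspose, hH]
    calc uᴴ * ((∑ a, star (u a i) • (adM c a)ᴴ) * u) * (uᴴ * (∑ a, u a i • adM c a) * u)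
        = uᴴ * (∑ a, star (u a i) • (adM c a)ᴴ) * (u * uᴴ) * (∑ a, u a i • adM c a) * u := by
          simp only [Matrix.mul_assoc]
      _ = uᴴ * ((∑ a, star (u a i) • (adM c a)ᴴ) * ∑ a, u a i • adM c a) * u := by
          rw [hu.2, Matrix.mul_one]
          simp only [Matrix.mul_assoc]
  have h2 : mB (bc c u uᴴ) = uᴴ * mB c * u := by
    unfold mB
    rw [← key2 (fun a => (adM c a)ᴴ) (fun a => adM c a), Finset.mul_sum, Finset.sum_mul]
    refine Finset.sum_congr rfl fun i _ => ?_
    rw [hadM, Matrix.conjTranspose_mul, Matrix.conjTranspose_mul,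
      Matrix.conjTranspose_conjTranspose, hH]
    calc uᴴ * (∑ a, u a i • adM c a) * u * (uᴴ * ((∑ a, star (u a i) • (adM c a)ᴴ) * u))
        = uᴴ * (∑ a, u a i • adM c a) * (u * uᴴ) * (∑ a, star (u a i) • (adM c a)ᴴ) * u := by
          simp only [Matrix.mul_assoc]
      _ = uᴴ * ((∑ a, u a i • adM c a) * ∑ a, star (u a i) • (adM c a)ᴴ) * u := by
          rw [hu.2, Matrix.mul_one]
          simp only [Matrix.mul_assoc]
  refine ⟨h1, h2, ?_, ?_⟩
  · unfold mQ
    rw [h1, h2, Matrix.mul_sub, Matrix.sub_mul, Matrix.mul_smul, Matrix.smul_mul]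
  · have h3 : ((nrm (bc c u uᴴ) : ℝ) : ℂ) = ((nrm c : ℝ) : ℂ) := by
      rw [hA, hA, h1, Matrix.mul_assoc, Matrix.trace_mul_comm, Matrix.mul_assoc, hu.2,
        Matrix.mul_one]
    exact_mod_cast h3

end MP_b83a82_al.LP
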