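import Pool.Agent.Lib.MP_b83a82_al.LP.Stm2

set_option autoImplicit false

/-!
# LARGE PRIMES, piece UNQ: uniqueness of the optimal filtration
-/

open Matrix

namespace MP_b83a82_al.LP

/-- admissibility depends only on the filtration -/
private theorem UNQ_adm (hAFL : S_AFL) {k : Type} [Field k] {n : ℕ} (c : SC n k)
    (g h f f' : Matrix (Fin n) (Fin n) k) (w u : Fin n → ℝ) (hgh : g * h = 1) (hff : f * f' = 1)
    (hA : Adm (bc c g h) w) (hfil : ∀ a, fil f u a = fil g w a) : Adm (bc c f f') u := by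
  rw [hAFL k n c f f' u hff]
  intro a b x hx y hy
  rw [hfil] at hx hy ⊢
  exact (hAFL k n c g h w hgh).1 hA a b x hx y hy

/-- **UNQ.** -/
theorem p_UNQ : S_UNQ := by
  intro hCOM hAFL k _ n c g h g' h' w w' hOpt hgh' hA' hs hz a
  obtain ⟨hgh, hA, hG, hmax⟩ := hOpt
  obtain ⟨f, f', u, u', hff, ⟨σ, hσ⟩, ⟨σ', hσ'⟩, hfil, hfil'⟩ :=
    hCOM k n g h g' h' w w' hgh hgh'
  have hAu : Adm (bc c f f') u := UNQ_adm hAFL c g h f f' w u hgh hff hA hfil
  have hAu' : Adm (bc c f f') u' := UNQ_adm hAFL c g' h' f f' w' u' hgh' hff hA' hfil'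
  have hAs : Adm (bc c f f') (fun i => u i + u' i) := by
    intro i j l hl
    have h1 := hAu i j l hl
    have h2 := hAu' i j l hl
    show u i + u' i + (u j + u' j) ≤ u l + u' l
    linarith
  have e1 : ∑ i, u i = ∑ i, w i := by
    rw [hσ]; exact Equiv.sum_comp σ w
  have e2 : ∑ i, u' i = ∑ i, w i := by
    rw [hσ', ← hs]; exact Equiv.sum_comp σ' w'
  have e3 : ∑ i, u i ^ 2 = ∑ i, w i ^ 2 := by
    rw [hσ]; exact Equiv.sum_comp σ (fun i => w i ^ 2)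
  have e4 : ∑ i, u' i ^ 2 = ∑ i, w i ^ 2 := by
    rw [hσ', ← hz]; exact Equiv.sum_comp σ' (fun i => w' i ^ 2)
  have hspos : 0 < ∑ i, w i := hG.1
  have e5 : ∑ i, (u i + u' i) = 2 * ∑ i, w i := by
    rw [Finset.sum_add_distrib, e1, e2]; ring
  have hm := hmax f f' (fun i => u i + u' i) hff hAs (by rw [e5]; linarith)
  have hm2 : (∑ i, (u i + u' i)) ^ 2 * ∑ i, w i ^ 2 ≤ (∑ i, w i) ^ 2 * ∑ i, (u i + u' i) ^ 2 := hm
  rw [e5] at hm2
  have hm3 : 4 * ∑ i, w i ^ 2 ≤ ∑ i, (u i + u' i) ^ 2 := by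
    have hp : 0 < (∑ i, w i) ^ 2 := by positivity
    have : (∑ i, w i) ^ 2 * (4 * ∑ i, w i ^ 2) ≤ (∑ i, w i) ^ 2 * ∑ i, (u i + u' i) ^ 2 := by
      linarith
    exact le_of_mul_le_mul_left this hp
  have hd : ∑ i, (u i - u' i) ^ 2 = 4 * ∑ i, w i ^ 2 - ∑ i, (u i + u' i) ^ 2 := by
    have h1 : ∑ i, (u i - u' i) ^ 2 + ∑ i, (u i + u' i) ^ 2
        = 2 * ∑ i, u i ^ 2 + 2 * ∑ i, u' i ^ 2 := by
      rw [← Finset.sum_add_distrib, Finset.mul_sum, Finset.mul_sum, ← Finset.sum_add_distrib]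
      exact Finset.sum_congr rfl fun i _ => by ring
    rw [e3, e4] at h1
    linarith
  have hd0 : ∑ i, (u i - u' i) ^ 2 = 0 :=
    le_antisymm (by rw [hd]; linarith) (Finset.sum_nonneg fun i _ => sq_nonneg _)
  have huu : u = u' := by
    funext i
    have h1 := (Finset.sum_eq_zero_iff_of_nonneg (fun i _ => sq_nonneg (u i - u' i))).1 hd0 i
      (Finset.mem_univ i)
    have h2 : u i - u' i = 0 := by
      exact pow_eq_zero_iff (two_ne_zero) |>.1 h1
    linarith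
  rw [← hfil' a, ← hfil a, huu]

end MP_b83a82_al.LP
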