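import Pool.Agent.Lib.MP_b83a82_al.LP.Stm3

set_option autoImplicit false

/-!
# LARGE PRIMES, piece CI2: the index of the centralizer of `M` in `A`
-/

namespace MP_b83a82_al.LP

open Module
open scoped commutatorElement

universe u

private theorem CI2_elsec {G : Type u} [Group G] {p : ℕ} {M U : Subgroup G}
    (hMc : ∀ x ∈ M, ∀ y ∈ M, x * y = y * x) (hU : ∀ x, x ∈ U ↔ x ∈ M ∧ x ^ p = 1) :
    ElSec p (⊥ : Subgroup G) U := by
  refine ⟨bot_le, ?_, ?_⟩
  · intro x hx
    rw [Subgroup.mem_bot]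
    exact ((hU x).1 hx).2
  · intro x hx y hy
    rw [Subgroup.mem_bot, commutatorElement_eq_one_iff_mul_comm]
    exact hMc x ((hU x).1 hx).1 y ((hU y).1 hy).1

private theorem CI2_normal {G : Type u} [Group G] {p : ℕ} {M U : Subgroup G}
    (hMn : M.Normal) (hU : ∀ x, x ∈ U ↔ x ∈ M ∧ x ^ p = 1) : U.Normal := by
  constructor
  intro x hx g
  rw [hU] at hx ⊢
  refine ⟨hMn.conj_mem x hx.1 g, ?_⟩
  rw [conj_pow, hx.2, mul_one, mul_inv_cancel]

theorem p_CI2 : S_CI2.{u} := by
  intro hL G _ _ p hp hG A a B d hLB hA M U hM hU hd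
  have hUn : U.Normal := CI2_normal hM.normal hU
  have hbn : (⊥ : Subgroup G).Normal := inferInstance
  have hMn : M.Normal := hM.normal
  have hUM : U ≤ M := fun x hx => ((hU x).1 hx).1
  have hS : ElSec p (⊥ : Subgroup G) U := CI2_elsec hM.comm hU
  obtain ⟨V, _, _, _, ρ, hcard, hker⟩ := H82.sect_rep p hbn hUn hS
  rw [Subgroup.relIndex_bot_left] at hcard
  -- the kernel of `A` on `U`
  have h1 : (actS U (⊥ : Subgroup G) hbn).relIndex A ≤ p ^ (5 * a + B + 2 * d) := by
    have hidx : (actS U (⊥ : Subgroup G) hbn).relIndex A = (ρ.comp A.subtype).ker.index := by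
      rw [← hker]
      rfl
    rw [hidx]
    by_cases hV : Nontrivial V
    · have h2 := hL p A (hG.to_subgroup A) V (ρ.comp A.subtype) a d B hLB (H82.RkLE_coe hA)
        (hcard.le.trans hd) 0
      rw [pow_zero, pow_one, pow_zero, one_mul] at h2
      refine h2.trans (Nat.pow_le_pow_right hp.out.pos ?_)
      omega
    · rw [not_nontrivial_iff_subsingleton] at hV
      have h2 : (ρ.comp A.subtype).ker = ⊤ := by
        rw [Subgroup.eq_top_iff']
        intro x
        rw [MonoidHom.mem_ker]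
        exact Subsingleton.elim _ _
      rw [h2, Subgroup.index_top]
      exact Nat.one_le_pow _ _ hp.out.pos
  -- the centralizer of `M`
  have hcent : Subgroup.centralizer (M : Set G) = actS M (⊥ : Subgroup G) hbn := by
    ext g
    rw [Subgroup.mem_centralizer_iff, mem_actS]
    constructor
    · intro h u hu
      rw [Subgroup.mem_bot, commutatorElement_eq_one_iff_mul_comm]
      exact (h u hu).symm
    · intro h u hu
      have := h u hu
      rw [Subgroup.mem_bot, commutatorElement_eq_one_iff_mul_comm] at this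
      exact this.symm
  have h2 := H82.elsec_two_step hMn hUn hbn hUM hS
  have h3 : actS M U hUn ⊓ actS U (⊥ : Subgroup G) hbn =
      actS U (⊥ : Subgroup G) hbn := by
    refine inf_eq_right.mpr ?_
    intro g hg
    exact H82.act_of_act_om hMn hM.comm hM.exp hU hg
  rw [h3] at h2
  have h4 : (actS M (⊥ : Subgroup G) hbn ⊓ A).relIndex
      (actS U (⊥ : Subgroup G) hbn ⊓ A) ≤ p ^ a :=
    hA _ _ inf_le_right (h2.inf A)
  have h5 : (actS M (⊥ : Subgroup G) hbn ⊓ A).relIndex (actS U (⊥ : Subgroup G) hbn ⊓ A) *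
      (actS U (⊥ : Subgroup G) hbn ⊓ A).relIndex A =
      (actS M (⊥ : Subgroup G) hbn ⊓ A).relIndex A :=
    Subgroup.relIndex_mul_relIndex _ _ _ (inf_le_inf_right A h2.1) inf_le_right
  rw [Subgroup.inf_relIndex_right, Subgroup.inf_relIndex_right] at h5
  rw [hcent, ← h5]
  calc (actS M (⊥ : Subgroup G) hbn ⊓ A).relIndex (actS U (⊥ : Subgroup G) hbn ⊓ A) *
        (actS U (⊥ : Subgroup G) hbn).relIndex A ≤ p ^ a * p ^ (5 * a + B + 2 * d) :=
        Nat.mul_le_mul h4 h1
    _ = p ^ (6 * a + B + 2 * d) := by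
        rw [← pow_add]
        congr 1
        ring

end MP_b83a82_al.LP
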