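import Pool.Agent.Lib.MP_b83a82_al.LP.Stm2

set_option autoImplicit false

/-!
# LARGE PRIMES, piece COM: two filtrations have a common adapted basis
-/

open Matrix Module

namespace MP_b83a82_al.LP

section

variable {k : Type} [Field k] {n : ℕ}

/-- a vector in the basis of the columns of `g` -/
theorem COM_expand {g h : Matrix (Fin n) (Fin n) k} (e : g * h = 1) (x : Fin n → k) :
    x = ∑ l, (h *ᵥ x) l • (fun r => g r l) := by
  have h1 : x = g *ᵥ (h *ᵥ x) := by rw [Matrix.mulVec_mulVec, e, Matrix.one_mulVec]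
  conv_lhs => rw [h1]
  funext r
  simp only [Matrix.mulVec, dotProduct, Finset.sum_apply, Pi.smul_apply, smul_eq_mul]
  exact Finset.sum_congr rfl fun l _ => mul_comm _ _

/-- triangular changes of bases do not change the spans over lower sets -/
theorem COM_span {g h : Matrix (Fin n) (Fin n) k} (e : g * h = 1) (F : Fin n → Fin n → k)
    (hF : ∀ i, (∀ l, i < l → (h *ᵥ F i) l = 0) ∧ (h *ᵥ F i) i ≠ 0) (S : Set (Fin n))
    (hS : ∀ i ∈ S, ∀ l, l ≤ i → l ∈ S) :
    Submodule.span k (F '' S) = Submodule.span k ((fun l => fun r => g r l) '' S) := by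
  apply le_antisymm
  · rw [Submodule.span_le]
    rintro _ ⟨i, hi, rfl⟩
    rw [SetLike.mem_coe, COM_expand e (F i)]
    refine Submodule.sum_mem _ fun l _ => ?_
    rcases lt_or_ge i l with hl | hl
    · rw [(hF i).1 l hl, zero_smul]
      exact Submodule.zero_mem _
    · exact Submodule.smul_mem _ _ (Submodule.subset_span ⟨l, hS i hi l hl, rfl⟩)
  · rw [Submodule.span_le]
    have key : ∀ (m : ℕ) (i : Fin n), i.val < m → i ∈ S →
        (fun r => g r i) ∈ Submodule.span k (F '' S) := by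
      intro m
      induction m with
      | zero => intro i hi; exact absurd hi (Nat.not_lt_zero _)
      | succ m ih =>
        intro i hi hiS
        have h1 := COM_expand e (F i)
        rw [← Finset.add_sum_erase _ _ (Finset.mem_univ i)] at h1
        have h2 : (h *ᵥ F i) i • (fun r => g r i) =
            F i - ∑ l ∈ Finset.univ.erase i, (h *ᵥ F i) l • (fun r => g r l) :=
          eq_sub_of_add_eq h1.symm
        have h3 : (h *ᵥ F i) i • (fun r => g r i) ∈ Submodule.span k (F '' S) := by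
          rw [h2]
          refine Submodule.sub_mem _ (Submodule.subset_span ⟨i, hiS, rfl⟩)
            (Submodule.sum_mem _ fun l hl => ?_)
          have hne : l ≠ i := Finset.ne_of_mem_erase hl
          rcases lt_or_gt_of_ne hne with hlt | hgt
          · refine Submodule.smul_mem _ _ (ih l ?_ (hS i hiS l hlt.le))
            have h4 : l.val < i.val := hlt
            omega
          · rw [(hF i).1 l hgt, zero_smul]
            exact Submodule.zero_mem _
        have h5 := Submodule.smul_mem _ ((h *ᵥ F i) i)⁻¹ h3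
        rwa [smul_smul, inv_mul_cancel₀ (hF i).2, one_smul] at h5
    rintro _ ⟨i, hi, rfl⟩
    exact key (i.val + 1) i (Nat.lt_succ_self _) hi

/-- two flags have a common adapted basis -/
theorem COM_bruhat {g h g' h' : Matrix (Fin n) (Fin n) k} (e : g * h = 1) (e' : g' * h' = 1) :
    ∃ (F : Fin n → Fin n → k) (π : Equiv.Perm (Fin n)),
      (∀ i, (∀ l, i < l → (h *ᵥ F i) l = 0) ∧ (h *ᵥ F i) i ≠ 0) ∧
      (∀ i, (∀ l, π i < l → (h' *ᵥ F i) l = 0) ∧ (h' *ᵥ F i) (π i) ≠ 0) := by
  classical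
  have eh : h * g = 1 := mul_eq_one_comm.1 e
  let P : Fin n → ℕ → Prop := fun i m => ∃ x : Fin n → k,
    (∀ l, i < l → (h *ᵥ x) l = 0) ∧ (h *ᵥ x) i ≠ 0 ∧ ∀ l : Fin n, m ≤ l.val → (h' *ᵥ x) l = 0
  have hPn : ∀ i, P i n := by
    intro i
    have h1 : h *ᵥ (fun r => g r i) = fun l => (1 : Matrix (Fin n) (Fin n) k) l i := by
      rw [← eh]
      rfl
    refine ⟨fun r => g r i, fun l hl => ?_, ?_, fun l hl => absurd l.isLt (not_lt.2 hl)⟩
    · rw [h1]
      exact Matrix.one_apply_ne (ne_of_gt hl)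
    · rw [h1]
      show (1 : Matrix (Fin n) (Fin n) k) i i ≠ 0
      rw [Matrix.one_apply_eq]
      exact one_ne_zero
  have hP0 : ∀ i, ¬ P i 0 := by
    rintro i ⟨x, -, h2, h3⟩
    have h4 : h' *ᵥ x = 0 := funext fun l => h3 l (Nat.zero_le _)
    have h5 : x = g' *ᵥ (h' *ᵥ x) := by rw [Matrix.mulVec_mulVec, e', Matrix.one_mulVec]
    rw [h4, Matrix.mulVec_zero] at h5
    apply h2
    rw [h5, Matrix.mulVec_zero]
    rfl
  have key : ∀ i, ∃ (j : Fin n) (x : Fin n → k), (∀ l, i < l → (h *ᵥ x) l = 0) ∧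
      (h *ᵥ x) i ≠ 0 ∧ (∀ l : Fin n, j < l → (h' *ᵥ x) l = 0) ∧ (h' *ᵥ x) j ≠ 0 ∧
      ¬ P i j.val := by
    intro i
    have hex : ∃ m, P i m := ⟨n, hPn i⟩
    have h1 : P i (Nat.find hex) := Nat.find_spec hex
    have h2 : Nat.find hex ≤ n := Nat.find_min' hex (hPn i)
    have h3 : Nat.find hex ≠ 0 := by
      intro h0
      rw [h0] at h1
      exact hP0 i h1
    obtain ⟨x, hx1, hx2, hx3⟩ := h1
    have h4 : ¬ P i (Nat.find hex - 1) := Nat.find_min hex (by omega)
    refine ⟨⟨Nat.find hex - 1, by omega⟩, x, hx1, hx2, fun l hl => hx3 l ?_, fun h0 => ?_, h4⟩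
    · have h5 : Nat.find hex - 1 < l.val := hl
      omega
    · refine h4 ⟨x, hx1, hx2, fun l hl => ?_⟩
      rcases Nat.lt_or_ge (Nat.find hex - 1) l.val with h6 | h6
      · exact hx3 l (by omega)
      · have h7 : l = ⟨Nat.find hex - 1, by omega⟩ := Fin.ext (le_antisymm h6 hl)
        rw [h7]
        exact h0
  choose π0 F hF1 hF2 hF3 hF4 hF5 using key
  have hlt : ∀ i i', i < i' → π0 i ≠ π0 i' := by
    intro i i' hii hπ
    apply hF5 i'
    have hc : (h' *ᵥ F i) (π0 i') ≠ 0 := by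
      rw [← hπ]
      exact hF4 i
    refine ⟨F i' - ((h' *ᵥ F i') (π0 i') / (h' *ᵥ F i) (π0 i')) • F i, fun l hl => ?_, ?_,
      fun l hl => ?_⟩
    · rw [Matrix.mulVec_sub, Matrix.mulVec_smul, Pi.sub_apply, Pi.smul_apply, hF1 i' l hl,
        hF1 i l (hii.trans hl), smul_zero, sub_zero]
    · rw [Matrix.mulVec_sub, Matrix.mulVec_smul, Pi.sub_apply, Pi.smul_apply, hF1 i i' hii,
        smul_zero, sub_zero]
      exact hF2 i'
    · rw [Matrix.mulVec_sub, Matrix.mulVec_smul, Pi.sub_apply, Pi.smul_apply, smul_eq_mul]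
      rcases Nat.lt_or_ge (π0 i').val l.val with h6 | h6
      · rw [hF3 i' l h6, hF3 i l (by rw [hπ]; exact h6), mul_zero, sub_zero]
      · have h7 : l = π0 i' := Fin.ext (le_antisymm h6 hl)
        rw [h7, div_mul_cancel₀ _ hc, sub_self]
  have hinj : Function.Injective π0 := by
    intro i i' hπ
    by_contra hne
    rcases lt_or_gt_of_ne hne with h1 | h1
    · exact hlt i i' h1 hπ
    · exact hlt i' i h1 hπ.symm
  refine ⟨F, Equiv.ofBijective π0 ⟨hinj, Finite.surjective_of_injective hinj⟩,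
    fun i => ⟨hF1 i, hF2 i⟩, fun i => ⟨hF3 i, hF4 i⟩⟩

/-- `fil` as the span of an image -/
theorem COM_fil (g : Matrix (Fin n) (Fin n) k) (w : Fin n → ℝ) (a : ℝ) :
    fil g w a = Submodule.span k ((fun l => fun r => g r l) '' {i | a ≤ w i}) := by
  unfold fil
  congr 1
  ext v
  constructor
  · rintro ⟨i, h1, h2⟩
    exact ⟨i, h1, h2.symm⟩
  · rintro ⟨i, h1, h2⟩
    exact ⟨i, h1, h2.symm⟩

/-- sorting -/
theorem COM_sort (w : Fin n → ℝ) : ∃ τ : Equiv.Perm (Fin n), Antitone (w ∘ τ) := by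
  refine ⟨Tuple.sort (fun i => -w i), fun i j hij => ?_⟩
  have h1 := Tuple.monotone_sort (fun i => -w i) hij
  simp only [Function.comp_apply] at h1 ⊢
  linarith

end

/-- **COM.** Two filtrations have a common adapted basis. -/
theorem p_COM : S_COM := by
  intro k _ n g h g' h' w w' e e'
  obtain ⟨τ, hτ⟩ := COM_sort w
  obtain ⟨τ', hτ'⟩ := COM_sort w'
  have e1 : g.submatrix id τ * h.submatrix τ id = 1 := by
    rw [Matrix.submatrix_mul_equiv, e, Matrix.submatrix_id_id]
  have e1' : g'.submatrix id τ' * h'.submatrix τ' id = 1 := by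
    rw [Matrix.submatrix_mul_equiv, e', Matrix.submatrix_id_id]
  obtain ⟨F, π, hF, hπ⟩ := COM_bruhat e1 e1'
  -- the matrix of the new basis
  let f : Matrix (Fin n) (Fin n) k := Matrix.of fun r i => F i r
  have hfc : ∀ i, (fun r => f r i) = F i := fun i => rfl
  have hdet : f.det ≠ 0 := by
    have h1 : (h.submatrix τ id * f).det ≠ 0 := by
      have h2 : ∀ l i, (h.submatrix τ id * f) l i = (h.submatrix τ id *ᵥ F i) l := fun l i => rfl
      have h3 : (h.submatrix τ id * f).BlockTriangular id := by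
        intro l i hli
        rw [h2]
        exact (hF i).1 l hli
      rw [Matrix.det_of_isUpperTriangular h3, Finset.prod_ne_zero_iff]
      intro i _
      rw [h2]
      exact (hF i).2
    rw [Matrix.det_mul] at h1
    exact right_ne_zero_of_mul h1
  refine ⟨f, f⁻¹, w ∘ τ, w' ∘ (π.trans τ'), Matrix.mul_nonsing_inv f (Ne.isUnit hdet), ⟨τ, rfl⟩,
    ⟨π.trans τ', rfl⟩, fun a => ?_, fun a => ?_⟩
  · rw [COM_fil, COM_fil]
    have h1 := COM_span e1 F hF {i | a ≤ (w ∘ τ) i} (fun i hi l hl => le_trans hi (hτ hl))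
    have h2 : (fun l => fun r => f r l) = F := rfl
    rw [h2, h1]
    congr 1
    ext v
    constructor
    · rintro ⟨i, h3, h4⟩
      exact ⟨τ i, h3, h4⟩
    · rintro ⟨i, h3, h4⟩
      refine ⟨τ.symm i, ?_, ?_⟩
      · show a ≤ w (τ (τ.symm i))
        rw [Equiv.apply_symm_apply]
        exact h3
      · rw [← h4]
        funext r
        show g r (τ (τ.symm i)) = g r i
        rw [Equiv.apply_symm_apply]
  · rw [COM_fil, COM_fil]
    have h1 := COM_span e1' (fun j => F (π.symm j)) (fun j => by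
      have h5 := hπ (π.symm j)
      rw [Equiv.apply_symm_apply] at h5
      exact h5) {i | a ≤ (w' ∘ τ') i} (fun i hi l hl => le_trans hi (hτ' hl))
    have h2 : (fun l => fun r => f r l) = F := rfl
    have h6 : F '' {i | a ≤ (w' ∘ (π.trans τ')) i} =
        (fun j => F (π.symm j)) '' {i | a ≤ (w' ∘ τ') i} := by
      ext v
      constructor
      · rintro ⟨i, h3, h4⟩
        refine ⟨π i, h3, ?_⟩
        rw [← h4]
        show F (π.symm (π i)) = F i
        rw [Equiv.symm_apply_apply]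
      · rintro ⟨i, h3, h4⟩
        refine ⟨π.symm i, ?_, h4⟩
        show a ≤ w' (τ' (π (π.symm i)))
        rw [Equiv.apply_symm_apply]
        exact h3
    rw [h2, h6, h1]
    congr 1
    ext v
    constructor
    · rintro ⟨i, h3, h4⟩
      exact ⟨τ' i, h3, h4⟩
    · rintro ⟨i, h3, h4⟩
      refine ⟨τ'.symm i, ?_, ?_⟩
      · show a ≤ w' (τ' (τ'.symm i))
        rw [Equiv.apply_symm_apply]
        exact h3
      · rw [← h4]
        funext r
        show g' r (τ' (τ'.symm i)) = g' r i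
        rw [Equiv.apply_symm_apply]

end MP_b83a82_al.LP
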