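import Pool.Agent.Lib.MP_b83a82_al.LP.Stm1

set_option autoImplicit false

/-!
# LARGE PRIMES, piece MIN: existence of the minimum (compactness)
-/

open Matrix

namespace MP_b83a82_al.LP

private theorem MIN_entry {n : ℕ} {u : Matrix (Fin n) (Fin n) ℂ} (hu : Un u) (i j : Fin n) :
    ‖u i j‖ ≤ 1 := by
  have h1 : (u * uᴴ) i i = 1 := by rw [hu.2, Matrix.one_apply_eq]
  rw [Matrix.mul_apply] at h1
  have h2 : ∑ k, ‖u i k‖ ^ 2 = 1 := by
    have h3 : ((∑ k, ‖u i k‖ ^ 2 : ℝ) : ℂ) = 1 := by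
      rw [← h1]
      push_cast
      refine Finset.sum_congr rfl fun k _ => ?_
      rw [Matrix.conjTranspose_apply, Complex.star_def, Complex.mul_conj, Complex.normSq_eq_norm_sq]
      push_cast
      rfl
    exact_mod_cast h3
  have h4 : ‖u i j‖ ^ 2 ≤ ∑ k, ‖u i k‖ ^ 2 :=
    Finset.single_le_sum (f := fun k => ‖u i k‖ ^ 2) (fun k _ => sq_nonneg _) (Finset.mem_univ j)
  rw [h2] at h4
  nlinarith [norm_nonneg (u i j)]

private theorem MIN_cont {n : ℕ} (c : SC n ℂ) :
    Continuous fun x : Matrix (Fin n) (Fin n) ℂ × (Fin n → ℝ) => nrm (ud c x.1 x.2) := by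
  unfold nrm ud sc bc
  simp only [Matrix.conjTranspose_apply]
  refine continuous_finsetSum _ fun i _ => continuous_finsetSum _ fun j _ =>
    continuous_finsetSum _ fun l _ => ?_
  refine ((Continuous.mul ?_ ?_).norm).pow 2
  · refine continuous_finsetSum _ fun a _ => continuous_finsetSum _ fun b _ =>
      continuous_finsetSum _ fun s _ => ?_
    have h1 : ∀ p q : Fin n, Continuous fun x : Matrix (Fin n) (Fin n) ℂ × (Fin n → ℝ) => x.1 p q :=
      fun p q => (continuous_apply q).comp ((continuous_apply p).comp continuous_fst)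
    exact (((h1 a i).mul (h1 b j)).mul continuous_const).mul ((h1 s l).star)
  · refine Complex.continuous_ofReal.comp (Real.continuous_exp.comp ?_)
    have h2 : ∀ p : Fin n, Continuous fun x : Matrix (Fin n) (Fin n) ℂ × (Fin n → ℝ) => x.2 p :=
      fun p => (continuous_apply p).comp continuous_snd
    exact ((h2 i).add (h2 j)).sub (h2 l)

private def MIN_S (n : ℕ) (R : ℝ) : Set (Matrix (Fin n) (Fin n) ℂ × (Fin n → ℝ)) :=
  {x | Un x.1 ∧ ∑ i, x.2 i = 0 ∧ ∑ i, x.2 i ^ 2 ≤ R ^ 2}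

private theorem MIN_closed (n : ℕ) (R : ℝ) : IsClosed (MIN_S n R) := by
  unfold MIN_S Un
  have h2 : ∀ p : Fin n, Continuous fun x : Matrix (Fin n) (Fin n) ℂ × (Fin n → ℝ) => x.2 p :=
    fun p => (continuous_apply p).comp continuous_snd
  have hc : Continuous fun x : Matrix (Fin n) (Fin n) ℂ × (Fin n → ℝ) => (x.1)ᴴ :=
    continuous_fst.matrix_conjTranspose
  refine IsClosed.and (IsClosed.and ?_ ?_) (IsClosed.and ?_ ?_)
  · exact isClosed_eq (hc.matrix_mul continuous_fst) continuous_const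
  · exact isClosed_eq (continuous_fst.matrix_mul hc) continuous_const
  · exact isClosed_eq (continuous_finsetSum _ fun i _ => h2 i) continuous_const
  · exact isClosed_le (continuous_finsetSum _ fun i _ => (h2 i).pow 2) continuous_const

private theorem MIN_compact (n : ℕ) (R : ℝ) (hR : 0 ≤ R) : IsCompact (MIN_S n R) := by
  have hK1 : IsCompact {u : Matrix (Fin n) (Fin n) ℂ | ∀ i j, u i j ∈ Metric.closedBall (0 : ℂ) 1} := by
    have h1 : IsCompact (Set.pi Set.univ fun _ : Fin n =>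
        Set.pi Set.univ fun _ : Fin n => Metric.closedBall (0 : ℂ) 1) :=
      isCompact_univ_pi fun _ => isCompact_univ_pi fun _ => isCompact_closedBall 0 1
    have h2 : {u : Fin n → Fin n → ℂ | ∀ i j, u i j ∈ Metric.closedBall (0 : ℂ) 1} =
        Set.pi Set.univ fun _ : Fin n => Set.pi Set.univ fun _ : Fin n =>
          Metric.closedBall (0 : ℂ) 1 := by
      ext u
      constructor
      · intro hu i _ j _
        exact hu i j
      · intro hu i j
        exact hu i (Set.mem_univ _) j (Set.mem_univ _)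
    rw [← h2] at h1
    exact h1
  have hK2 : IsCompact (Metric.closedBall (0 : Fin n → ℝ) R) := isCompact_closedBall 0 R
  refine (hK1.prod hK2).of_isClosed_subset (MIN_closed n R) ?_
  rintro ⟨u, d⟩ ⟨hu, -, hd⟩
  refine ⟨fun i j => ?_, ?_⟩
  · rw [mem_closedBall_zero_iff]
    exact MIN_entry hu i j
  · rw [mem_closedBall_zero_iff, pi_norm_le_iff_of_nonneg hR]
    intro i
    have h1 : d i ^ 2 ≤ ∑ k, d k ^ 2 :=
      Finset.single_le_sum (f := fun k => d k ^ 2) (fun k _ => sq_nonneg _) (Finset.mem_univ i)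
    rw [Real.norm_eq_abs]
    exact abs_le_of_sq_le_sq (h1.trans hd) hR

theorem p_MIN : S_MIN := by
  intro n c ε σ κ hε hσ hκ hlow
  have hone : Un (1 : Matrix (Fin n) (Fin n) ℂ) := ⟨by simp, by simp⟩
  have hpos : ∀ (u : Matrix (Fin n) (Fin n) ℂ) (d : Fin n → ℝ), Un u → ∑ i, d i = 0 →
      0 < nrm (ud c u d) := fun u d hu hd =>
    lt_of_lt_of_le (mul_pos hε (Real.exp_pos _)) (hlow u d hu hd)
  obtain ⟨R, hR1, hR⟩ : ∃ R : ℝ, 1 ≤ R ∧
      ∀ r : ℝ, R ≤ r → Ph c κ 1 0 ≤ Real.log ε - σ * r + κ * r ^ 2 := by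
    refine ⟨max 1 ((σ + |Ph c κ 1 0 - Real.log ε|) / κ), le_max_left _ _, fun r hr => ?_⟩
    have h1 : 1 ≤ r := le_trans (le_max_left _ _) hr
    have h2 : σ + |Ph c κ 1 0 - Real.log ε| ≤ κ * r := by
      have := le_trans (le_max_right _ _) hr
      rwa [div_le_iff₀ hκ, mul_comm] at this
    have h3 := le_abs_self (Ph c κ 1 0 - Real.log ε)
    have h4 := abs_nonneg (Ph c κ 1 0 - Real.log ε)
    nlinarith
  have hR0 : 0 ≤ R := by linarith
  have hcont : ContinuousOn (fun x : Matrix (Fin n) (Fin n) ℂ × (Fin n → ℝ) => Ph c κ x.1 x.2)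
      (MIN_S n R) := by
    refine ContinuousOn.add ?_ ?_
    · exact ContinuousOn.log (MIN_cont c).continuousOn fun x hx => (hpos x.1 x.2 hx.1 hx.2.1).ne'
    · have h2 : ∀ p : Fin n, Continuous fun x : Matrix (Fin n) (Fin n) ℂ × (Fin n → ℝ) => x.2 p :=
        fun p => (continuous_apply p).comp continuous_snd
      exact (continuous_const.mul (continuous_finsetSum _ fun i _ => (h2 i).pow 2)).continuousOn
  have hmem : ((1 : Matrix (Fin n) (Fin n) ℂ), (0 : Fin n → ℝ)) ∈ MIN_S n R := by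
    refine ⟨hone, by simp, ?_⟩
    simp only [Pi.zero_apply]
    rw [Finset.sum_eq_zero fun i _ => by norm_num]
    positivity
  obtain ⟨⟨u, d⟩, hud, hmin⟩ := (MIN_compact n R hR0).exists_isMinOn ⟨_, hmem⟩ hcont
  have hmin' : ∀ (u' : Matrix (Fin n) (Fin n) ℂ) (d' : Fin n → ℝ), (u', d') ∈ MIN_S n R →
      Ph c κ u d ≤ Ph c κ u' d' := fun u' d' h => isMinOn_iff.1 hmin (u', d') h
  clear hmin
  refine ⟨u, d, hud.1, hud.2.1, fun u' d' hu' hd' => ?_⟩
  by_cases hin : ∑ i, d' i ^ 2 ≤ R ^ 2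
  · have hmem' : (u', d') ∈ MIN_S n R := ⟨hu', hd', hin⟩
    exact hmin' u' d' hmem'
  · have h1 : Ph c κ u d ≤ Ph c κ 1 0 := hmin' 1 0 hmem
    refine h1.trans ?_
    push Not at hin
    have hs0 : 0 ≤ ∑ i, d' i ^ 2 := Finset.sum_nonneg fun i _ => sq_nonneg _
    have hr : R ≤ Real.sqrt (∑ i, d' i ^ 2) := Real.le_sqrt_of_sq_le hin.le
    refine (hR _ hr).trans ?_
    rw [Real.sq_sqrt hs0]
    unfold Ph
    have h2 := hlow u' d' hu' hd'
    have h3 := Real.log_le_log (mul_pos hε (Real.exp_pos _)) h2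
    rw [Real.log_mul hε.ne' (Real.exp_pos _).ne', Real.log_exp] at h3
    linarith

end MP_b83a82_al.LP
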