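import Pool.Agent.Lib.MP_b83a82_al.LP.Stm3

set_option autoImplicit false

/-!
# LARGE PRIMES, piece PFL: polynomial functions and interpolation
-/

open Polynomial Module

namespace MP_b83a82_al.LP

universe u

section

variable {p : ℕ} [Fact p.Prime] {R : Type u} [Ring R] [Algebra (ZMod p) R]

/-- evaluation at the central element `N` -/
private noncomputable def evN (p : ℕ) [Fact p.Prime] (R : Type u) [Ring R] [Algebra (ZMod p) R]
    (N : ℕ) : R[X] →+* R :=
  eval₂RingHom' (RingHom.id R) (algebraMap (ZMod p) R (N : ZMod p))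
    (fun a => (Algebra.commutes (N : ZMod p) a).symm)

private theorem evN_apply (N : ℕ) (F : R[X]) :
    evN p R N F = F.eval (algebraMap (ZMod p) R (N : ZMod p)) := rfl

private theorem evN_mono (N i : ℕ) (a : R) :
    evN p R N (monomial i a) = ((N : ZMod p) ^ i) • a := by
  rw [evN_apply, eval_monomial, ← map_pow, Algebra.smul_def, Algebra.commutes]

private theorem pf_iff {D : ℕ} (hD : 1 ≤ D) {φ : ℕ → R} {r0 r1 : R} :
    PF p D φ r0 r1 ↔ ∃ F : R[X], F.natDegree ≤ D ∧ F.coeff 0 = r0 ∧ F.coeff 1 = r1 ∧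
      ∀ N, φ N = evN p R N F := by
  constructor
  · rintro ⟨r, h0, h1, h⟩
    have hc : ∀ n ≤ D, (∑ i ∈ Finset.range (D + 1), monomial i (r i)).coeff n = r n := by
      intro n hn
      rw [finsetSum_coeff]
      simp only [coeff_monomial]
      rw [Finset.sum_ite_eq']
      exact if_pos (Finset.mem_range.2 (by omega))
    refine ⟨∑ i ∈ Finset.range (D + 1), monomial i (r i), ?_, ?_, ?_, ?_⟩
    · refine natDegree_sum_le_of_forall_le _ _ fun i hi => ?_
      exact (natDegree_monomial_le _).trans (by have := Finset.mem_range.1 hi; omega)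
    · rw [hc 0 (by omega), h0]
    · rw [hc 1 hD, h1]
    · intro N
      rw [h N, map_sum]
      exact Finset.sum_congr rfl fun i _ => (evN_mono N i (r i)).symm
  · rintro ⟨F, hF, h0, h1, h⟩
    refine ⟨fun i => F.coeff i, h0, h1, fun N => ?_⟩
    rw [h N]
    conv_lhs => rw [F.as_sum_range' (D + 1) (by omega)]
    rw [map_sum]
    exact Finset.sum_congr rfl fun i _ => evN_mono N i _

private theorem pfl_mono {D D' : ℕ} {φ : ℕ → R} {r0 r1 : R} (hD : 1 ≤ D) (hDD : D ≤ D')
    (h : PF p D φ r0 r1) : PF p D' φ r0 r1 := by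
  rw [pf_iff hD] at h
  rw [pf_iff (hD.trans hDD)]
  obtain ⟨F, hF, h0, h1, h⟩ := h
  exact ⟨F, hF.trans hDD, h0, h1, h⟩

private theorem pfl_mul {D D' : ℕ} {φ ψ : ℕ → R} {r0 r1 s0 s1 : R} (hD : 1 ≤ D) (hD' : 1 ≤ D')
    (h : PF p D φ r0 r1) (h' : PF p D' ψ s0 s1) :
    PF p (D + D') (fun N => φ N * ψ N) (r0 * s0) (r0 * s1 + r1 * s0) := by
  rw [pf_iff hD] at h
  rw [pf_iff hD'] at h'
  rw [pf_iff (by omega)]
  obtain ⟨F, hF, h0, h1, h⟩ := h
  obtain ⟨G, hG, g0, g1, g⟩ := h'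
  refine ⟨F * G, natDegree_mul_le_of_le hF hG, ?_, ?_, fun N => ?_⟩
  · rw [mul_coeff_zero, h0, g0]
  · rw [mul_coeff_one, h0, h1, g0, g1]
  · rw [map_mul, ← h, ← g]

private theorem pfl_add {D : ℕ} {φ ψ : ℕ → R} {r0 r1 s0 s1 : R}
    (h : PF p D φ r0 r1) (h' : PF p D ψ s0 s1) :
    PF p D (fun N => φ N + ψ N) (r0 + s0) (r1 + s1) := by
  obtain ⟨r, h0, h1, h⟩ := h
  obtain ⟨s, g0, g1, g⟩ := h'
  refine ⟨fun i => r i + s i, by simp only [h0, g0], by simp only [h1, g1], fun N => ?_⟩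
  simp only []
  rw [h, g, ← Finset.sum_add_distrib]
  exact Finset.sum_congr rfl fun i _ => (smul_add _ _ _).symm

private theorem pfl_const (r : R) : PF p 1 (fun _ => r) r 0 := by
  refine ⟨fun i => if i = 0 then r else 0, by simp, by simp, fun N => ?_⟩
  simp

private theorem pfl_tex {m : ℕ} {x : R} (_ : 2 ≤ m) (hmp : m ≤ p) (hx : x ^ m = 0) :
    PF p m (fun N => tex p ((N : ZMod p) • x)) 1 x := by
  have hz : ∀ j, m ≤ j → x ^ j = 0 := by
    intro j hj
    rw [← Nat.add_sub_cancel' hj, pow_add, hx, zero_mul]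
  refine ⟨fun i => ((i.factorial : ZMod p)⁻¹) • x ^ i, by simp, by simp, fun N => ?_⟩
  unfold tex
  have h1 : ∀ j, ((j.factorial : ZMod p)⁻¹) • ((N : ZMod p) • x) ^ j =
      ((N : ZMod p) ^ j) • ((j.factorial : ZMod p)⁻¹) • x ^ j := by
    intro j
    rw [_root_.smul_pow, smul_comm]
  simp only []
  rw [Finset.sum_congr rfl fun j _ => h1 j]
  rw [← Finset.sum_subset (Finset.range_mono hmp) (f := fun j => ((N : ZMod p) ^ j) •
    ((j.factorial : ZMod p)⁻¹) • x ^ j), Finset.sum_range_succ, hz m le_rfl, smul_zero, smul_zero,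
    add_zero]
  intro j _ hj
  rw [hz j (by simpa using hj), smul_zero, smul_zero]

private theorem pfl_comp {m D : ℕ} {q : (ZMod p)[X]} {z : ℕ → R} {r : R} (hm : 1 ≤ m)
    (hD : 1 ≤ D) (q0 : q.coeff 0 = 0) (q1 : q.coeff 1 = 1) (hq : q.natDegree ≤ m)
    (h : PF p D z 0 r) : PF p (m * D) (fun N => aeval (z N) q) 0 r := by
  rw [pf_iff hD] at h
  rw [pf_iff (Nat.mul_pos hm hD)]
  obtain ⟨F, hF, h0, h1, h⟩ := h
  obtain ⟨G, rfl⟩ := X_dvd_iff.2 h0
  have hpow : ∀ j : ℕ, ((X : R[X]) * G) ^ j = X ^ j * G ^ j := fun j => (commute_X G).mul_pow j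
  refine ⟨aeval (X * G) q, ?_, ?_, ?_, fun N => ?_⟩
  · rw [aeval_eq_sum_range' (n := m + 1) (by omega)]
    refine natDegree_sum_le_of_forall_le _ _ fun i hi => ?_
    refine (natDegree_smul_le _ _).trans ((natDegree_pow_le_of_le i hF).trans ?_)
    exact Nat.mul_le_mul_right D (by have := Finset.mem_range.1 hi; omega)
  · rw [aeval_eq_sum_range' (n := m + 1) (by omega), finsetSum_coeff]
    refine Finset.sum_eq_zero fun i _ => ?_
    rw [coeff_smul, hpow, coeff_X_pow_mul']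
    rcases Nat.eq_zero_or_pos i with rfl | hi
    · rw [q0, zero_smul]
    · rw [if_neg (by omega), smul_zero]
  · rw [aeval_eq_sum_range' (n := m + 1) (by omega), finsetSum_coeff,
      Finset.sum_eq_single_of_mem 1 (Finset.mem_range.2 (by omega))]
    · rw [coeff_smul, q1, one_smul, pow_one, h1]
    · intro i _ hi
      rw [coeff_smul, hpow, coeff_X_pow_mul']
      rcases Nat.eq_zero_or_pos i with rfl | hi0
      · rw [q0, zero_smul]
      · rw [if_neg (by omega), smul_zero]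
  · rw [h N]
    have e : (evN p R N).comp (algebraMap (ZMod p) R[X]) = algebraMap (ZMod p) R :=
      RingHom.ext_zmod _ _
    rw [aeval_def, aeval_def, hom_eval₂, e]

private theorem pfl_sum0 (p : ℕ) [Fact p.Prime] (i : ℕ) (h : i < p - 1) :
    ∑ x : ZMod p, x ^ i = 0 :=
  FiniteField.sum_pow_lt_card_sub_one (ZMod p) i (by rw [ZMod.card]; exact h)

private theorem pfl_sum1 (p : ℕ) [Fact p.Prime] :
    ∑ x : ZMod p, x ^ (p - 1) = -1 := by
  have hp : 2 ≤ p := (Fact.out : p.Prime).two_le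
  have h : ∀ x : ZMod p, x ^ (p - 1) = 1 - if x = 0 then 1 else 0 := by
    intro x
    by_cases hx : x = 0
    · rw [if_pos hx, hx, zero_pow (by omega), sub_self]
    · rw [if_neg hx, sub_zero, ZMod.pow_card_sub_one_eq_one hx]
  rw [Finset.sum_congr rfl fun x _ => h x, Finset.sum_sub_distrib, Finset.sum_ite_eq']
  simp

private theorem pfl_sum2 (p : ℕ) [Fact p.Prime] (i : ℕ) (hi : 2 ≤ i) (hip : i < p) :
    ∑ x : ZMod p, x ^ (p - 2 + i) = 0 := by
  have h : ∀ x : ZMod p, x ^ (p - 2 + i) = x ^ (i - 1) := by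
    intro x
    by_cases hx : x = 0
    · rw [hx, zero_pow (by omega), zero_pow (by omega)]
    · rw [show p - 2 + i = (p - 1) + (i - 1) by omega, pow_add,
        ZMod.pow_card_sub_one_eq_one hx, one_mul]
  rw [Finset.sum_congr rfl fun x _ => h x]
  exact pfl_sum0 p (i - 1) (by omega)

private theorem pfl_int {D : ℕ} {φ : ℕ → R} {r0 r1 : R} {W : Submodule (ZMod p) R} (hp : 3 ≤ p)
    (hD : 1 ≤ D) (hDp : D < p) (hW : ∀ N, φ N ∈ W) (h : PF p D φ r0 r1) : r1 ∈ W := by
  obtain ⟨r, _, h1, h⟩ := h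
  have key : ∑ x : ZMod p, x ^ (p - 2) • φ x.val = -r1 := by
    have e1 : ∀ x : ZMod p, x ^ (p - 2) • φ x.val =
        ∑ i ∈ Finset.range (D + 1), x ^ (p - 2 + i) • r i := by
      intro x
      rw [h, ZMod.natCast_zmod_val, Finset.smul_sum]
      refine Finset.sum_congr rfl fun i _ => ?_
      rw [smul_smul, ← pow_add]
    rw [Finset.sum_congr rfl fun x _ => e1 x, Finset.sum_comm]
    have e2 : ∀ i ∈ Finset.range (D + 1), ∑ x : ZMod p, x ^ (p - 2 + i) • r i =
        if i = 1 then -r1 else 0 := by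
      intro i hi
      have hi' := Finset.mem_range.1 hi
      rw [← Finset.sum_smul]
      rcases Nat.lt_or_ge i 2 with h2 | h2
      · interval_cases i
        · rw [add_zero, pfl_sum0 p (p - 2) (by omega), zero_smul, if_neg (by omega)]
        · rw [show p - 2 + 1 = p - 1 by omega, pfl_sum1, if_pos rfl, h1, neg_smul, one_smul]
      · rw [pfl_sum2 p i h2 (by omega), zero_smul, if_neg (by omega)]
    rw [Finset.sum_congr rfl e2, Finset.sum_ite_eq', if_pos (Finset.mem_range.2 (by omega))]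
  have h2 : -r1 ∈ W := by
    rw [← key]
    exact Submodule.sum_mem _ fun x _ => Submodule.smul_mem _ _ (hW _)
  exact (Submodule.neg_mem_iff W).1 h2

end

theorem p_PFL : S_PFL.{u} := by
  intro p _ R _ _
  exact ⟨fun D D' φ r0 r1 hD hDD h => pfl_mono hD hDD h,
    fun D D' φ ψ r0 r1 s0 s1 hD hD' h h' => pfl_mul hD hD' h h',
    fun D φ ψ r0 r1 s0 s1 h h' => pfl_add h h', pfl_const,
    fun m x hm hmp hx => pfl_tex hm hmp hx,
    fun m D q z r hm hD q0 q1 hq h => pfl_comp hm hD q0 q1 hq h,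
    fun D φ r0 r1 W hp hD hDp hW h => pfl_int hp hD hDp hW h⟩

end MP_b83a82_al.LP
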